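import Mathlib

/-!
`B_n(x)` near the origin is a sine: for `n` odd,
`|(-1)^{h+1} (2π)^n B_n(x) / (2 n!) - sin (2 π x)| ≤ 4 * 2^{-n} e^{4π|x|}`.
-/

namespace Pool.Agent.BernIrr

open Finset Real

/-- `B_k (2π)^k / (2 k!)` -/
noncomputable def bt (k : ℕ) : ℝ := (_root_.bernoulli k : ℝ) * (2 * π) ^ k / (2 * k.factorial)

lemma bt_zero : bt 0 = 1 / 2 := by simp [bt]

lemma bt_one : bt 1 = -π / 2 := by
  unfold bt
  rw [_root_.bernoulli_one]
  push_cast
  simp
  ring

lemma bt_odd {k : ℕ} (hk : Odd k) (h1 : 1 < k) : bt k = 0 := by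
  unfold bt
  rw [bernoulli_eq_zero_of_odd hk h1]
  simp

lemma bt_even {i : ℕ} (hi : 1 ≤ i) : ∃ z : ℝ, bt (2 * i) = (-1) ^ (i + 1) * z ∧ 1 ≤ z ∧
    z ≤ 1 + 4 * (1 / 4) ^ i := by
  have h := hasSum_zeta_nat (k := i) (by omega)
  set z := (-1 : ℝ) ^ (i + 1) * (2 : ℝ) ^ (2 * i - 1) * π ^ (2 * i) *
        _root_.bernoulli (2 * i) / (2 * i).factorial with hz
  refine ⟨z, ?_, ?_, ?_⟩
  · rw [hz]
    unfold bt
    obtain ⟨j, rfl⟩ : ∃ j, i = j + 1 := ⟨i - 1, by omega⟩
    have e1 : 2 * (j + 1) - 1 = 2 * j + 1 := by omega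
    rw [e1]
    have h1 : ((-1 : ℝ) ^ (j + 1 + 1)) * (-1) ^ (j + 1 + 1) = 1 := by
      rw [← mul_pow]; norm_num
    have h2 : (-1 : ℝ) ^ (j + 1 + 1) * ((-1) ^ (j + 1 + 1) * 2 ^ (2 * j + 1) * π ^ (2 * (j + 1)) *
        (_root_.bernoulli (2 * (j + 1)) : ℝ) / (2 * (j + 1)).factorial) =
        (((-1 : ℝ) ^ (j + 1 + 1)) * (-1) ^ (j + 1 + 1)) * (2 ^ (2 * j + 1) * π ^ (2 * (j + 1)) *
        (_root_.bernoulli (2 * (j + 1)) : ℝ) / (2 * (j + 1)).factorial) := by ring
    rw [h2, h1, mul_pow]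
    have hf : ((2 * (j + 1)).factorial : ℝ) ≠ 0 := by exact_mod_cast Nat.factorial_ne_zero _
    field_simp
    ring
  · have h1 := h.summable.sum_le_tsum {1} (fun n _ => by positivity)
    rw [h.tsum_eq] at h1
    simpa using h1
  · -- z = 1 + sum over m ≥ 2
    have hs2 : HasSum (fun n : ℕ => 1 / (n : ℝ) ^ 2) (π ^ 2 / 6) := hasSum_zeta_two
    have hg : HasSum (fun n : ℕ => if n = 1 then (1 : ℝ) - 4 * (1 / 4) ^ i else 0)
        (1 - 4 * (1 / 4) ^ i) := hasSum_ite_eq 1 _
    have hb : HasSum (fun n : ℕ => (if n = 1 then (1 : ℝ) - 4 * (1 / 4) ^ i else 0) +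
        4 * (1 / 4) ^ i * (1 / (n : ℝ) ^ 2)) ((1 - 4 * (1 / 4) ^ i) +
          4 * (1 / 4) ^ i * (π ^ 2 / 6)) := hg.add (hs2.mul_left _)
    have hle : z ≤ (1 - 4 * (1 / 4) ^ i) + 4 * (1 / 4) ^ i * (π ^ 2 / 6) := by
      refine hasSum_le (fun n => ?_) h hb
      rcases Nat.lt_or_ge n 1 with h0 | h0
      · have : n = 0 := by omega
        subst this
        simp [show i ≠ 0 by omega]
      rcases Nat.eq_or_lt_of_le h0 with h1 | h1
      · rw [← h1]
        simp
      · rw [if_neg (by omega), zero_add]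
        obtain ⟨j, rfl⟩ : ∃ j, i = j + 1 := ⟨i - 1, by omega⟩
        have hn2 : (2 : ℝ) ≤ n := by exact_mod_cast h1
        have hn0 : (0 : ℝ) < n := by linarith
        have h3 : (4 : ℝ) ^ j ≤ (n : ℝ) ^ (2 * j) := by
          rw [pow_mul]
          apply pow_le_pow_left₀ (by norm_num)
          nlinarith
        have h4 : (n : ℝ) ^ (2 * (j + 1)) = n ^ (2 * j) * n ^ 2 := by
          rw [← pow_add]
          congr 1
        rw [h4, one_div, mul_inv]
        have h5 : (4 : ℝ) * (1 / 4) ^ (j + 1) = ((4 : ℝ) ^ j)⁻¹ := by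
          rw [pow_succ, one_div, inv_pow]
          ring
        rw [h5, one_div]
        apply mul_le_mul_of_nonneg_right _ (by positivity)
        exact inv_anti₀ (by positivity) h3
    have hpi : π ^ 2 / 6 ≤ 2 := by
      have := Real.pi_lt_d2
      have := Real.pi_pos
      nlinarith
    have h14 : (0 : ℝ) ≤ (1 / 4) ^ i := by positivity
    nlinarith

lemma bt_abs (k : ℕ) : |bt k| ≤ 2 := by
  rcases Nat.even_or_odd k with he | ho
  · obtain ⟨i, hi⟩ := he
    have hi' : k = 2 * i := by omega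
    rcases Nat.eq_zero_or_pos i with h0 | h0
    · rw [hi', h0, mul_zero, bt_zero]
      norm_num
    · obtain ⟨z, h1, h2, h3⟩ := bt_even h0
      rw [hi', h1, abs_mul, abs_pow]
      simp only [abs_neg, abs_one, one_pow, one_mul]
      rw [abs_of_nonneg (by linarith)]
      have : (1 / 4 : ℝ) ^ i ≤ 1 / 4 := by
        calc (1 / 4 : ℝ) ^ i ≤ (1 / 4) ^ 1 :=
              pow_le_pow_of_le_one (by norm_num) (by norm_num) h0
          _ = 1 / 4 := by norm_num
      linarith
  · rcases Nat.lt_or_ge 1 k with h1 | h1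
    · rw [bt_odd ho h1]; simp
    · have : k = 1 := by
        obtain ⟨a, ha⟩ := ho
        omega
      rw [this, bt_one, abs_div, abs_neg, abs_of_pos Real.pi_pos]
      have := Real.pi_lt_d2
      norm_num
      linarith

/-- coefficients of the sine -/
noncomputable def sc (m : ℕ) : ℝ := if Even m then 0 else (-1) ^ (m / 2)

lemma sc_abs (m : ℕ) : |sc m| ≤ 1 := by
  unfold sc
  split_ifs <;> simp

lemma sc_hasSum (z : ℂ) : HasSum (fun m : ℕ => (sc m : ℂ) * (z ^ m / m.factorial)) (Complex.sin z) := by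
  have h1 : HasSum (fun k : ℕ => (sc (2 * k) : ℂ) * (z ^ (2 * k) / (2 * k).factorial)) 0 := by
    have h0 : ∀ k : ℕ, (sc (2 * k) : ℂ) * (z ^ (2 * k) / (2 * k).factorial) = 0 := by
      intro k
      have : sc (2 * k) = 0 := by simp [sc]
      rw [this, Complex.ofReal_zero, zero_mul]
    simp only [h0]
    exact hasSum_zero
  have h2 : HasSum (fun k : ℕ => (sc (2 * k + 1) : ℂ) * (z ^ (2 * k + 1) / (2 * k + 1).factorial))
      (Complex.sin z) := by
    have h0 : ∀ k : ℕ, (sc (2 * k + 1) : ℂ) * (z ^ (2 * k + 1) / (2 * k + 1).factorial) =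
        (-1) ^ k * z ^ (2 * k + 1) / (2 * k + 1).factorial := by
      intro k
      have : sc (2 * k + 1) = (-1) ^ k := by
        unfold sc
        rw [if_neg (by simp)]
        congr 1
        omega
      rw [this, Complex.ofReal_pow, Complex.ofReal_neg, Complex.ofReal_one, mul_div_assoc]
    simp only [h0]
    exact Complex.hasSum_sin z
  have h4 := HasSum.even_add_odd (f := fun m : ℕ => (sc m : ℂ) * (z ^ m / m.factorial)) h1 h2
  rwa [zero_add] at h4

/-- the coefficient comparison -/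
lemma coef_cmp {n h : ℕ} (hn : n = 2 * h + 1) {m : ℕ} (hm : m ≤ n) :
    |(-1) ^ (h + 1) * bt (n - m) - sc m| ≤ 4 * 2 ^ m / 2 ^ n := by
  have h2n : (0 : ℝ) < 2 ^ n := by positivity
  have hpow : (2 : ℝ) ^ n = 2 ^ m * 2 ^ (n - m) := by
    rw [← pow_add]; congr 1; omega
  have hrw : (4 : ℝ) * 2 ^ m / 2 ^ n = 4 / 2 ^ (n - m) := by
    rw [hpow]
    field_simp
  rw [hrw]
  rcases Nat.even_or_odd m with he | ho
  · -- m even: n - m odd
    have hsc : sc m = 0 := by simp [sc, he]
    rw [hsc, sub_zero, abs_mul, abs_pow]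
    simp only [abs_neg, abs_one, one_pow, one_mul]
    obtain ⟨a, ha⟩ := he
    rcases Nat.lt_or_ge 1 (n - m) with h1 | h1
    · rw [bt_odd ⟨h - a, by omega⟩ h1, abs_zero]
      positivity
    · have h2 : n - m = 1 := by omega
      rw [h2]
      have h3 := bt_abs 1
      norm_num
      linarith
  · obtain ⟨a, ha⟩ := ho
    have hodd : Odd m := ⟨a, ha⟩
    have hsc : sc m = (-1) ^ a := by
      unfold sc
      rw [if_neg (Nat.not_even_iff_odd.2 hodd)]
      congr 1
      omega
    rw [hsc]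
    have hah : a ≤ h := by omega
    rcases Nat.eq_or_lt_of_le hah with h0 | h0
    · have : n - m = 2 * 0 := by omega
      rw [this, mul_zero, bt_zero]
      have h5 : |(-1 : ℝ) ^ (h + 1) * (1 / 2) - (-1) ^ a| ≤
          |(-1 : ℝ) ^ (h + 1) * (1 / 2)| + |(-1 : ℝ) ^ a| := abs_sub _ _
      have h6 : |(-1 : ℝ) ^ (h + 1) * (1 / 2)| = 1 / 2 := by
        rw [abs_mul, abs_pow]; simp
      have h7 : |(-1 : ℝ) ^ a| = 1 := by rw [abs_pow]; simp
      rw [h6, h7] at h5
      norm_num at h5 ⊢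
      linarith
    · have h8 : n - m = 2 * (h - a) := by omega
      obtain ⟨z, h9, h10, h11⟩ := bt_even (i := h - a) (by omega)
      rw [h8, h9]
      have h12 : (-1 : ℝ) ^ (h + 1) * ((-1) ^ (h - a + 1) * z) - (-1) ^ a = (-1) ^ a * (z - 1) := by
        have h13 : (-1 : ℝ) ^ (h + 1) * (-1) ^ (h - a + 1) = (-1) ^ a := by
          rw [← pow_add]
          have : h + 1 + (h - a + 1) = a + 2 * (h - a + 1) := by omega
          rw [this, pow_add, pow_mul]
          norm_num
        rw [← mul_assoc, h13]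
        ring
      rw [h12, abs_mul, abs_pow]
      simp only [abs_neg, abs_one, one_pow, one_mul]
      rw [abs_of_nonneg (by linarith)]
      have h14 : (4 : ℝ) / 2 ^ (2 * (h - a)) = 4 * (1 / 4) ^ (h - a) := by
        rw [pow_mul, one_div, inv_pow]
        norm_num
        rfl
      rw [h14]
      linarith

/-- value of a Bernoulli polynomial at a complex number -/
lemma bern_eval (n : ℕ) (x : ℂ) :
    ((Polynomial.bernoulli n).map (algebraMap ℚ ℂ)).eval x * ((2 * π) ^ n / (2 * n.factorial) : ℝ)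
      = ∑ m ∈ range (n + 1), (bt (n - m) : ℂ) * ((2 * π * x) ^ m / m.factorial) := by
  rw [Polynomial.bernoulli_def, Polynomial.map_sum, Polynomial.eval_finsetSum, sum_mul]
  apply sum_congr rfl
  intro m hm
  rw [mem_range] at hm
  rw [Polynomial.map_monomial, Polynomial.eval_monomial]
  unfold bt
  have hfn : (n.factorial : ℂ) ≠ 0 := by exact_mod_cast Nat.factorial_ne_zero _
  have hfm : (m.factorial : ℂ) ≠ 0 := by exact_mod_cast Nat.factorial_ne_zero _
  have hfnm : ((n - m).factorial : ℂ) ≠ 0 := by exact_mod_cast Nat.factorial_ne_zero _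
  have hch : (n.choose m : ℂ) * m.factorial * (n - m).factorial = n.factorial := by
    exact_mod_cast Nat.choose_mul_factorial_mul_factorial (by omega : m ≤ n)
  have hpow : (2 * (π : ℂ)) ^ n = (2 * π) ^ (n - m) * (2 * π) ^ m := by
    rw [← pow_add]; congr 1; omega
  push_cast
  simp only [eq_ratCast]
  rw [hpow, mul_pow (2 * (π : ℂ)) x m, ← hch]
  have hc0 : (n.choose m : ℂ) ≠ 0 := by
    intro h0
    rw [h0, zero_mul, zero_mul] at hch
    exact hfn hch.symm
  field_simp

/-- the sine approximation -/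
theorem sine_approx {n : ℕ} (hn : Odd n) (x : ℂ)
    (hx : ((Polynomial.bernoulli n).map (algebraMap ℚ ℂ)).eval x = 0) :
    ‖Complex.sin (2 * π * x)‖ ≤ 4 / 2 ^ n * Real.exp (4 * π * ‖x‖) := by
  obtain ⟨h, hh⟩ := hn
  set u : ℂ := 2 * π * x with hu
  have h1 := bern_eval n x
  rw [hx, zero_mul] at h1
  -- the finite sum as a series
  set f : ℕ → ℂ := fun m => if m ≤ n then ((((-1) ^ (h + 1) * bt (n - m) : ℝ)) : ℂ) *
    (u ^ m / m.factorial) else 0 with hf
  have hfs : HasSum f 0 := by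
    have h2 : HasSum f (∑ m ∈ range (n + 1), f m) := by
      apply hasSum_sum_of_ne_finset_zero
      intro m hm
      rw [mem_range, not_lt] at hm
      simp only [hf]
      rw [if_neg (by omega)]
    have h3 : ∑ m ∈ range (n + 1), f m = 0 := by
      calc ∑ m ∈ range (n + 1), f m = ∑ m ∈ range (n + 1), ((-1) ^ (h + 1) : ℂ) *
            ((bt (n - m) : ℂ) * (u ^ m / m.factorial)) := by
            apply sum_congr rfl
            intro m hm
            rw [mem_range] at hm
            simp only [hf]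
            rw [if_pos (by omega)]
            push_cast
            ring
        _ = 0 := by rw [← mul_sum, ← h1, mul_zero]
    rwa [h3] at h2
  have hs := sc_hasSum u
  have hd := hfs.sub hs
  have hg : HasSum (fun m : ℕ => 4 / 2 ^ n * ((2 * ‖u‖) ^ m / m.factorial))
      (4 / 2 ^ n * Real.exp (2 * ‖u‖)) := by
    apply HasSum.mul_left
    have := NormedSpace.expSeries_div_hasSum_exp (𝔸 := ℝ) (2 * ‖u‖)
    rwa [← Real.exp_eq_exp_ℝ] at this
  have hb : ∀ m, ‖f m - (sc m : ℂ) * (u ^ m / m.factorial)‖ ≤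
      4 / 2 ^ n * ((2 * ‖u‖) ^ m / m.factorial) := by
    intro m
    have hfac : (0 : ℝ) < m.factorial := by exact_mod_cast Nat.factorial_pos m
    have hun : ‖u ^ m / (m.factorial : ℂ)‖ = ‖u‖ ^ m / m.factorial := by
      rw [norm_div, norm_pow, Complex.norm_natCast]
    have hR : 4 / 2 ^ n * ((2 * ‖u‖) ^ m / m.factorial) =
        4 * 2 ^ m / 2 ^ n * (‖u‖ ^ m / m.factorial) := by
      rw [mul_pow]; ring
    rw [hR]
    simp only [hf]
    split_ifs with hm
    · rw [← sub_mul, norm_mul, hun, ← Complex.ofReal_sub, Complex.norm_real, Real.norm_eq_abs]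
      apply mul_le_mul_of_nonneg_right (coef_cmp hh hm) (by positivity)
    · rw [zero_sub, norm_neg, norm_mul, hun, Complex.norm_real, Real.norm_eq_abs]
      apply mul_le_mul_of_nonneg_right _ (by positivity)
      refine (sc_abs m).trans ?_
      rw [le_div_iff₀ (by positivity), one_mul]
      have : (2 : ℝ) ^ n ≤ 2 ^ m := pow_le_pow_right₀ (by norm_num) (by omega)
      have : (0 : ℝ) < 2 ^ m := by positivity
      linarith
  have hfin := hd.norm_le_of_bounded hg hb
  rw [zero_sub, norm_neg] at hfin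
  have hnu : 2 * ‖u‖ = 4 * π * ‖x‖ := by
    rw [hu, norm_mul, norm_mul, Complex.norm_real, Real.norm_eq_abs, abs_of_pos Real.pi_pos]
    simp
    ring
  rwa [hnu] at hfin

/-- zeros of the Bernoulli polynomials are smaller than `2 n` -/
theorem root_le {n : ℕ} (hn : 1 ≤ n) (x : ℂ)
    (hx : ((Polynomial.bernoulli n).map (algebraMap ℚ ℂ)).eval x = 0) : ‖x‖ ≤ 2 * n := by
  by_contra hlt
  rw [not_le] at hlt
  have hn0 : (0 : ℝ) < n := by exact_mod_cast hn
  have hx0 : 0 < ‖x‖ := lt_trans (by positivity) hlt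
  have h1 := bern_eval n x
  rw [hx, zero_mul, sum_range_succ] at h1
  have h2 : (bt (n - n) : ℂ) * ((2 * π * x) ^ n / n.factorial) =
      - ∑ m ∈ range n, (bt (n - m) : ℂ) * ((2 * π * x) ^ m / m.factorial) := by
    linear_combination -h1
  have h3 : ‖(bt (n - n) : ℂ) * ((2 * π * x) ^ n / n.factorial)‖ ≤
      ∑ m ∈ range n, ‖(bt (n - m) : ℂ) * ((2 * π * x) ^ m / m.factorial)‖ := by
    rw [h2, norm_neg]
    exact norm_sum_le _ _
  set y : ℝ := 2 * π * ‖x‖ with hy
  have hy0 : 0 < y := by positivity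
  have hyn : 12 * n < y := by
    have := Real.pi_gt_three
    rw [hy]
    nlinarith
  have hnorm : ∀ m : ℕ, ‖(bt (n - m) : ℂ) * ((2 * π * x) ^ m / m.factorial)‖ =
      |bt (n - m)| * (y ^ m / m.factorial) := by
    intro m
    rw [norm_mul, norm_div, norm_pow, norm_mul, norm_mul, Complex.norm_real, Complex.norm_real,
      Complex.norm_natCast, Real.norm_eq_abs, Real.norm_eq_abs, abs_of_pos Real.pi_pos]
    simp [hy]
  rw [hnorm, Nat.sub_self, bt_zero] at h3
  simp only [hnorm] at h3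
  have h4 : ∀ m ∈ range n, |bt (n - m)| * (y ^ m / m.factorial) ≤
      (y ^ n / n.factorial) * (2 * (1 / 12) ^ (n - m)) := by
    intro m hm
    rw [mem_range] at hm
    have h5 : y ^ m / m.factorial ≤ (y ^ n / n.factorial) * (1 / 12) ^ (n - m) := by
      have hfm : (0 : ℝ) < m.factorial := by exact_mod_cast Nat.factorial_pos m
      have hfn : (0 : ℝ) < n.factorial := by exact_mod_cast Nat.factorial_pos n
      have h6 : (n.factorial : ℝ) ≤ n ^ (n - m) * m.factorial := by
        have e1 := Nat.factorial_mul_descFactorial (show n - m ≤ n by omega)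
        have e2 := Nat.descFactorial_le_pow n (n - m)
        rw [show n - (n - m) = m by omega] at e1
        have : n.factorial ≤ n ^ (n - m) * m.factorial := by
          rw [← e1, mul_comm]
          exact Nat.mul_le_mul_right _ e2
        exact_mod_cast this
      have h7 : (12 * (n : ℝ)) ^ (n - m) ≤ y ^ (n - m) :=
        pow_le_pow_left₀ (by positivity) hyn.le _
      have h8 : y ^ n = y ^ m * y ^ (n - m) := by rw [← pow_add]; congr 1; omega
      rw [h8, one_div, inv_pow, ← div_eq_mul_inv, div_div, div_le_div_iff₀ hfm (by positivity)]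
      calc y ^ m * (n.factorial * 12 ^ (n - m))
          ≤ y ^ m * ((n ^ (n - m) * m.factorial) * 12 ^ (n - m)) := by gcongr
        _ = y ^ m * (12 * (n : ℝ)) ^ (n - m) * m.factorial := by rw [mul_pow]; ring
        _ ≤ y ^ m * y ^ (n - m) * m.factorial := by gcongr
    calc |bt (n - m)| * (y ^ m / m.factorial) ≤ 2 * ((y ^ n / n.factorial) * (1 / 12) ^ (n - m)) := by
          apply mul_le_mul (bt_abs _) h5 (by positivity) (by norm_num)
      _ = _ := by ring
  have h9 := h3.trans (sum_le_sum h4)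
  rw [← mul_sum, ← mul_sum] at h9
  have h10 : ∑ m ∈ range n, (1 / 12 : ℝ) ^ (n - m) ≤ 1 / 11 := by
    have h11 : ∑ m ∈ range n, (1 / 12 : ℝ) ^ (n - m) = ∑ m ∈ range n, (1 / 12 : ℝ) ^ (m + 1) := by
      rw [← Finset.sum_range_reflect]
      apply sum_congr rfl
      intro m hm
      rw [mem_range] at hm
      congr 1
      omega
    rw [h11]
    have h12 : ∑ m ∈ range n, (1 / 12 : ℝ) ^ (m + 1) = (1 / 12) * ∑ m ∈ range n, (1 / 12 : ℝ) ^ m := by
      rw [mul_sum]
      apply sum_congr rfl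
      intro m _
      rw [pow_succ]; ring
    rw [h12, geom_sum_eq (by norm_num)]
    have : (0 : ℝ) < (1 / 12) ^ n := by positivity
    have h13 : (1 / 12 : ℝ) * (((1 / 12) ^ n - 1) / (1 / 12 - 1)) = 1 / 11 * (1 - (1 / 12) ^ n) := by
      ring
    rw [h13]
    linarith
  have h14 : 0 < y ^ n / n.factorial := by positivity
  nlinarith

end Pool.Agent.BernIrr
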