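import Mathlib
import Pool.Agent.BernIrr.Arch1

/-!
Zeros of `B_n` of modulus at most `n / 100` are exponentially close to half-integers, and `T` does
not vanish at half-integers.
-/

namespace Pool.Agent.BernIrr

open Finset Polynomial

lemma near_int (w : ℂ) : ∃ j : ℤ, ‖w - Real.pi * j‖ ≤ Real.pi / 2 * ‖Complex.sin w‖ := by
  set j : ℤ := round (w.re / Real.pi) with hj
  refine ⟨j, ?_⟩
  have hpi := Real.pi_pos
  set v : ℂ := w - Real.pi * j with hv
  have hre : v.re = w.re - Real.pi * j := by simp [hv]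
  have hab : |v.re| ≤ Real.pi / 2 := by
    have h1 : |w.re / Real.pi - j| ≤ 1 / 2 := abs_sub_round _
    have h2 : v.re = Real.pi * (w.re / Real.pi - j) := by
      rw [hre]; field_simp
    rw [h2, abs_mul, abs_of_pos hpi]
    nlinarith
  -- |sin v| = |sin w|
  have hsin : ‖Complex.sin v‖ = ‖Complex.sin w‖ := by
    have h1 : w = v + j * Real.pi := by rw [hv]; ring
    rw [h1, Complex.sin_add, Complex.sin_int_mul_pi, mul_zero, add_zero, norm_mul]
    have h2 : ‖Complex.cos ((j : ℂ) * Real.pi)‖ = 1 := by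
      have h3 : Complex.cos ((j : ℂ) * Real.pi) = ((Real.cos (j * Real.pi) : ℝ) : ℂ) := by
        push_cast; rfl
      rw [h3, Complex.norm_real, Real.norm_eq_abs, Real.abs_cos_int_mul_pi]
    rw [h2, mul_one]
  rw [← hsin]
  -- |sin v|^2 = sin^2 a + sinh^2 b
  set a := v.re with ha
  set b := v.im with hb
  have hs : Complex.normSq (Complex.sin v) = Real.sin a ^ 2 + Real.sinh b ^ 2 := by
    rw [Complex.sin_eq, ← ha, ← hb]
    have h1 : Complex.sin (a : ℂ) * Complex.cosh (b : ℂ) + Complex.cos (a : ℂ) * Complex.sinh (b : ℂ) *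
        Complex.I = ((Real.sin a * Real.cosh b : ℝ) : ℂ) + ((Real.cos a * Real.sinh b : ℝ) : ℂ) *
          Complex.I := by
      push_cast; rfl
    rw [h1, Complex.normSq_add_mul_I]
    have h2 := Real.cosh_sq b
    have h3 := Real.sin_sq_add_cos_sq a
    have h4 : Real.cos a ^ 2 = 1 - Real.sin a ^ 2 := by linarith
    rw [mul_pow, mul_pow, h2, h4]
    ring
  have h1 : (2 / Real.pi * |a|) ^ 2 ≤ Real.sin a ^ 2 := by
    have h2 : 2 / Real.pi * |a| ≤ Real.sin |a| := Real.mul_le_sin (abs_nonneg a) hab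
    have h3 : Real.sin |a| ^ 2 = Real.sin a ^ 2 := by
      rcases abs_choice a with h | h <;> rw [h]
      rw [Real.sin_neg, neg_sq]
    rw [← h3]
    exact pow_le_pow_left₀ (by positivity) h2 2
  have h2 : b ^ 2 ≤ Real.sinh b ^ 2 := by
    rw [← sq_abs b, ← sq_abs (Real.sinh b)]
    apply pow_le_pow_left₀ (abs_nonneg b)
    rw [Real.abs_sinh]
    exact Real.self_le_sinh_iff.2 (abs_nonneg b)
  have hnv : ‖v‖ ^ 2 = a ^ 2 + b ^ 2 := by
    rw [← Complex.normSq_eq_norm_sq, Complex.normSq_apply]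
    ring
  have hns : ‖Complex.sin v‖ ^ 2 = Real.sin a ^ 2 + Real.sinh b ^ 2 := by
    rw [← hs, Complex.normSq_eq_norm_sq]
  have h3 : ‖v‖ ^ 2 ≤ (Real.pi / 2 * ‖Complex.sin v‖) ^ 2 := by
    rw [mul_pow, hns, hnv]
    have e1 : (2 / Real.pi * |a|) ^ 2 * (Real.pi / 2) ^ 2 = a ^ 2 := by
      rw [mul_pow, sq_abs]
      field_simp
    have e2 : a ^ 2 ≤ (Real.pi / 2) ^ 2 * Real.sin a ^ 2 := by
      rw [← e1, mul_comm]
      exact mul_le_mul_of_nonneg_left h1 (by positivity)
    have e3 : (1 : ℝ) ≤ (Real.pi / 2) ^ 2 := by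
      have := Real.pi_gt_three
      nlinarith
    have e4 : b ^ 2 ≤ (Real.pi / 2) ^ 2 * Real.sinh b ^ 2 := by
      have : (0 : ℝ) ≤ Real.sinh b ^ 2 := by positivity
      nlinarith
    rw [mul_add]
    exact add_le_add e2 e4
  exact (pow_le_pow_iff_left₀ (norm_nonneg v) (by positivity) two_ne_zero).1 h3

/-- small zeros are close to half-integers -/
theorem near_half {n : ℕ} (hn : Odd n) (x : ℂ) (hxn : ‖x‖ ≤ n / 100)
    (hx : ((Polynomial.bernoulli n).map (algebraMap ℚ ℂ)).eval x = 0) :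
    ∃ j : ℤ, ‖x - j / 2‖ ≤ Real.exp (-(n : ℝ) / 2) := by
  obtain ⟨j, hj⟩ := near_int (2 * Real.pi * x)
  refine ⟨j, ?_⟩
  have h1 := sine_approx hn x hx
  have hpi := Real.pi_pos
  have h2 : 2 * (Real.pi : ℂ) * x - Real.pi * j = (2 * Real.pi) * (x - j / 2) := by ring
  rw [h2, norm_mul, norm_mul, Complex.norm_real, Real.norm_eq_abs, abs_of_pos hpi] at hj
  simp only [Complex.norm_ofNat] at hj
  have h3 : ‖x - j / 2‖ ≤ 1 / 4 * ‖Complex.sin (2 * Real.pi * x)‖ := by
    have : 2 * Real.pi * ‖x - j / 2‖ ≤ 2 * Real.pi * (1 / 4 * ‖Complex.sin (2 * Real.pi * x)‖) := by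
      refine hj.trans (le_of_eq ?_)
      ring
    exact le_of_mul_le_mul_left this (by positivity)
  refine h3.trans ?_
  have h4 : 1 / 4 * ‖Complex.sin (2 * Real.pi * x)‖ ≤ 1 / 2 ^ n * Real.exp (4 * Real.pi * ‖x‖) := by
    calc _ ≤ 1 / 4 * (4 / 2 ^ n * Real.exp (4 * Real.pi * ‖x‖)) :=
          mul_le_mul_of_nonneg_left h1 (by norm_num)
      _ = _ := by ring
  refine h4.trans ?_
  have h5 : (1 : ℝ) / 2 ^ n = Real.exp (-(n * Real.log 2)) := by
    rw [Real.exp_neg, one_div, mul_comm, Real.exp_mul, Real.exp_log (by norm_num), Real.rpow_natCast]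
  rw [h5, ← Real.exp_add]
  apply Real.exp_le_exp.2
  have h6 := Real.log_two_gt_d9
  have h7 := Real.pi_lt_d2
  have h8 : 4 * Real.pi * ‖x‖ ≤ 4 * 3.15 * (n / 100) := by
    apply mul_le_mul _ hxn (norm_nonneg x) (by norm_num)
    linarith
  have h9 : (0 : ℝ) ≤ n := Nat.cast_nonneg n
  nlinarith

/-! ### Nonvanishing at half-integers -/

lemma bern_pos {n : ℕ} (hn : 2 ≤ n) (hodd : Odd n) {m : ℕ} (hm : 2 ≤ m) :
    0 < (Polynomial.bernoulli n).eval (m : ℚ) := by
  obtain ⟨p, rfl⟩ : ∃ p, n = p + 1 := ⟨n - 1, by omega⟩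
  have h1 := Polynomial.sum_range_pow_eq_bernoulli_sub m p
  rw [bernoulli_eq_zero_of_odd hodd (by omega), sub_zero] at h1
  rw [← h1]
  have h2 : (0 : ℚ) < ∑ k ∈ range m, (k : ℚ) ^ p := by
    apply Finset.sum_pos'
    · intro i _
      positivity
    · exact ⟨1, mem_range.2 (by omega), by simp⟩
  positivity

/-- even Bernoulli numbers do not vanish -/
lemma bern_even_ne {k : ℕ} (hk : Even k) (hk0 : 0 < k) : _root_.bernoulli k ≠ 0 := by
  obtain ⟨i, hi⟩ := hk
  have hi' : k = 2 * i := by omega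
  obtain ⟨z, h1, h2, _⟩ := bt_even (i := i) (by omega)
  intro h0
  rw [← hi'] at h1
  unfold bt at h1
  rw [h0] at h1
  simp only [Rat.cast_zero, zero_mul, zero_div] at h1
  have h3 : (-1 : ℝ) ^ (i + 1) ≠ 0 := pow_ne_zero _ (by norm_num)
  have h4 := mul_eq_zero.1 h1.symm
  rcases h4 with h4 | h4
  · exact h3 h4
  · linarith

/-- `T` does not vanish at integers -/
lemma T_int_ne {n D : ℕ} (hn : Odd n) (h5 : 5 ≤ n) (hD : Odd D) {T : ℤ[X]}
    (heq : C (2 * (D : ℚ)) * Polynomial.bernoulli n =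
      X * (X - 1) * (2 * X - 1) * T.map (Int.castRingHom ℚ)) (m : ℤ) : T.eval m ≠ 0 := by
  intro h0
  have hD0 : (D : ℚ) ≠ 0 := by
    have : D ≠ 0 := by
      rintro rfl
      simp at hD
    exact_mod_cast this
  have h0' : (T.map (Int.castRingHom ℚ)).eval (m : ℚ) = 0 := by
    have := Polynomial.eval_intCast_map (Int.castRingHom ℚ) T m
    rw [this, Int.cast_id, h0]
    simp
  have hB : (Polynomial.bernoulli n).eval (m : ℚ) = 0 := by
    have h1 := congrArg (Polynomial.eval (m : ℚ)) heq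
    rw [eval_mul, eval_mul, eval_C, h0', mul_zero] at h1
    rcases mul_eq_zero.1 h1 with h2 | h2
    · exact absurd h2 (mul_ne_zero two_ne_zero hD0)
    · exact h2
  have hder : C (2 * (D : ℚ)) * ((n : ℚ[X]) * Polynomial.bernoulli (n - 1)) =
      derivative (X * (X - 1) * (2 * X - 1) * T.map (Int.castRingHom ℚ)) := by
    rw [← heq, derivative_C_mul, derivative_bernoulli]
  have hBn1 : (Polynomial.bernoulli (n - 1)).eval 0 ≠ 0 := by
    rw [bernoulli_eval_zero]
    obtain ⟨a, ha⟩ := hn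
    exact bern_even_ne ⟨a, by omega⟩ (by omega)
  have hn0 : (n : ℚ) ≠ 0 := by
    have : n ≠ 0 := by omega
    exact_mod_cast this
  rcases lt_trichotomy m 0 with hm | hm | hm
  · -- negative
    obtain ⟨k, hk⟩ : ∃ k : ℕ, m = -(k : ℤ) - 1 := ⟨(-m - 1).toNat, by omega⟩
    have h1 := bernoulli_eval_one_sub n (m : ℚ)
    rw [hB, mul_zero, hk] at h1
    push_cast at h1
    have h2 : (1 : ℚ) - (-(k : ℚ) - 1) = ((k + 2 : ℕ) : ℚ) := by push_cast; ring
    rw [h2] at h1
    exact (bern_pos (by omega) hn (by omega : 2 ≤ k + 2)).ne' h1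
  · -- zero
    subst hm
    have h1 := congrArg (Polynomial.eval (0 : ℚ)) hder
    have h2 : derivative (X * (X - 1) * (2 * X - 1) * T.map (Int.castRingHom ℚ)) =
        (X - 1) * (2 * X - 1) * T.map (Int.castRingHom ℚ) +
          X * derivative ((X - 1) * (2 * X - 1) * T.map (Int.castRingHom ℚ)) := by
      rw [show (X * (X - 1) * (2 * X - 1) * T.map (Int.castRingHom ℚ) : ℚ[X]) =
        X * ((X - 1) * (2 * X - 1) * T.map (Int.castRingHom ℚ)) by ring, derivative_mul,
        derivative_X, one_mul]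
    rw [h2] at h1
    simp only [Int.cast_zero] at h0'
    simp only [eval_mul, eval_add, eval_C, eval_X, zero_mul, add_zero, h0', mul_zero,
      eval_natCast] at h1
    exact (mul_ne_zero (mul_ne_zero two_ne_zero hD0) (mul_ne_zero hn0 hBn1)) h1
  · rcases Nat.lt_or_ge 1 m.toNat with h1 | h1
    · have h2 : (m : ℚ) = ((m.toNat : ℕ) : ℚ) := by
        have : ((m.toNat : ℕ) : ℤ) = m := Int.toNat_of_nonneg (by omega)
        exact_mod_cast this.symm
      rw [h2] at hB
      exact (bern_pos (by omega) hn (by omega : 2 ≤ m.toNat)).ne' hB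
    · have hm1 : m = 1 := by omega
      subst hm1
      have h1 := congrArg (Polynomial.eval (1 : ℚ)) hder
      have h2 : derivative (X * (X - 1) * (2 * X - 1) * T.map (Int.castRingHom ℚ)) =
          X * (2 * X - 1) * T.map (Int.castRingHom ℚ) +
            (X - 1) * derivative (X * (2 * X - 1) * T.map (Int.castRingHom ℚ)) := by
        rw [show (X * (X - 1) * (2 * X - 1) * T.map (Int.castRingHom ℚ) : ℚ[X]) =
          (X - 1) * (X * (2 * X - 1) * T.map (Int.castRingHom ℚ)) by ring, derivative_mul]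
        simp
      rw [h2] at h1
      simp only [Int.cast_one] at h0'
      have h3 := bernoulli_eval_one_add (n - 1) 0
      rw [add_zero, zero_pow (by omega), mul_zero, add_zero] at h3
      simp only [eval_mul, eval_add, eval_sub, eval_one, eval_C, eval_X, sub_self, zero_mul,
        add_zero, h0', mul_zero, eval_natCast, h3] at h1
      exact (mul_ne_zero (mul_ne_zero two_ne_zero hD0) (mul_ne_zero hn0 hBn1)) h1

lemma lc_T {n D : ℕ} {T : ℤ[X]} (heq : C (2 * (D : ℚ)) * Polynomial.bernoulli n =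
      X * (X - 1) * (2 * X - 1) * T.map (Int.castRingHom ℚ)) : T.leadingCoeff = D := by
  have hdeg : (Polynomial.bernoulli n).natDegree = n := by
    apply le_antisymm
    · rw [natDegree_le_iff_coeff_eq_zero]
      intro i hi
      rw [coeff_bernoulli, if_neg (by omega)]
    · apply le_natDegree_of_ne_zero
      rw [coeff_bernoulli, if_pos le_rfl]
      simp
  have hlcB : (Polynomial.bernoulli n).leadingCoeff = 1 := by
    rw [leadingCoeff, hdeg, coeff_bernoulli, if_pos le_rfl]
    simp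
  have h1 := congrArg Polynomial.leadingCoeff heq
  rw [leadingCoeff_mul, leadingCoeff_mul, leadingCoeff_C, hlcB, mul_one,
    leadingCoeff_map_of_injective (RingHom.injective_int _)] at h1
  have h2 : (X * (X - 1) * (2 * X - 1) : ℚ[X]).leadingCoeff = 2 := by
    have hd : (X * (X - 1) * (2 * X - 1) : ℚ[X]).natDegree = 3 := by compute_degree!
    unfold leadingCoeff
    rw [hd, show (X * (X - 1) * (2 * X - 1) : ℚ[X]) = 2 * X ^ 3 - 3 * X ^ 2 + X by ring]
    simp [coeff_X]
  rw [h2] at h1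
  have h3 : (D : ℚ) = ((T.leadingCoeff : ℤ) : ℚ) := by
    have := mul_left_cancel₀ (two_ne_zero) h1
    simpa using this
  exact_mod_cast h3.symm

/-- `T` does not vanish at half-integers -/
theorem T_half_ne {n D : ℕ} (hn : Odd n) (h5 : 5 ≤ n) (hD : Odd D) {T : ℤ[X]}
    (heq : C (2 * (D : ℚ)) * Polynomial.bernoulli n =
      X * (X - 1) * (2 * X - 1) * T.map (Int.castRingHom ℚ)) (j : ℤ) :
    (T.scaleRoots 2).eval j ≠ 0 := by
  rcases Int.even_or_odd j with he | ho
  · obtain ⟨m, hm⟩ := he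
    have hm2 : j = 2 * m := by omega
    intro h0
    have h1 := scaleRoots_eval₂_mul (p := T) (RingHom.id ℤ) m 2
    simp only [RingHom.id_apply, eval₂_id] at h1
    rw [← hm2, h0] at h1
    have h2 := T_int_ne hn h5 hD heq m
    have h3 : (2 : ℤ) ^ T.natDegree * T.eval m ≠ 0 := mul_ne_zero (by positivity) h2
    exact h3 h1.symm
  · intro h0
    have hlc := lc_T heq
    have hlc2 : (Int.castRingHom (ZMod 2)) T.leadingCoeff = 1 := by
      rw [hlc]
      obtain ⟨a, ha⟩ := hD
      rw [ha]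
      push_cast
      have : (2 : ZMod 2) = 0 := rfl
      rw [map_add, map_mul]
      simp [this]
    have h1 := map_scaleRoots T 2 (Int.castRingHom (ZMod 2)) (by rw [hlc2]; exact one_ne_zero)
    have h2 := congrArg (Polynomial.eval (j : ZMod 2)) h1
    have e2 : (Int.castRingHom (ZMod 2)) 2 = 0 := rfl
    rw [Polynomial.eval_intCast_map, Int.cast_id, h0, e2, scaleRoots_zero] at h2
    have hj1 : (j : ZMod 2) = 1 := by
      obtain ⟨a, ha⟩ := ho
      rw [ha]
      push_cast
      have : (2 : ZMod 2) = 0 := rfl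
      simp [this]
    rw [hj1] at h2
    rw [eval_smul, eval_pow, eval_X, one_pow, leadingCoeff_map_of_leadingCoeff_ne_zero _
      (by rw [hlc2]; exact one_ne_zero), hlc2] at h2
    simp at h2

end Pool.Agent.BernIrr
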