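import Mathlib

/-!
Shared definitions for the irreducibility of the reduced Bernoulli polynomials of odd index.
-/

namespace Pool.Agent.BernIrr

open Polynomial Finset

/-- The sum of `log p` over the odd primes `p` with `p - 1 ∣ m` (used for `m > 0`). -/
noncomputable def Zf (m : ℕ) : ℝ :=
  ∑ p ∈ (range (m + 2)).filter (fun p => p.Prime ∧ p ≠ 2 ∧ (p - 1) ∣ m), Real.log p

/-- `p` is a prime whose three-digit expansion of `n` has digit sum `p - 1 + c`, with
`c p ^ 2 ≤ c₀ n / log n`. -/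
def GoodPrime (c₀ : ℝ) (n p c : ℕ) : Prop :=
  p.Prime ∧ p ≠ 2 ∧ p ^ 2 ≤ n ∧ n < p ^ 3 ∧ c < p - 1 ∧
    n % p + n / p % p + n / p ^ 2 = p - 1 + c ∧ (c : ℝ) * p ^ 2 * Real.log n ≤ c₀ * n

end Pool.Agent.BernIrr
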