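import Mathlib
import Pool.Agent.BernIrr.Defs

/-!
Integrality of `N * B_n(x)`, `N` the product of the primes up to `n + 1`, and its reductions.
-/

namespace Pool.Agent.BernIrr

open Polynomial Finset

lemma dvd_primorial {p m : ℕ} (hp : p.Prime) (h : p ≤ m) : p ∣ primorial m := by
  unfold primorial
  exact Finset.dvd_prod_of_mem _ (by simp [hp]; omega)

lemma dvd_div_of_ne {N p q : ℕ} (hp : p.Prime) (hq : q.Prime) (hpq : p ≠ q) (h1 : p ∣ N)
    (h2 : q ∣ N) : p ∣ N / q := by
  obtain ⟨c, rfl⟩ := h2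
  rw [Nat.mul_div_cancel_left _ hq.pos]
  rcases hp.dvd_mul.1 h1 with h | h
  · exact absurd ((Nat.prime_dvd_prime_iff_eq hp hq).1 h) hpq
  · exact h

lemma exists_int (n k : ℕ) (hk : k ≤ n) : ∃ b : ℤ,
    (primorial (n + 1) : ℚ) * _root_.bernoulli k = b ∧
    ∀ p, p.Prime → p ≠ 2 → p ≤ n + 1 → (b : ZMod p) =
      if (p - 1) ∣ k ∧ 0 < k then -((primorial (n + 1) / p : ℕ) : ZMod p) else 0 := by
  set N := primorial (n + 1) with hN
  obtain ⟨f, hf⟩ : ∃ f : ℕ → ℕ, ∀ q, N / q = f q := ⟨_, fun _ => rfl⟩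
  simp only [hf]
  have hN0 : ∀ p, p.Prime → p ≤ n + 1 → ((N : ℕ) : ZMod p) = 0 := fun p hp hpn =>
    (ZMod.natCast_eq_zero_iff _ _).2 (dvd_primorial hp hpn)
  rcases Nat.eq_zero_or_pos k with rfl | hk0
  · refine ⟨N, by simp, fun p hp _ hpn => ?_⟩
    rw [if_neg (by simp)]
    exact_mod_cast hN0 p hp hpn
  rcases Nat.even_or_odd k with hev | hodd
  · obtain ⟨j, hj⟩ := hev
    have hj2 : k = 2 * j := by omega
    have hj0 : 0 < j := by omega
    obtain ⟨z, hz⟩ := Bernoulli.vonStaudt_clausen j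
    set S := (range (2 * j + 2)).filter (fun p => p.Prime ∧ (p - 1) ∣ 2 * j) with hS
    have hSp : ∀ q ∈ S, q.Prime ∧ q ≤ n + 1 ∧ (q - 1) ∣ 2 * j := by
      intro q hq
      simp only [hS, mem_filter, mem_range] at hq
      exact ⟨hq.2.1, by omega, hq.2.2⟩
    refine ⟨N * z - ∑ q ∈ S, (f q : ℤ), ?_, ?_⟩
    · have h1 : _root_.bernoulli k = z - ∑ q ∈ S, (1 : ℚ) / q := by
        rw [hj2, hz]; ring
      rw [h1]
      push_cast
      rw [mul_sub, mul_sum]
      congr 1
      refine sum_congr rfl fun q hq => ?_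
      obtain ⟨hq1, hq2, _⟩ := hSp q hq
      rw [← hf q, Nat.cast_div (dvd_primorial hq1 hq2) (by exact_mod_cast hq1.ne_zero)]
      ring
    · intro p hp hp2 hpn
      push_cast
      rw [hN0 p hp hpn, zero_mul, zero_sub]
      by_cases hd : (p - 1) ∣ k ∧ 0 < k
      · rw [if_pos hd]
        have hpS : p ∈ S := by
          simp only [hS, mem_filter, mem_range]
          have := Nat.le_of_dvd hk0 hd.1
          refine ⟨by omega, hp, hj2 ▸ hd.1⟩
        rw [← add_sum_erase _ _ hpS]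
        have h0 : ∑ q ∈ S.erase p, (f q : ZMod p) = 0 := by
          refine Finset.sum_eq_zero fun q hq => ?_
          rw [mem_erase] at hq
          obtain ⟨hq1, hq2, _⟩ := hSp q hq.2
          rw [← hf q]
          exact (ZMod.natCast_eq_zero_iff _ _).2
            (dvd_div_of_ne hp hq1 hq.1.symm (dvd_primorial hp hpn) (dvd_primorial hq1 hq2))
        rw [h0, add_zero]
      · rw [if_neg hd, Finset.sum_eq_zero, neg_zero]
        intro q hq
        obtain ⟨hq1, hq2, hq3⟩ := hSp q hq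
        have hne : p ≠ q := by
          rintro rfl
          exact hd ⟨hj2 ▸ hq3, hk0⟩
        rw [← hf q]
        exact (ZMod.natCast_eq_zero_iff _ _).2
          (dvd_div_of_ne hp hq1 hne (dvd_primorial hp hpn) (dvd_primorial hq1 hq2))
  · have hnd : ∀ p, p.Prime → p ≠ 2 → ¬ ((p - 1) ∣ k ∧ 0 < k) := by
      rintro p hp hp2 ⟨hd, _⟩
      have hpo := hp.odd_of_ne_two hp2
      obtain ⟨a, ha⟩ := hpo
      have h2 : 2 ∣ p - 1 := ⟨a, by omega⟩
      have := h2.trans hd
      obtain ⟨b, hb⟩ := hodd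
      omega
    rcases Nat.eq_or_lt_of_le hk0 with h1 | h1
    · have h1 : k = 1 := h1.symm
      have h2N : 2 ∣ N := dvd_primorial Nat.prime_two (by omega)
      refine ⟨-(f 2 : ℤ), ?_, ?_⟩
      · rw [h1, _root_.bernoulli_one]
        push_cast
        rw [← hf 2, Nat.cast_div h2N (by norm_num)]
        push_cast
        ring
      · intro p hp hp2 hpn
        rw [if_neg (hnd p hp hp2)]
        push_cast
        rw [neg_eq_zero, ← hf 2]
        exact (ZMod.natCast_eq_zero_iff _ _).2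
          (dvd_div_of_ne hp Nat.prime_two hp2 (dvd_primorial hp hpn) h2N)
    · refine ⟨0, by rw [bernoulli_eq_zero_of_odd hodd h1]; simp, fun p hp hp2 _ => ?_⟩
      rw [if_neg (hnd p hp hp2)]
      simp

end Pool.Agent.BernIrr
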