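import Mathlib
import Pool.Agent.BernIrr.Stau

/-!
The primitive integer polynomial `T` with `2 D B_n = x (x - 1) (2 x - 1) T`.
-/

namespace Pool.Agent.BernIrr

open Polynomial Finset

/-- `x (x - 1) (2 x - 1)` -/
noncomputable def q3 : ℤ[X] := X * (X - 1) * (2 * X - 1)

lemma q3_natDegree : q3.natDegree = 3 := by
  unfold q3; compute_degree!

lemma q3_leadingCoeff : q3.leadingCoeff = 2 := by
  unfold leadingCoeff
  rw [q3_natDegree]
  have : q3 = 2 * X ^ 3 - 3 * X ^ 2 + X := by unfold q3; ring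
  rw [this]
  simp [coeff_X]

lemma q3_primitive : q3.IsPrimitive := by
  rw [isPrimitive_iff_isUnit_of_C_dvd]
  intro r hr
  have h1 := (C_dvd_iff_dvd_coeff r q3).1 hr 1
  have : q3 = 2 * X ^ 3 - 3 * X ^ 2 + X := by unfold q3; ring
  rw [this] at h1
  simp [coeff_X_pow, Polynomial.coeff_ofNat_mul] at h1
  exact isUnit_of_dvd_one h1

lemma bern_zero {n : ℕ} (hn : Odd n) (h3 : 3 ≤ n) : (Polynomial.bernoulli n).eval 0 = 0 := by
  rw [bernoulli_eval_zero, bernoulli_eq_zero_of_odd hn (by omega)]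

lemma bern_one {n : ℕ} (hn : Odd n) (h3 : 3 ≤ n) : (Polynomial.bernoulli n).eval 1 = 0 := by
  have := bernoulli_eval_one_sub n 0
  rw [sub_zero, bern_zero hn h3, mul_zero] at this
  exact this

lemma bern_half {n : ℕ} (hn : Odd n) : (Polynomial.bernoulli n).eval (1 / 2) = 0 := by
  have := bernoulli_eval_one_sub n (1 / 2)
  rw [hn.neg_one_pow] at this
  norm_num at this
  linarith

lemma q3_dvd {n : ℕ} (hn : Odd n) (h3 : 3 ≤ n) : q3.map (Int.castRingHom ℚ) ∣ Polynomial.bernoulli n := by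
  have h0 : (X - C (0 : ℚ)) ∣ Polynomial.bernoulli n := dvd_iff_isRoot.2 (bern_zero hn h3)
  have h1 : (X - C (1 : ℚ)) ∣ Polynomial.bernoulli n := dvd_iff_isRoot.2 (bern_one hn h3)
  have h2 : (X - C (1 / 2 : ℚ)) ∣ Polynomial.bernoulli n := dvd_iff_isRoot.2 (bern_half hn)
  have c01 : IsCoprime (X - C (0 : ℚ)) (X - C (1 : ℚ)) :=
    isCoprime_X_sub_C_of_isUnit_sub (by norm_num)
  have c02 : IsCoprime (X - C (0 : ℚ)) (X - C (1 / 2 : ℚ)) :=
    isCoprime_X_sub_C_of_isUnit_sub (by norm_num)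
  have c12 : IsCoprime (X - C (1 : ℚ)) (X - C (1 / 2 : ℚ)) :=
    isCoprime_X_sub_C_of_isUnit_sub (by norm_num)
  have h := (c02.mul_left c12).mul_dvd (c01.mul_dvd h0 h1) h2
  refine dvd_trans ?_ h
  have e : q3.map (Int.castRingHom ℚ) =
      C 2 * ((X - C (0 : ℚ)) * (X - C (1 : ℚ)) * (X - C (1 / 2 : ℚ))) := by
    unfold q3
    simp only [Polynomial.map_mul, Polynomial.map_sub, Polynomial.map_X, Polynomial.map_one,
      Polynomial.map_ofNat, map_zero, sub_zero, map_one]
    have : (2 : ℚ[X]) = C 2 := rfl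
    rw [this]
    have h2 : (C 2 : ℚ[X]) * (X - C (1/2)) = C 2 * X - 1 := by
      rw [mul_sub, ← C_mul]; norm_num
    rw [show (C 2 : ℚ[X]) * (X * (X - 1) * (X - C (1/2))) = X * (X - 1) * (C 2 * (X - C (1/2))) by ring, h2]
  rw [e]
  exact (isUnit_C.2 (by norm_num)).mul_left_dvd.2 dvd_rfl

/-- the integral multiple of the Bernoulli polynomial -/
lemma exists_U (n : ℕ) (hn : 1 ≤ n) : ∃ U : ℤ[X],
    U.map (Int.castRingHom ℚ) = C (primorial (n + 1) : ℚ) * Polynomial.bernoulli n ∧
    U.natDegree = n ∧ U.leadingCoeff = primorial (n + 1) ∧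
    ∀ p, p.Prime → p ≠ 2 → p ≤ n + 1 → ∀ i, i ≤ n → (U.coeff i : ZMod p) =
      if (p - 1) ∣ (n - i) ∧ 0 < n - i then
        -((primorial (n + 1) / p : ℕ) : ZMod p) * (n.choose i : ZMod p) else 0 := by
  choose b hb1 hb2 using fun k : Fin (n + 1) => exists_int n k (by omega)
  let U : ℤ[X] := ∑ i : Fin (n + 1), monomial (i : ℕ) (b ⟨n - i, by omega⟩ * n.choose i)
  have hc : ∀ i (hi : i ≤ n), U.coeff i = b ⟨n - i, by omega⟩ * n.choose i := by
    intro i hi
    simp only [U, finsetSum_coeff, coeff_monomial]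
    rw [Finset.sum_eq_single (⟨i, by omega⟩ : Fin (n + 1))]
    · simp
    · intro j _ hj
      rw [if_neg]
      intro h
      exact hj (Fin.ext h)
    · simp
  have hmap : U.map (Int.castRingHom ℚ) = C (primorial (n + 1) : ℚ) * Polynomial.bernoulli n := by
    ext i
    rw [coeff_map, coeff_C_mul, coeff_bernoulli]
    split_ifs with hi
    · rw [hc i hi]
      have := hb1 ⟨n - i, by omega⟩
      simp only at this
      rw [← mul_assoc, this]
      simp
    · have : U.coeff i = 0 := by
        simp only [U, finsetSum_coeff, coeff_monomial]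
        refine Finset.sum_eq_zero fun j _ => ?_
        rw [if_neg]
        have := j.2
        omega
      rw [this]; simp
  have hP : 0 < primorial (n + 1) := primorial_pos _
  have hcn : U.coeff n = primorial (n + 1) := by
    have h1 : ((U.coeff n : ℤ) : ℚ) = primorial (n + 1) := by
      have : (U.map (Int.castRingHom ℚ)).coeff n = primorial (n + 1) := by
        rw [hmap, coeff_C_mul, coeff_bernoulli]
        simp
      rw [coeff_map] at this
      exact this
    exact_mod_cast h1
  have hdeg : U.natDegree = n := by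
    apply le_antisymm
    · rw [natDegree_le_iff_coeff_eq_zero]
      intro i hi
      simp only [U, finsetSum_coeff, coeff_monomial]
      refine Finset.sum_eq_zero fun j _ => ?_
      rw [if_neg]
      have := j.2
      omega
    · apply le_natDegree_of_ne_zero
      rw [hcn]
      exact_mod_cast hP.ne'
  refine ⟨U, hmap, hdeg, ?_, ?_⟩
  · unfold leadingCoeff; rw [hdeg, hcn]
  · intro p hp hp2 hpn i hi
    rw [hc i hi]
    push_cast
    rw [hb2 ⟨n - i, by omega⟩ p hp hp2 hpn]
    simp only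
    split_ifs <;> simp

end Pool.Agent.BernIrr
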