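import Mathlib
import Pool.Agent.BernIrr.Core1

/-!
The primitive integer polynomial `T` with `2 D B_n = x (x - 1) (2 x - 1) T`: existence and
reductions modulo primes.
-/

namespace Pool.Agent.BernIrr

open Polynomial Finset

/-- `T` is the primitive integer multiple of the reduced Bernoulli polynomial, `D` its leading
coefficient, `U = κ q3 T` is `B_n` times the product of the primes up to `n + 1`. -/
structure Data (n D κ : ℕ) (T U : ℤ[X]) : Prop where
  odd : Odd n
  ge : 5 ≤ n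
  hU : U.map (Int.castRingHom ℚ) = C (primorial (n + 1) : ℚ) * Polynomial.bernoulli n
  Udeg : U.natDegree = n
  Ucoeff : ∀ p, p.Prime → p ≠ 2 → p ≤ n + 1 → ∀ i, i ≤ n → (U.coeff i : ZMod p) =
      if (p - 1) ∣ (n - i) ∧ 0 < n - i then
        -((primorial (n + 1) / p : ℕ) : ZMod p) * (n.choose i : ZMod p) else 0
  hUT : U = C (κ : ℤ) * (q3 * T)
  hN : 2 * κ * D = primorial (n + 1)
  prim : T.IsPrimitive
  lc : T.leadingCoeff = D

theorem exists_data {n : ℕ} (hn : Odd n) (h5 : 5 ≤ n) : ∃ D κ T U, Data n D κ T U := by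
  obtain ⟨U, hU, hdeg, hlc, hco⟩ := exists_U n (by omega)
  have hP : 0 < primorial (n + 1) := primorial_pos _
  have hU0 : U ≠ 0 := by
    intro h
    rw [h, leadingCoeff_zero] at hlc
    have : (primorial (n + 1) : ℤ) = 0 := hlc.symm
    exact hP.ne' (by exact_mod_cast this)
  have hc0 : U.content ≠ 0 := fun h => hU0 (content_eq_zero_iff.1 h)
  have hdvd : q3 ∣ U.primPart := by
    refine (IsPrimitive.Int.dvd_iff_map_cast_dvd_map_cast q3 U.primPart q3_primitive).2 ?_
    have h1 := q3_dvd hn (by omega)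
    have h2 : U.map (Int.castRingHom ℚ) =
        C ((U.content : ℤ) : ℚ) * U.primPart.map (Int.castRingHom ℚ) := by
      conv_lhs => rw [eq_C_content_mul_primPart U]
      rw [Polynomial.map_mul, map_C]; rfl
    have hunit : IsUnit (C ((U.content : ℤ) : ℚ)) := isUnit_C.2 (by
      rw [isUnit_iff_ne_zero]; exact_mod_cast hc0)
    rw [← hunit.dvd_mul_left, ← h2, hU]
    exact h1.mul_left _
  obtain ⟨T, hT⟩ := hdvd
  have hTprim : T.IsPrimitive := isPrimitive_of_dvd (isPrimitive_primPart U) ⟨q3, by rw [hT]; ring⟩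
  have hUT : U = C U.content * (q3 * T) := by
    conv_lhs => rw [eq_C_content_mul_primPart U]
    rw [hT]
  have hcnn : 0 ≤ U.content := Int.nonneg_of_normalize_eq_self normalize_content
  have hl : U.leadingCoeff = U.content * (2 * T.leadingCoeff) := by
    conv_lhs => rw [hUT]
    rw [leadingCoeff_mul, leadingCoeff_mul, leadingCoeff_C, q3_leadingCoeff]
  have hPi : (0 : ℤ) < primorial (n + 1) := by exact_mod_cast hP
  have hcpos : 0 < U.content := lt_of_le_of_ne hcnn hc0.symm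
  have hTpos : 0 < T.leadingCoeff := by
    rw [hlc] at hl
    rw [hl] at hPi
    have := (pos_iff_pos_of_mul_pos hPi).1 hcpos
    linarith
  obtain ⟨κ, hκ⟩ := Int.eq_ofNat_of_zero_le hcnn
  obtain ⟨D, hD⟩ := Int.eq_ofNat_of_zero_le hTpos.le
  refine ⟨D, κ, T, U, hn, h5, hU, hdeg, hco, ?_, ?_, hTprim, hD⟩
  · rw [← hκ]; exact hUT
  · have : ((2 * κ * D : ℕ) : ℤ) = primorial (n + 1) := by
      rw [← hlc, hl, hκ, hD]; push_cast; ring
    exact_mod_cast this

namespace Data

variable {n D κ : ℕ} {T U : ℤ[X]}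

lemma Dpos (h : Data n D κ T U) : 0 < D := by
  have := h.hN
  have hP : 0 < primorial (n + 1) := primorial_pos _
  rw [← this] at hP
  exact Nat.pos_of_mul_pos_right hP |> fun _ => by
    rcases Nat.eq_zero_or_pos D with h0 | h0
    · rw [h0] at hP; simp at hP
    · exact h0

lemma kpos (h : Data n D κ T U) : 0 < κ := by
  have := h.hN
  have hP : 0 < primorial (n + 1) := primorial_pos _
  rw [← this] at hP
  rcases Nat.eq_zero_or_pos κ with h0 | h0
  · rw [h0] at hP; simp at hP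
  · exact h0

lemma sqf (h : Data n D κ T U) : Squarefree D :=
  (squarefree_primorial (n + 1)).squarefree_of_dvd ⟨2 * κ, by rw [← h.hN]; ring⟩

lemma Dodd (h : Data n D κ T U) : Odd D := by
  rw [← Nat.not_even_iff_odd]
  rintro hD
  obtain ⟨d, hd⟩ := hD.two_dvd
  have h4 : 2 * 2 ∣ primorial (n + 1) := ⟨κ * d, by rw [← h.hN, hd]; ring⟩
  have := (squarefree_primorial (n + 1)) 2 h4
  simp at this

lemma p_facts (h : Data n D κ T U) {p : ℕ} (hp : p.Prime) (hpD : p ∣ D) :
    p ≠ 2 ∧ p ≤ n ∧ ¬ p ∣ κ := by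
  have h2 : p ≠ 2 := by
    rintro rfl
    exact (Nat.not_even_iff_odd.2 h.Dodd) (even_iff_two_dvd.2 hpD)
  have hle : p ≤ n + 1 := by
    have : p ∣ primorial (n + 1) := hpD.trans ⟨2 * κ, by rw [← h.hN]; ring⟩
    exact (hp.dvd_primorial_iff).1 this
  have hne : p ≠ n + 1 := by
    rintro rfl
    obtain ⟨a, ha⟩ := h.odd
    obtain ⟨b, hb⟩ := hp.odd_of_ne_two h2
    omega
  refine ⟨h2, by omega, fun hk => ?_⟩
  obtain ⟨a, ha⟩ := hk
  obtain ⟨b, hb⟩ := hpD
  have h4 : p * p ∣ primorial (n + 1) := ⟨2 * a * b, by rw [← h.hN, ha, hb]; ring⟩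
  have := (squarefree_primorial (n + 1)) p h4
  exact hp.one_lt.ne' (by simpa using this)

lemma eq_rat (h : Data n D κ T U) : C (2 * (D : ℚ)) * Polynomial.bernoulli n =
    q3.map (Int.castRingHom ℚ) * T.map (Int.castRingHom ℚ) := by
  have h1 := h.hU
  rw [h.hUT, Polynomial.map_mul, Polynomial.map_mul, map_C, ← h.hN] at h1
  have hk : (C (κ : ℚ)) ≠ 0 := by
    rw [Ne, C_eq_zero]; exact_mod_cast h.kpos.ne'
  apply mul_left_cancel₀ hk
  have e1 : (Int.castRingHom ℚ) (κ : ℤ) = (κ : ℚ) := by simp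
  rw [e1] at h1
  rw [h1, ← mul_assoc, ← C_mul]
  congr 2
  push_cast; ring

lemma deg (h : Data n D κ T U) : T.natDegree = n - 3 := by
  have h1 := h.Udeg
  have hT0 : T ≠ 0 := h.prim.ne_zero
  have hq0 : q3 ≠ 0 := q3_primitive.ne_zero
  rw [h.hUT, natDegree_C_mul (by exact_mod_cast h.kpos.ne'), natDegree_mul hq0 hT0,
    q3_natDegree] at h1
  omega

lemma bern_two (h : Data n D κ T U) : (Polynomial.bernoulli n).eval 2 = n := by
  have h1 := bernoulli_eval_one_add n 1
  rw [bern_one h.odd (by have := h.ge; omega)] at h1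
  norm_num at h1
  exact h1

lemma bern_three_half (h : Data n D κ T U) :
    (Polynomial.bernoulli n).eval (3 / 2) = n * (1 / 2) ^ (n - 1) := by
  have h1 := bernoulli_eval_one_add n (1 / 2)
  rw [bern_half h.odd] at h1
  norm_num at h1
  exact h1

lemma val2 (h : Data n D κ T U) : 3 * T.eval 2 = D * n := by
  have h1 := congrArg (Polynomial.eval (2 : ℚ)) h.eq_rat
  rw [eval_mul, eval_mul, eval_C, h.bern_two] at h1
  have e1 : (q3.map (Int.castRingHom ℚ)).eval 2 = 6 := by
    unfold q3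
    simp
    norm_num
  have e2 : (T.map (Int.castRingHom ℚ)).eval 2 = ((T.eval 2 : ℤ) : ℚ) := by
    have := Polynomial.eval_intCast_map (Int.castRingHom ℚ) T 2
    simpa using this
  rw [e1, e2] at h1
  have : (3 : ℚ) * ((T.eval 2 : ℤ) : ℚ) = D * n := by linarith
  exact_mod_cast this

lemma val32 (h : Data n D κ T U) :
    3 * (2 ^ (n - 3) * (T.map (Int.castRingHom ℚ)).eval (3 / 2)) = D * n := by
  have h1 := congrArg (Polynomial.eval (3 / 2 : ℚ)) h.eq_rat
  rw [eval_mul, eval_mul, eval_C, h.bern_three_half] at h1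
  have e1 : (q3.map (Int.castRingHom ℚ)).eval (3 / 2) = 3 / 2 := by
    unfold q3
    simp
    norm_num
  rw [e1] at h1
  have hge := h.ge
  obtain ⟨m, rfl⟩ : ∃ m, n = m + 3 := ⟨n - 3, by omega⟩
  have e3 : m + 3 - 1 = m + 2 := by omega
  have e4 : m + 3 - 3 = m := by omega
  rw [e3] at h1
  rw [e4]
  have h2 : (2 : ℚ) ^ m * (1 / 2) ^ (m + 2) = 1 / 4 := by
    rw [pow_add, ← mul_assoc, ← mul_pow]; norm_num
  calc 3 * (2 ^ m * (T.map (Int.castRingHom ℚ)).eval (3 / 2))
      = 2 * 2 ^ m * (3 / 2 * (T.map (Int.castRingHom ℚ)).eval (3 / 2)) := by ring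
    _ = 2 * 2 ^ m * (2 * D * (((m + 3 : ℕ) : ℚ) * (1 / 2) ^ (m + 2))) := by rw [← h1]
    _ = 4 * (2 ^ m * (1 / 2) ^ (m + 2)) * (D * ((m + 3 : ℕ) : ℚ)) := by ring
    _ = D * ((m + 3 : ℕ) : ℚ) := by rw [h2]; ring

lemma symm (h : Data n D κ T U) : T.comp (1 - X) = T := by
  have hinj : Function.Injective (Polynomial.map (Int.castRingHom ℚ)) :=
    map_injective _ (RingHom.injective_int _)
  apply hinj
  have h1 := congrArg (fun f : ℚ[X] => f.comp (1 - X)) h.eq_rat
  simp only [mul_comp, C_comp, bernoulli_comp_one_sub_X, h.odd.neg_one_pow] at h1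
  have e1 : (q3.map (Int.castRingHom ℚ)).comp (1 - X) = - q3.map (Int.castRingHom ℚ) := by
    unfold q3
    simp
    ring
  rw [e1] at h1
  have h2 := h.eq_rat
  have hq0 : q3.map (Int.castRingHom ℚ) ≠ 0 := by
    rw [Ne, Polynomial.map_eq_zero_iff (RingHom.injective_int _)]
    exact q3_primitive.ne_zero
  rw [Polynomial.map_comp]
  have e2 : Polynomial.map (Int.castRingHom ℚ) (1 - X) = 1 - X := by simp
  rw [e2]
  apply mul_left_cancel₀ hq0
  rw [← h2]
  have : q3.map (Int.castRingHom ℚ) * (T.map (Int.castRingHom ℚ)).comp (1 - X) =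
      C (2 * (D : ℚ)) * Polynomial.bernoulli n := by
    linear_combination h1
  exact this

end Data

end Pool.Agent.BernIrr
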