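import Mathlib
import Pool.Agent.BernIrr.Core2

/-!
Reductions of `U` and `T` modulo the primes dividing `D`.
-/

namespace Pool.Agent.BernIrr

open Polynomial Finset

/-- reduction modulo `p` -/
noncomputable abbrev red (p : ℕ) (f : ℤ[X]) : (ZMod p)[X] := f.map (Int.castRingHom (ZMod p))

lemma coeff_red (p : ℕ) (f : ℤ[X]) (i : ℕ) : (red p f).coeff i = (f.coeff i : ZMod p) := by
  simp [red, coeff_map]

namespace Data

variable {n D κ : ℕ} {T U : ℤ[X]}

lemma U_comp (h : Data n D κ T U) :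
    U.comp (1 + X) = U + C ((primorial (n + 1) : ℤ) * n) * X ^ (n - 1) := by
  have hinj : Function.Injective (Polynomial.map (Int.castRingHom ℚ)) :=
    map_injective _ (RingHom.injective_int _)
  apply hinj
  simp only [Polynomial.map_comp, Polynomial.map_add, Polynomial.map_one, map_X,
    Polynomial.map_mul, map_C, Polynomial.map_pow]
  rw [h.hU, mul_comp, C_comp, bernoulli_comp_one_add_X]
  rw [mul_add]
  congr 1
  rw [nsmul_eq_mul, ← mul_assoc, eq_intCast]
  push_cast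
  rw [C_mul]
  rfl

lemma red_comp (h : Data n D κ T U) {p : ℕ} (hp : p.Prime) (hpn : p ≤ n + 1) :
    (red p U).comp (1 + X) = red p U := by
  have h1 := congrArg (red p) h.U_comp
  simp only [red, Polynomial.map_comp, Polynomial.map_add, Polynomial.map_one, map_X,
    Polynomial.map_mul, map_C, Polynomial.map_pow] at h1
  have h2 : (Int.castRingHom (ZMod p)) ((primorial (n + 1) : ℤ) * n) = 0 := by
    rw [eq_intCast]
    push_cast
    rw [(ZMod.natCast_eq_zero_iff _ _).2 (dvd_primorial hp hpn), zero_mul]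
  rw [h2] at h1
  simpa using h1

lemma red_comp_nat (h : Data n D κ T U) {p : ℕ} (hp : p.Prime) (hpn : p ≤ n + 1) (k : ℕ) :
    (red p U).comp (C (k : ZMod p) + X) = red p U := by
  induction k with
  | zero => simp
  | succ k ih =>
    have h1 : (C ((k + 1 : ℕ) : ZMod p) + X : (ZMod p)[X]) = (C (k : ZMod p) + X).comp (1 + X) := by
      simp
      ring
    rw [h1, ← comp_assoc, ih, h.red_comp hp hpn]

lemma X_pow_dvd (h : Data n D κ T U) {p : ℕ} (hp : p.Prime) (hp2 : p ≠ 2) (hpn : p ≤ n + 1) :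
    X ^ (n % (p - 1)) ∣ red p U := by
  rw [X_pow_dvd_iff]
  intro i hi
  have hp3 : 2 ≤ p - 1 := by
    have := hp.two_le
    omega
  have hlt : n % (p - 1) < p - 1 := Nat.mod_lt _ (by omega)
  have hin : i ≤ n := hi.le.trans (Nat.mod_le _ _)
  rw [coeff_red, h.Ucoeff p hp hp2 hpn i hin, if_neg]
  rintro ⟨hd, h0⟩
  have h1 : n ≡ i [MOD (p - 1)] := ((Nat.modEq_iff_dvd' hin).2 hd).symm
  unfold Nat.ModEq at h1
  rw [Nat.mod_eq_of_lt (by omega : i < p - 1)] at h1
  omega

lemma sub_pow_dvd_U (h : Data n D κ T U) {p : ℕ} (hp : p.Prime) (hp2 : p ≠ 2) (hpn : p ≤ n + 1)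
    (a : ZMod p) : (X - C a) ^ (n % (p - 1)) ∣ red p U := by
  have := Fact.mk hp
  obtain ⟨g, hg⟩ := h.X_pow_dvd hp hp2 hpn
  have h1 := h.red_comp_nat hp hpn (-a).val
  rw [ZMod.natCast_val, ZMod.cast_id', id] at h1
  rw [← h1, hg, mul_comp, pow_comp, X_comp]
  refine dvd_trans (pow_dvd_pow_of_dvd ?_ _) (dvd_mul_right _ _)
  rw [map_neg]
  exact ⟨1, by ring⟩

lemma kappa_unit (h : Data n D κ T U) {p : ℕ} (hp : p.Prime) (hpD : p ∣ D) :
    (κ : ZMod p) ≠ 0 := by
  rw [Ne, ZMod.natCast_eq_zero_iff]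
  exact (h.p_facts hp hpD).2.2

lemma red_U (h : Data n D κ T U) (p : ℕ) : red p U = C (κ : ZMod p) * red p (q3 * T) := by
  conv_lhs => rw [h.hUT]
  simp [red]

lemma sub_pow_dvd (h : Data n D κ T U) {p : ℕ} (hp : p.Prime) (hpD : p ∣ D) (a : ZMod p) :
    (X - C a) ^ (n % (p - 1)) ∣ red p q3 * red p T := by
  have := Fact.mk hp
  obtain ⟨hp2, hpn, _⟩ := h.p_facts hp hpD
  have h1 := h.sub_pow_dvd_U hp hp2 (by omega) a
  rw [h.red_U, (isUnit_C.2 (isUnit_iff_ne_zero.2 (h.kappa_unit hp hpD))).dvd_mul_left] at h1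
  simpa [red] using h1

lemma red_T_ne_zero (h : Data n D κ T U) {p : ℕ} (hp : p.Prime) : red p T ≠ 0 := by
  intro h0
  have h1 : C (p : ℤ) ∣ T := by
    rw [C_dvd_iff_dvd_coeff]
    intro i
    have := congrArg (fun f => coeff f i) h0
    simp only [coeff_red, coeff_zero] at this
    exact (ZMod.intCast_zmod_eq_zero_iff_dvd _ _).1 this
  have h2 := (isPrimitive_iff_isUnit_of_C_dvd.1 h.prim) _ h1
  rw [Int.isUnit_iff] at h2
  have := hp.two_le
  omega

lemma red_q3_deg {p : ℕ} (hp : p.Prime) (hp2 : p ≠ 2) : (red p q3).natDegree = 3 := by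
  have := Fact.mk hp
  have h2 : (2 : ZMod p) ≠ 0 := by
    intro h
    have : ((2 : ℕ) : ZMod p) = 0 := by exact_mod_cast h
    rw [ZMod.natCast_eq_zero_iff] at this
    have := (Nat.prime_dvd_prime_iff_eq hp Nat.prime_two).1 this
    exact hp2 this
  rw [red, natDegree_map_of_leadingCoeff_ne_zero, q3_natDegree]
  rw [q3_leadingCoeff]
  simpa using h2

/-- degree of the reduction of `T` -/
lemma red_T_deg (h : Data n D κ T U) {p : ℕ} (hp : p.Prime) (hpD : p ∣ D) (B : ℕ)
    (hB : ∀ k, 0 < k → k ≤ n → (p - 1) ∣ k → ¬ p ∣ n.choose k → n - k ≤ B) :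
    (red p T).natDegree + 3 ≤ B := by
  have := Fact.mk hp
  obtain ⟨hp2, hpn, _⟩ := h.p_facts hp hpD
  have h1 : (red p U).natDegree ≤ B := by
    rw [natDegree_le_iff_coeff_eq_zero]
    intro i hi
    rw [coeff_red]
    rcases lt_or_ge n i with hin | hin
    · rw [coeff_eq_zero_of_natDegree_lt (by rw [h.Udeg]; exact hin)]
      simp
    · rw [h.Ucoeff p hp hp2 (by omega) i hin]
      split_ifs with hc
      · have h2 : p ∣ n.choose i := by
          by_contra hnd
          have := hB (n - i) hc.2 (by omega) hc.1 (by rwa [Nat.choose_symm hin])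
          omega
        rw [(ZMod.natCast_eq_zero_iff _ _).2 h2, mul_zero]
      · rfl
  rw [h.red_U, natDegree_C_mul (h.kappa_unit hp hpD)] at h1
  have h3 : red p (q3 * T) = red p q3 * red p T := by simp [red]
  have hq : red p q3 ≠ 0 := by
    intro h0
    have := red_q3_deg hp hp2
    rw [h0] at this
    simp at this
  rw [h3, natDegree_mul hq (h.red_T_ne_zero hp), red_q3_deg hp hp2] at h1
  omega

lemma red_T_deg' (h : Data n D κ T U) {p : ℕ} (hp : p.Prime) (hpD : p ∣ D) :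
    (red p T).natDegree + 3 + (p - 1) ≤ n := by
  obtain ⟨hp2, hpn, _⟩ := h.p_facts hp hpD
  have h1 := h.red_T_deg hp hpD (n - (p - 1)) (fun k hk0 hkn hd _ => by
    have := Nat.le_of_dvd hk0 hd
    omega)
  have := hp.two_le
  omega

lemma dvd_D (h : Data n D κ T U) {p k : ℕ} (hp : p.Prime) (hp2 : p ≠ 2) (hk0 : 0 < k)
    (hkn : k ≤ n) (hd : (p - 1) ∣ k) (hc : ¬ p ∣ n.choose k) : p ∣ D := by
  have := Fact.mk hp
  have hpn : p ≤ n + 1 := by
    have := Nat.le_of_dvd hk0 hd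
    omega
  have h1 := h.Ucoeff p hp hp2 hpn (n - k) (by omega)
  rw [show n - (n - k) = k by omega, if_pos ⟨hd, hk0⟩, Nat.choose_symm hkn] at h1
  have h2 : ((primorial (n + 1) / p : ℕ) : ZMod p) ≠ 0 := by
    rw [Ne, ZMod.natCast_eq_zero_iff]
    rintro ⟨c, hc'⟩
    have h3 : p ∣ primorial (n + 1) := dvd_primorial hp hpn
    have h4 : p * p ∣ primorial (n + 1) := by
      refine ⟨c, ?_⟩
      rw [← Nat.div_mul_cancel h3, hc']; ring
    have := (squarefree_primorial (n + 1)) p h4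
    exact hp.one_lt.ne' (by simpa using this)
  have h3 : (n.choose k : ZMod p) ≠ 0 := by
    rwa [Ne, ZMod.natCast_eq_zero_iff]
  have h4 : (U.coeff (n - k) : ZMod p) ≠ 0 := by
    rw [h1]
    exact mul_ne_zero (neg_ne_zero.2 h2) h3
  have h5 : ¬ p ∣ κ := by
    intro hk
    apply h4
    rw [← coeff_red, h.red_U, (ZMod.natCast_eq_zero_iff _ _).2 hk]
    simp
  have h6 : p ∣ 2 * κ * D := by rw [h.hN]; exact dvd_primorial hp hpn
  rcases hp.dvd_mul.1 h6 with h7 | h7
  · rcases hp.dvd_mul.1 h7 with h8 | h8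
    · exact absurd ((Nat.prime_dvd_prime_iff_eq hp Nat.prime_two).1 h8) hp2
    · exact absurd h8 h5
  · exact h7

end Data

end Pool.Agent.BernIrr
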