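import Mathlib
import Pool.Agent.BernIrr.Core3

/-!
Factors of `T`: leading coefficients, degrees, values.
-/

namespace Pool.Agent.BernIrr

open Polynomial Finset

namespace Data

variable {n D κ : ℕ} {T U G H : ℤ[X]}

lemma lc_mul (h : Data n D κ T U) (hT : T = G * H) :
    G.leadingCoeff.natAbs * H.leadingCoeff.natAbs = D := by
  have h1 := h.lc
  rw [hT, leadingCoeff_mul] at h1
  rw [← Int.natAbs_mul, h1]
  simp

lemma G_ne (h : Data n D κ T U) (hT : T = G * H) : G ≠ 0 := by
  rintro rfl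
  exact h.prim.ne_zero (by rw [hT, zero_mul])

lemma H_ne (h : Data n D κ T U) (hT : T = G * H) : H ≠ 0 := by
  rintro rfl
  exact h.prim.ne_zero (by rw [hT, mul_zero])

lemma deg_add (h : Data n D κ T U) (hT : T = G * H) : G.natDegree + H.natDegree = n - 3 := by
  rw [← h.deg, hT, natDegree_mul (h.G_ne hT) (h.H_ne hT)]

lemma red_deg_of_not_dvd {p : ℕ} (hp : ¬ p ∣ H.leadingCoeff.natAbs) :
    (red p H).natDegree = H.natDegree := by
  rw [red, natDegree_map_of_leadingCoeff_ne_zero]
  intro h0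
  apply hp
  rw [eq_intCast, ZMod.intCast_zmod_eq_zero_iff_dvd] at h0
  exact Int.natCast_dvd.1 h0

lemma red_deg_add (h : Data n D κ T U) (hT : T = G * H) {p : ℕ} (hp : p.Prime) :
    (red p G).natDegree + (red p H).natDegree = (red p T).natDegree := by
  have := Fact.mk hp
  have h1 : red p T = red p G * red p H := by rw [hT]; simp [red]
  have h2 := h.red_T_ne_zero hp
  rw [h1] at h2 ⊢
  rw [natDegree_mul (left_ne_zero_of_mul h2) (right_ne_zero_of_mul h2)]

/-- a prime dividing the leading coefficient of a factor is small -/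
lemma le_of_dvd_lc (h : Data n D κ T U) (hT : T = G * H) {p : ℕ} (hp : p.Prime)
    (hpa : p ∣ G.leadingCoeff.natAbs) : p ≤ G.natDegree + 1 := by
  have hD := h.lc_mul hT
  have hpD : p ∣ D := by rw [← hD]; exact hpa.mul_right _
  have hpb : ¬ p ∣ H.leadingCoeff.natAbs := by
    intro hpb
    have h4 : p * p ∣ D := by rw [← hD]; exact mul_dvd_mul hpa hpb
    have := h.sqf p h4
    exact hp.one_lt.ne' (by simpa using this)
  have h1 := h.red_deg_add hT hp
  rw [red_deg_of_not_dvd hpb] at h1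
  have h2 := h.red_T_deg' hp hpD
  have h3 := h.deg_add hT
  have := h.ge
  have := hp.two_le
  omega

lemma lc_le (h : Data n D κ T U) (hT : T = G * H) :
    |(G.leadingCoeff : ℝ)| ≤ 4 ^ (G.natDegree + 1) := by
  have hD := h.lc_mul hT
  set a := G.leadingCoeff.natAbs with ha
  have ha0 : a ≠ 0 := by
    intro h0
    have := h.Dpos
    rw [← hD, h0] at this
    simp at this
  have hsq : Squarefree a := h.sqf.squarefree_of_dvd ⟨_, hD.symm⟩
  have h1 : a ∣ primorial (G.natDegree + 1) := by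
    rw [← Nat.prod_primeFactors_of_squarefree hsq]
    unfold primorial
    apply Finset.prod_dvd_prod_of_subset
    intro p hp
    rw [Nat.mem_primeFactors] at hp
    have := h.le_of_dvd_lc hT hp.1 hp.2.1
    simp only [mem_filter, mem_range]
    exact ⟨by omega, hp.1⟩
  have h2 : a ≤ 4 ^ (G.natDegree + 1) :=
    (Nat.le_of_dvd (primorial_pos _) h1).trans (primorial_le_four_pow _)
  have h3 : |(G.leadingCoeff : ℝ)| = (a : ℝ) := by
    rw [ha, Nat.cast_natAbs]; push_cast; rfl
  rw [h3]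
  exact_mod_cast h2

/-- one of the factors has small degree -/
lemma deg_le_or (h : Data n D κ T U) (hT : T = G * H) {p : ℕ} (hp : p.Prime) (hpD : p ∣ D) {B : ℕ}
    (hB : ∀ k, 0 < k → k ≤ n → (p - 1) ∣ k → ¬ p ∣ n.choose k → n - k ≤ B) :
    G.natDegree ≤ B ∨ H.natDegree ≤ B := by
  have h1 := h.red_T_deg hp hpD B hB
  have h2 := h.red_deg_add hT hp
  have hD := h.lc_mul hT
  by_cases hpa : p ∣ G.leadingCoeff.natAbs
  · right
    have hpb : ¬ p ∣ H.leadingCoeff.natAbs := by
      intro hpb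
      have h4 : p * p ∣ D := by rw [← hD]; exact mul_dvd_mul hpa hpb
      have := h.sqf p h4
      exact hp.one_lt.ne' (by simpa using this)
    rw [red_deg_of_not_dvd hpb] at h2
    omega
  · left
    rw [red_deg_of_not_dvd hpa] at h2
    omega

lemma pow_dvd_G (h : Data n D κ T U) (hT : T = G * H) {p : ℕ} (hp : p.Prime) (hpD : p ∣ D)
    {a : ZMod p} (hq : (red p q3).eval a ≠ 0) (hH : (red p H).eval a ≠ 0) :
    (X - C a) ^ (n % (p - 1)) ∣ red p G := by
  have := Fact.mk hp
  have h1 := h.sub_pow_dvd hp hpD a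
  have h2 : red p T = red p G * red p H := by rw [hT]; simp [red]
  rw [h2] at h1
  have hirr : Irreducible (X - C a) := irreducible_X_sub_C a
  have c1 : IsCoprime ((X - C a) ^ (n % (p - 1))) (red p q3) :=
    IsCoprime.pow_left ((hirr.coprime_iff_not_dvd).2 (fun hd => hq (dvd_iff_isRoot.1 hd)))
  have c2 : IsCoprime ((X - C a) ^ (n % (p - 1))) (red p H) :=
    IsCoprime.pow_left ((hirr.coprime_iff_not_dvd).2 (fun hd => hH (dvd_iff_isRoot.1 hd)))
  exact c2.dvd_of_dvd_mul_right (c1.dvd_of_dvd_mul_left h1)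

end Data

/-- `2 ^ deg f * f (3 / 2)` as an integer -/
noncomputable def ev32 (f : ℤ[X]) : ℤ := (f.scaleRoots 2).eval 3

lemma ev32_mul (f g : ℤ[X]) : ev32 (f * g) = ev32 f * ev32 g := by
  unfold ev32
  rw [mul_scaleRoots_of_noZeroDivisors, eval_mul]

lemma ev32_cast {K : Type*} [Field K] (h2 : (2 : K) ≠ 0) (f : ℤ[X]) :
    (ev32 f : K) = 2 ^ f.natDegree * (f.map (Int.castRingHom K)).eval (3 / 2) := by
  unfold ev32
  have h := scaleRoots_eval₂_mul (p := f) (Int.castRingHom K) (3 / 2 : K) (2 : ℤ)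
  have e0 : (Int.castRingHom K) 2 = (2 : K) := by simp
  rw [e0, show (2 : K) * (3 / 2) = 3 by field_simp] at h
  rw [eval_map, ← h]
  have e3 : eval₂ (Int.castRingHom K) ((Int.castRingHom K) 3) (f.scaleRoots 2) =
      (Int.castRingHom K) ((f.scaleRoots 2).eval 3) := Polynomial.eval₂_at_apply _ _
  have e4 : (Int.castRingHom K) 3 = (3 : K) := by simp
  rw [e4] at e3
  rw [e3]
  simp

lemma Data.ev32_T {n D κ : ℕ} {T U : ℤ[X]} (h : Data n D κ T U) : 3 * ev32 T = D * n := by
  have h1 := h.val32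
  have h2 := ev32_cast (K := ℚ) (by norm_num) T
  rw [h.deg] at h2
  rw [← h2] at h1
  exact_mod_cast h1

end Pool.Agent.BernIrr
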