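import Mathlib
import Pool.Agent.BernIrr.Core4

/-!
Upper bound for the values `G(2)`, `2 ^ d G(3/2)` of a symmetric factor.
-/

namespace Pool.Agent.BernIrr

open Polynomial Finset

/-- arithmetic of the values -/
lemma val_bound {a b n : ℕ} {g e : ℤ} (hb : Squarefree b) (ha : 0 < a) (hn : 0 < n)
    (h : 3 * (g.natAbs * e.natAbs) = a * b * n) :
    g.natAbs ≤ a * n * ∏ p ∈ b.primeFactors.filter (fun p => ¬ p ∣ e.natAbs), p := by
  have hb0 : 0 < b := hb.ne_zero.bot_lt
  set E := e.natAbs with hE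
  have hE0 : 0 < E := by
    rcases Nat.eq_zero_or_pos E with h0 | h0
    · rw [h0, mul_zero, mul_zero] at h
      have : 0 < a * b * n := by positivity
      omega
    · exact h0
  set b0 := ∏ p ∈ b.primeFactors.filter (fun p => p ∣ E), p with hb0'
  set b1 := ∏ p ∈ b.primeFactors.filter (fun p => ¬ p ∣ E), p with hb1'
  have hbb : b0 * b1 = b := by
    rw [hb0', hb1', Finset.prod_filter_mul_prod_filter_not]
    exact Nat.prod_primeFactors_of_squarefree hb
  have hd : b0 ∣ E := by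
    apply Finset.prod_primes_dvd
    · intro p hp
      simp only [mem_filter, Nat.mem_primeFactors] at hp
      exact hp.1.1.prime
    · intro p hp
      simp only [mem_filter] at hp
      exact hp.2
  obtain ⟨y, hy⟩ := hd
  have hb00 : 0 < b0 := by
    rcases Nat.eq_zero_or_pos b0 with h0 | h0
    · rw [h0, zero_mul] at hbb; omega
    · exact h0
  have hy0 : 0 < y := by
    rcases Nat.eq_zero_or_pos y with h0 | h0
    · rw [h0, mul_zero] at hy; omega
    · exact h0
  rw [hy, ← hbb] at h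
  have h1 : 3 * (g.natAbs * y) = a * n * b1 := by
    apply Nat.eq_of_mul_eq_mul_left hb00
    linarith [h, (by ring : b0 * (3 * (g.natAbs * y)) = 3 * (g.natAbs * (b0 * y))),
      (by ring : b0 * (a * n * b1) = a * (b0 * b1) * n)]
  calc g.natAbs ≤ g.natAbs * y := Nat.le_mul_of_pos_right _ hy0
    _ ≤ 3 * (g.natAbs * y) := by omega
    _ = _ := h1

namespace Data

variable {n D κ : ℕ} {T U G H : ℤ[X]}

lemma lc_pos (h : Data n D κ T U) (hT : T = G * H) : 0 < G.leadingCoeff.natAbs := by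
  have h1 := h.lc_mul hT
  have h2 := h.Dpos
  rcases Nat.eq_zero_or_pos G.leadingCoeff.natAbs with h0 | h0
  · rw [h0, zero_mul] at h1; omega
  · exact h0

lemma lc_sqf (h : Data n D κ T U) (hT : T = G * H) : Squarefree H.leadingCoeff.natAbs := by
  have h1 := h.lc_mul hT
  exact h.sqf.squarefree_of_dvd ⟨_, by rw [← h1]; ring⟩

lemma G2_le (h : Data n D κ T U) (hT : T = G * H) :
    (G.eval 2).natAbs ≤ G.leadingCoeff.natAbs * n *
      ∏ p ∈ H.leadingCoeff.natAbs.primeFactors.filter (fun p => ¬ p ∣ (H.eval 2).natAbs), p := by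
  apply val_bound (h.lc_sqf hT) (h.lc_pos hT) (by have := h.ge; omega)
  have h1 := h.val2
  rw [hT, eval_mul] at h1
  rw [h.lc_mul hT, ← Int.natAbs_mul]
  zify
  rw [← abs_of_nonneg (show (0 : ℤ) ≤ (D : ℤ) * n by positivity), ← h1, abs_mul]
  simp

lemma G32_le (h : Data n D κ T U) (hT : T = G * H) :
    (ev32 G).natAbs ≤ G.leadingCoeff.natAbs * n *
      ∏ p ∈ H.leadingCoeff.natAbs.primeFactors.filter (fun p => ¬ p ∣ (ev32 H).natAbs), p := by
  apply val_bound (h.lc_sqf hT) (h.lc_pos hT) (by have := h.ge; omega)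
  have h1 := h.ev32_T
  rw [hT, ev32_mul] at h1
  rw [h.lc_mul hT, ← Int.natAbs_mul]
  zify
  rw [← abs_of_nonneg (show (0 : ℤ) ≤ (D : ℤ) * n by positivity), ← h1, abs_mul]
  simp

end Data

/-- for a polynomial symmetric up to sign, multiplicity at `a` and at `1 - a` agree -/
lemma symm_dvd {p : ℕ} {G : ℤ[X]} (hs : G.comp (1 - X) = G ∨ G.comp (1 - X) = -G) {a : ZMod p}
    {c : ℕ} (h : (X - C a) ^ c ∣ red p G) : (X - C (1 - a)) ^ c ∣ red p G := by
  obtain ⟨g, hg⟩ := h
  have h1 : (red p G).comp (1 - X) = red p (G.comp (1 - X)) := by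
    simp [red, Polynomial.map_comp]
  have h2 : (X - C (1 - a)) ^ c ∣ (red p G).comp (1 - X) := by
    rw [hg, mul_comp, pow_comp]
    refine dvd_trans ?_ (dvd_mul_right _ _)
    have : (X - C a).comp (1 - X) = -(X - C (1 - a)) := by
      simp
      ring
    rw [this, neg_pow]
    exact dvd_mul_left _ _
  rw [h1] at h2
  rcases hs with hs | hs
  · rwa [hs] at h2
  · rw [hs] at h2
    simpa [red] using h2

lemma two_pow_dvd_deg {p : ℕ} (hp : p.Prime) {f : (ZMod p)[X]} (hf : f ≠ 0) {a b : ZMod p}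
    (hab : a ≠ b) {c : ℕ} (h1 : (X - C a) ^ c ∣ f) (h2 : (X - C b) ^ c ∣ f) :
    2 * c ≤ f.natDegree := by
  have := Fact.mk hp
  have hc : IsCoprime ((X - C a) ^ c) ((X - C b) ^ c) :=
    IsCoprime.pow (isCoprime_X_sub_C_of_isUnit_sub (sub_ne_zero.2 hab).isUnit)
  have h3 := natDegree_le_of_dvd (hc.mul_dvd h1 h2) hf
  rw [natDegree_mul (pow_ne_zero _ (X_sub_C_ne_zero a)) (pow_ne_zero _ (X_sub_C_ne_zero b)),
    natDegree_pow, natDegree_pow, natDegree_X_sub_C, natDegree_X_sub_C] at h3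
  omega

lemma four_pow_dvd_deg {p : ℕ} (hp : p.Prime) {f : (ZMod p)[X]} (hf : f ≠ 0) {a b r s : ZMod p}
    (hab : a ≠ b) (har : a ≠ r) (has : a ≠ s) (hbr : b ≠ r) (hbs : b ≠ s) (hrs : r ≠ s)
    {c : ℕ} (h1 : (X - C a) ^ c ∣ f) (h2 : (X - C b) ^ c ∣ f) (h3 : (X - C r) ^ c ∣ f)
    (h4 : (X - C s) ^ c ∣ f) :
    4 * c ≤ f.natDegree := by
  have := Fact.mk hp
  have hc : ∀ a b : ZMod p, a ≠ b → IsCoprime ((X - C a) ^ c) ((X - C b) ^ c) := fun a b hab =>
    IsCoprime.pow (isCoprime_X_sub_C_of_isUnit_sub (sub_ne_zero.2 hab).isUnit)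
  have e1 := (hc a b hab).mul_dvd h1 h2
  have e2 := (hc r s hrs).mul_dvd h3 h4
  have e3 := ((hc a r har).mul_left (hc b r hbr)).mul_right ((hc a s has).mul_left (hc b s hbs))
  have h5 := natDegree_le_of_dvd (e3.mul_dvd e1 e2) hf
  have n0 : ∀ a : ZMod p, (X - C a) ^ c ≠ 0 := fun a => pow_ne_zero _ (X_sub_C_ne_zero a)
  rw [natDegree_mul (mul_ne_zero (n0 _) (n0 _)) (mul_ne_zero (n0 _) (n0 _)),
    natDegree_mul (n0 _) (n0 _), natDegree_mul (n0 _) (n0 _)] at h5
  simp only [natDegree_pow, natDegree_X_sub_C] at h5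
  omega

lemma zmod_ne {p : ℕ} (hp : p.Prime) (h7 : 7 ≤ p) (m : ℕ) (hm : m = 1 ∨ m = 2 ∨ m = 3 ∨ m = 5 ∨ m = 6) :
    ((m : ℕ) : ZMod p) ≠ 0 := by
  rw [Ne, ZMod.natCast_eq_zero_iff]
  intro h
  have := Nat.le_of_dvd (by omega) h
  omega

namespace Data

variable {n D κ : ℕ} {T U G H : ℤ[X]}

lemma red_G_ne (h : Data n D κ T U) (hT : T = G * H) {p : ℕ} (hp : p.Prime) : red p G ≠ 0 := by
  intro h0
  apply h.red_T_ne_zero hp
  rw [hT]
  simp only [red, Polynomial.map_mul] at h0 ⊢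
  rw [h0, zero_mul]

lemma dvd2 (h : Data n D κ T U) (hT : T = G * H)
    {p : ℕ} (hp : p.Prime) (h7 : 7 ≤ p) (hpD : p ∣ D)
    (hH : ¬ p ∣ (H.eval 2).natAbs) : (X - C (2 : ZMod p)) ^ (n % (p - 1)) ∣ red p G := by
  have := Fact.mk hp
  apply h.pow_dvd_G hT hp hpD
  · have e : (red p q3).eval 2 = ((6 : ℕ) : ZMod p) := by
      simp only [red, q3, Polynomial.map_mul, Polynomial.map_sub, Polynomial.map_X,
        Polynomial.map_one, Polynomial.map_ofNat, eval_mul, eval_sub, eval_X, eval_one,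
        eval_ofNat]
      push_cast
      ring
    rw [e]
    exact zmod_ne hp h7 6 (by omega)
  · have e : (red p H).eval 2 = ((H.eval 2 : ℤ) : ZMod p) := by
      have := Polynomial.eval_intCast_map (Int.castRingHom (ZMod p)) H 2
      simpa using this
    rw [e, Ne, ZMod.intCast_zmod_eq_zero_iff_dvd]
    intro hd
    exact hH (Int.natCast_dvd.1 hd)

lemma dvd32 (h : Data n D κ T U) (hT : T = G * H)
    {p : ℕ} (hp : p.Prime) (h7 : 7 ≤ p) (hpD : p ∣ D)
    (hH : ¬ p ∣ (ev32 H).natAbs) {t : ZMod p} (ht : 2 * t = 3) :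
    (X - C t) ^ (n % (p - 1)) ∣ red p G := by
  have := Fact.mk hp
  have h2 : (2 : ZMod p) ≠ 0 := by
    have := zmod_ne hp h7 2 (by omega)
    simpa using this
  have h3 : (3 : ZMod p) ≠ 0 := by
    have := zmod_ne hp h7 3 (by omega)
    simpa using this
  have ht0 : t ≠ 0 := by
    rintro rfl
    rw [mul_zero] at ht
    exact h3 ht.symm
  have ht' : (3 / 2 : ZMod p) = t := by
    rw [div_eq_iff h2, ← ht]; ring
  apply h.pow_dvd_G hT hp hpD
  · have e : (red p q3).eval t = t := by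
      simp only [red, q3, Polynomial.map_mul, Polynomial.map_sub, Polynomial.map_X,
        Polynomial.map_one, Polynomial.map_ofNat, eval_mul, eval_sub, eval_X, eval_one,
        eval_ofNat]
      linear_combination (t * (t - 1) + t) * ht
    rw [e]
    exact ht0
  · intro h0
    have e := ev32_cast (K := ZMod p) h2 H
    rw [ht'] at e
    have h0' : (H.map (Int.castRingHom (ZMod p))).eval t = 0 := h0
    rw [h0', mul_zero, ZMod.intCast_zmod_eq_zero_iff_dvd] at e
    exact hH (Int.natCast_dvd.1 e)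

/-- one condition: `2 c ≤ d` -/
lemma two_c_le (h : Data n D κ T U) (hT : T = G * H)
    (hs : G.comp (1 - X) = G ∨ G.comp (1 - X) = -G)
    {p : ℕ} (hp : p.Prime) (h7 : 7 ≤ p) (hpD : p ∣ D)
    (hH : ¬ p ∣ (H.eval 2).natAbs ∨ ¬ p ∣ (ev32 H).natAbs) : 2 * (n % (p - 1)) ≤ G.natDegree := by
  have := Fact.mk hp
  have h2 : (2 : ZMod p) ≠ 0 := by
    have := zmod_ne hp h7 2 (by omega)
    simpa using this
  have h3 : (3 : ZMod p) ≠ 0 := by
    have := zmod_ne hp h7 3 (by omega)
    simpa using this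
  refine le_trans ?_ (natDegree_map_le (f := Int.castRingHom (ZMod p)) (p := G))
  rcases hH with hH | hH
  · have h1 := h.dvd2 hT hp h7 hpD hH
    refine two_pow_dvd_deg hp (h.red_G_ne hT hp) ?_ h1 (symm_dvd hs h1)
    intro e
    apply h3
    linear_combination e
  · obtain ⟨t, ht⟩ : ∃ t : ZMod p, 2 * t = 3 := ⟨3 / 2, by field_simp⟩
    have h1 := h.dvd32 hT hp h7 hpD hH ht
    refine two_pow_dvd_deg hp (h.red_G_ne hT hp) ?_ h1 (symm_dvd hs h1)
    intro e
    apply h2
    linear_combination e - ht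

lemma four_c_le (h : Data n D κ T U) (hT : T = G * H)
    (hs : G.comp (1 - X) = G ∨ G.comp (1 - X) = -G)
    {p : ℕ} (hp : p.Prime) (h7 : 7 ≤ p) (hpD : p ∣ D)
    (hH1 : ¬ p ∣ (H.eval 2).natAbs) (hH2 : ¬ p ∣ (ev32 H).natAbs) :
    4 * (n % (p - 1)) ≤ G.natDegree := by
  have := Fact.mk hp
  have h2 : (2 : ZMod p) ≠ 0 := by
    have := zmod_ne hp h7 2 (by omega)
    simpa using this
  have h5 : (5 : ZMod p) ≠ 0 := by
    have := zmod_ne hp h7 5 (by omega)
    simpa using this
  have h3 : (3 : ZMod p) ≠ 0 := by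
    have := zmod_ne hp h7 3 (by omega)
    simpa using this
  have h1 : (1 : ZMod p) ≠ 0 := one_ne_zero
  obtain ⟨t, ht⟩ : ∃ t : ZMod p, 2 * t = 3 := ⟨3 / 2, by field_simp⟩
  refine le_trans ?_ (natDegree_map_le (f := Int.castRingHom (ZMod p)) (p := G))
  have h1' := h.dvd2 hT hp h7 hpD hH1
  have h1'' := h.dvd32 hT hp h7 hpD hH2 ht
  refine four_pow_dvd_deg hp (h.red_G_ne hT hp) ?_ ?_ ?_ ?_ ?_ ?_ h1' (symm_dvd hs h1') h1''
    (symm_dvd hs h1'')
  · intro e
    apply h3
    linear_combination e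
  · intro e
    apply h1
    linear_combination 2 * e + ht
  · intro e
    apply h5
    linear_combination 2 * e - ht
  · intro e
    apply h5
    linear_combination -2 * e - ht
  · intro e
    apply h1
    linear_combination -2 * e + ht
  · intro e
    apply h2
    linear_combination e - ht

end Data

/-- the odd primes up to `n` with `n % (p - 1) ≤ E` -/
noncomputable def PS (n E : ℕ) : Finset ℕ :=
  (range (n + 1)).filter (fun p => p.Prime ∧ p ≠ 2 ∧ n % (p - 1) ≤ E)

lemma PS_sum_le {n : ℕ} (hn : Odd n) (E : ℕ) :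
    ∑ p ∈ PS n E, Real.log p ≤ ∑ j ∈ range ((E + 1) / 2), Zf (n - 1 - 2 * j) := by
  have hkey : ∀ p ∈ PS n E, n % (p - 1) / 2 ∈ range ((E + 1) / 2) ∧
      p ∈ (range (n - 1 - 2 * (n % (p - 1) / 2) + 2)).filter
        (fun q => q.Prime ∧ q ≠ 2 ∧ (q - 1) ∣ n - 1 - 2 * (n % (p - 1) / 2)) := by
    intro p hp
    simp only [PS, mem_filter, mem_range] at hp
    obtain ⟨hpn, hpp, hp2, hc⟩ := hp
    have hodd := hpp.odd_of_ne_two hp2
    have htwo := hpp.two_le
    obtain ⟨a, ha⟩ := hodd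
    obtain ⟨b, hb⟩ := hn
    have hcmod : n % (p - 1) % 2 = 1 := by
      have h1 : n % (p - 1) % 2 = n % 2 := Nat.mod_mod_of_dvd n ⟨a, by omega⟩
      omega
    have hlt : n % (p - 1) < p - 1 := Nat.mod_lt _ (by omega)
    have hdiv : (p - 1) ∣ n - n % (p - 1) := Nat.dvd_sub_mod n
    have heq : n - 1 - 2 * (n % (p - 1) / 2) = n - n % (p - 1) := by omega
    constructor
    · rw [mem_range]
      omega
    · rw [mem_filter, mem_range, heq]
      refine ⟨?_, hpp, hp2, hdiv⟩
      have hpos : 0 < n - n % (p - 1) := by omega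
      have := Nat.le_of_dvd hpos hdiv
      omega
  have hnn : ∀ p : ℕ, 0 ≤ Real.log p := fun p => Real.log_natCast_nonneg p
  rw [← Finset.sum_fiberwise_of_maps_to (fun p hp => (hkey p hp).1)]
  refine Finset.sum_le_sum fun j _ => ?_
  unfold Zf
  refine Finset.sum_le_sum_of_subset_of_nonneg ?_ (fun p _ _ => hnn p)
  intro p hp
  rw [mem_filter] at hp
  have := (hkey p hp.1).2
  rwa [hp.2] at this

namespace Data

variable {n D κ : ℕ} {T U G H : ℤ[X]}

/-- the value bound -/
theorem value_bound (h : Data n D κ T U) (hT : T = G * H)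
    (hs : G.comp (1 - X) = G ∨ G.comp (1 - X) = -G) :
    Real.log |((G.eval 2 : ℤ) : ℝ)| + Real.log |(ev32 G : ℝ)| ≤
      2 * Real.log |(G.leadingCoeff : ℝ)| + 2 * Real.log n + Real.log 225 +
        ∑ j ∈ range ((G.natDegree / 2 + 1) / 2), Zf (n - 1 - 2 * j) +
        ∑ j ∈ range ((G.natDegree / 4 + 1) / 2), Zf (n - 1 - 2 * j) := by
  have hn := h.odd
  have hge := h.ge
  set a := G.leadingCoeff.natAbs with ha
  have ha0 : 0 < a := h.lc_pos hT
  set b := H.leadingCoeff.natAbs with hb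
  set S2 := b.primeFactors.filter (fun p => ¬ p ∣ (H.eval 2).natAbs) with hS2
  set S3 := b.primeFactors.filter (fun p => ¬ p ∣ (ev32 H).natAbs) with hS3
  have hbD : b ∣ D := ⟨a, by rw [← h.lc_mul hT]; ring⟩
  have hpD : ∀ p ∈ b.primeFactors, p.Prime ∧ p ∣ D := by
    intro p hp
    rw [Nat.mem_primeFactors] at hp
    exact ⟨hp.1, hp.2.1.trans hbD⟩
  have hnn : ∀ p : ℕ, 0 ≤ Real.log p := fun p => Real.log_natCast_nonneg p
  have hlogprod : ∀ S : Finset ℕ, S ⊆ b.primeFactors →
      Real.log ((∏ p ∈ S, p : ℕ) : ℝ) = ∑ p ∈ S, Real.log p := by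
    intro S hS
    push_cast
    rw [Real.log_prod]
    intro p hp
    exact_mod_cast (hpD p (hS hp)).1.ne_zero
  have hprodpos : ∀ S : Finset ℕ, S ⊆ b.primeFactors → 0 < ∏ p ∈ S, p := by
    intro S hS
    exact Finset.prod_pos fun p hp => (hpD p (hS hp)).1.pos
  have hbound : ∀ (g : ℤ) (S : Finset ℕ), S ⊆ b.primeFactors → g ≠ 0 →
      g.natAbs ≤ a * n * ∏ p ∈ S, p →
      Real.log |(g : ℝ)| ≤ Real.log a + Real.log n + ∑ p ∈ S, Real.log p := by
    intro g S hS hg0 hg
    rw [← hlogprod S hS]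
    have h1 : |(g : ℝ)| = (g.natAbs : ℝ) := by rw [Nat.cast_natAbs]; push_cast; rfl
    have e1 : (a : ℝ) ≠ 0 := by exact_mod_cast ha0.ne'
    have e2 : (n : ℝ) ≠ 0 := by
      have : n ≠ 0 := by omega
      exact_mod_cast this
    have e3 : ((∏ p ∈ S, p : ℕ) : ℝ) ≠ 0 := by exact_mod_cast (hprodpos S hS).ne'
    rw [← Real.log_mul e1 e2, ← Real.log_mul (mul_ne_zero e1 e2) e3, h1]
    apply Real.log_le_log
    · have : 0 < g.natAbs := Int.natAbs_pos.2 hg0
      exact_mod_cast this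
    · exact_mod_cast hg
  have hD0 : (D : ℤ) * n ≠ 0 := by
    have := h.Dpos
    positivity
  have hg2 : G.eval 2 ≠ 0 := by
    intro h0
    have h1 := h.val2
    rw [hT, eval_mul, h0] at h1
    apply hD0
    rw [← h1]; ring
  have hg3 : ev32 G ≠ 0 := by
    intro h0
    have h1 := h.ev32_T
    rw [hT, ev32_mul, h0] at h1
    apply hD0
    rw [← h1]; ring
  have hsub2 : S2 ⊆ b.primeFactors := filter_subset _ _
  have hsub3 : S3 ⊆ b.primeFactors := filter_subset _ _
  have hA := hbound (G.eval 2) S2 hsub2 hg2 (h.G2_le hT)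
  have hB := hbound (ev32 G) S3 hsub3 hg3 (h.G32_le hT)
  have hlca : |(G.leadingCoeff : ℝ)| = (a : ℝ) := by rw [ha, Nat.cast_natAbs]; push_cast; rfl
  rw [hlca]
  -- the sum over primes
  have hsum : ∑ p ∈ S2, Real.log p + ∑ p ∈ S3, Real.log p ≤
      Real.log 225 + ∑ p ∈ PS n (G.natDegree / 2), Real.log p +
        ∑ p ∈ PS n (G.natDegree / 4), Real.log p := by
    rw [← sum_union_inter]
    have hsmall : ∀ p ∈ b.primeFactors, ¬ 7 ≤ p → p = 3 ∨ p = 5 := by
      intro p hp h7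
      have hpp := (hpD p hp).1
      have h2 := (h.p_facts hpp (hpD p hp).2).1
      have := hpp.two_le
      interval_cases p
      · exact absurd rfl h2
      · left; rfl
      · norm_num at hpp
      · right; rfl
      · norm_num at hpp
    have hstep : ∀ (S : Finset ℕ) (E : ℕ), S ⊆ b.primeFactors →
        (∀ p ∈ S, 7 ≤ p → n % (p - 1) ≤ E) →
        ∑ p ∈ S, Real.log p ≤ Real.log 15 + ∑ p ∈ PS n E, Real.log p := by
      intro S E hS hE
      rw [← sum_filter_add_sum_filter_not S (fun p => ¬ 7 ≤ p)]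
      apply add_le_add
      · have : (S.filter (fun p => ¬ 7 ≤ p)) ⊆ {3, 5} := by
          intro p hp
          rw [mem_filter] at hp
          have := hsmall p (hS hp.1) hp.2
          simp only [mem_insert, mem_singleton]
          exact this
        refine (Finset.sum_le_sum_of_subset_of_nonneg this (fun p _ _ => hnn p)).trans ?_
        rw [sum_pair (by norm_num)]
        push_cast
        rw [← Real.log_mul (by norm_num) (by norm_num)]
        norm_num
      · refine Finset.sum_le_sum_of_subset_of_nonneg ?_ (fun p _ _ => hnn p)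
        intro p hp
        rw [mem_filter, not_not] at hp
        have hpb := hS hp.1
        obtain ⟨f1, f2, _⟩ := h.p_facts (hpD p hpb).1 (hpD p hpb).2
        simp only [PS, mem_filter, mem_range]
        exact ⟨by omega, (hpD p hpb).1, f1, hE p hp.1 hp.2⟩
    have h1 := hstep (S2 ∪ S3) (G.natDegree / 2) (union_subset hsub2 hsub3) (by
      intro p hp h7
      have hpb := (union_subset hsub2 hsub3) hp
      have := h.two_c_le hT hs (hpD p hpb).1 h7 (hpD p hpb).2 (by
        rw [mem_union, hS2, hS3, mem_filter, mem_filter] at hp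
        rcases hp with hp | hp
        · exact Or.inl hp.2
        · exact Or.inr hp.2)
      omega)
    have h2 := hstep (S2 ∩ S3) (G.natDegree / 4) (inter_subset_left.trans hsub2) (by
      intro p hp h7
      have hpb := (inter_subset_left.trans hsub2) hp
      rw [mem_inter, hS2, hS3, mem_filter, mem_filter] at hp
      have := h.four_c_le hT hs (hpD p hpb).1 h7 (hpD p hpb).2 hp.1.2 hp.2.2
      omega)
    have h3 : Real.log 225 = Real.log 15 + Real.log 15 := by
      rw [← Real.log_mul (by norm_num) (by norm_num)]; norm_num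
    rw [h3]
    linarith
  have hP1 := PS_sum_le hn (G.natDegree / 2)
  have hP2 := PS_sum_le hn (G.natDegree / 4)
  linarith

end Data

end Pool.Agent.BernIrr
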