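import Mathlib
import Pool.Agent.BernIrr.Core5

/-!
Symmetric factorisations of `T` and the use of a good prime.
-/

namespace Pool.Agent.BernIrr

open Polynomial Finset

/-- the reflection `x ↦ 1 - x` as an automorphism of `ℤ[X]` -/
noncomputable def sg : ℤ[X] ≃ₐ[ℤ] ℤ[X] :=
  algEquivOfCompEqX (1 - X) (1 - X) (by simp) (by simp)

lemma sg_apply (f : ℤ[X]) : sg f = f.comp (1 - X) := by
  show aeval (1 - X) f = _
  rw [comp_eq_aeval]

lemma sg_sg (f : ℤ[X]) : sg (sg f) = f := by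
  rw [sg_apply, sg_apply, comp_assoc]
  simp

lemma sg_irr {f : ℤ[X]} (hf : Irreducible f) : Irreducible (sg f) :=
  (MulEquiv.irreducible_iff (sg : ℤ[X] ≃* ℤ[X])).2 hf

lemma sg_deg (f : ℤ[X]) : (sg f).natDegree = f.natDegree := by
  rw [sg_apply, natDegree_comp]
  have : (1 - X : ℤ[X]).natDegree = 1 := by
    rw [show (1 - X : ℤ[X]) = -X + C 1 by simp; ring]
    rw [natDegree_add_C, natDegree_neg, natDegree_X]
  rw [this, mul_one]

lemma unit_pm {u : ℤ[X]} (hu : IsUnit u) : u = 1 ∨ u = -1 := by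
  obtain ⟨r, hr, rfl⟩ := Polynomial.isUnit_iff.1 hu
  rcases Int.isUnit_iff.1 hr with rfl | rfl
  · left; simp
  · right; simp

lemma deg_pos_of_not_unit {T f : ℤ[X]} (hT : T.IsPrimitive) (hf : f ∣ T) (hu : ¬ IsUnit f) :
    1 ≤ f.natDegree := by
  by_contra h0
  have h0 : f.natDegree = 0 := by omega
  rw [eq_C_of_natDegree_eq_zero h0] at hf hu
  exact hu (isUnit_C.2 (isPrimitive_iff_isUnit_of_C_dvd.1 hT _ hf))

/-- a symmetric polynomial is either irreducible, or has a symmetric factorisation, or is a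
product of two factors of the same degree -/
theorem symm_factor {T : ℤ[X]} (hT : T.IsPrimitive) (hs : sg T = T) (hd : 1 ≤ T.natDegree)
    (hirr : ¬ Irreducible T) :
    (∃ F S, T = F * S ∧ 1 ≤ F.natDegree ∧ 1 ≤ S.natDegree ∧ (sg F = F ∨ sg F = -F) ∧
      (sg S = S ∨ sg S = -S)) ∨ (∃ P Q, T = P * Q ∧ P.natDegree = Q.natDegree) := by
  have hT0 : T ≠ 0 := hT.ne_zero
  have hTu : ¬ IsUnit T := by
    intro hu
    rcases unit_pm hu with h | h
    · rw [h] at hd; simp at hd
    · rw [h] at hd; simp at hd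
  obtain ⟨P, hP, hPT⟩ := WfDvdMonoid.exists_irreducible_factor hTu hT0
  have hPd : 1 ≤ P.natDegree := deg_pos_of_not_unit hT hPT hP.not_isUnit
  obtain ⟨S, hS⟩ := hPT
  have hSu : ¬ IsUnit S := by
    intro hu
    apply hirr
    rw [hS]
    exact (irreducible_mul_isUnit hu).2 hP
  have hP0 : P ≠ 0 := hP.ne_zero
  have hsT : sg P * sg S = P * S := by rw [← map_mul, ← hS, hs]
  by_cases hass : Associated P (sg P)
  · obtain ⟨u, hu⟩ := hass
    left
    refine ⟨P, S, hS, hPd, deg_pos_of_not_unit hT ⟨P, by rw [hS]; ring⟩ hSu, ?_, ?_⟩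
    · rcases unit_pm u.isUnit with h | h
      · left; rw [← hu, h, mul_one]
      · right; rw [← hu, h]; ring
    · rw [← hu] at hsT
      rcases unit_pm u.isUnit with h | h
      · left
        apply mul_left_cancel₀ hP0
        rw [← hsT, h, mul_one]
      · right
        apply mul_left_cancel₀ hP0
        rw [mul_neg, ← hsT, h]; ring
  · have hsP := sg_irr hP
    have hdv : sg P ∣ P * S := ⟨sg S, hsT.symm⟩
    rcases hsP.prime.dvd_or_dvd hdv with h1 | h1
    · exact absurd ((hsP.associated_of_dvd hP h1).symm) hass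
    · obtain ⟨W, hW⟩ := h1
      have hTW : T = (P * sg P) * W := by rw [hS, hW]; ring
      by_cases hWu : IsUnit W
      · right
        refine ⟨P * W, sg P, by rw [hTW]; ring, ?_⟩
        rw [sg_deg]
        rcases unit_pm hWu with h | h
        · rw [h, mul_one]
        · rw [h, mul_neg, mul_one, natDegree_neg]
      · left
        have hF : sg (P * sg P) = P * sg P := by rw [map_mul, sg_sg]; ring
        have hPP0 : P * sg P ≠ 0 := mul_ne_zero hP0 hsP.ne_zero
        refine ⟨P * sg P, W, hTW, ?_, deg_pos_of_not_unit hT ⟨P * sg P, by rw [hTW]; ring⟩ hWu,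
          Or.inl hF, Or.inl ?_⟩
        · rw [natDegree_mul hP0 hsP.ne_zero]; omega
        · apply mul_left_cancel₀ hPP0
          have h2 := hs
          rw [hTW, map_mul, hF] at h2
          exact h2

/-- the residue of `n` -/
lemma digits_k {n p c : ℕ} (hp : p.Prime) (hlt : n < p ^ 3) (hc : c < p - 1)
    (hs : n % p + n / p % p + n / p ^ 2 = p - 1 + c) {k : ℕ} (hk0 : 0 < k) (hkn : k ≤ n)
    (hd : (p - 1) ∣ k) (hch : ¬ p ∣ n.choose k) : n - k ≤ c * p ^ 2 := by
  have := Fact.mk hp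
  have htwo := hp.two_le
  have hl1 : n.choose k ≡ (n % p).choose (k % p) * (n / p).choose (k / p) [MOD p] :=
    Choose.choose_modEq_choose_mod_mul_choose_div_nat
  have hl2 : (n / p).choose (k / p) ≡ (n / p % p).choose (k / p % p) *
      (n / p / p).choose (k / p / p) [MOD p] := Choose.choose_modEq_choose_mod_mul_choose_div_nat
  have hne : ∀ a b : ℕ, a ≡ b [MOD p] → ¬ p ∣ a → ¬ p ∣ b := by
    intro a b hab ha hb
    exact ha ((hab.dvd_iff dvd_rfl).2 hb)
  have h1 := hne _ _ hl1 hch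
  have h1a : ¬ p ∣ (n % p).choose (k % p) := fun h => h1 (h.mul_right _)
  have h1b : ¬ p ∣ (n / p).choose (k / p) := fun h => h1 (h.mul_left _)
  have h2 := hne _ _ hl2 h1b
  have h2a : ¬ p ∣ (n / p % p).choose (k / p % p) := fun h => h2 (h.mul_right _)
  have h2b : ¬ p ∣ (n / p / p).choose (k / p / p) := fun h => h2 (h.mul_left _)
  have hle : ∀ a b : ℕ, ¬ p ∣ a.choose b → b ≤ a := by
    intro a b hab
    by_contra hlt
    rw [Nat.choose_eq_zero_of_lt (by omega)] at hab
    exact hab (dvd_zero p)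
  have e0 := hle _ _ h1a
  have e1 := hle _ _ h2a
  have e2 := hle _ _ h2b
  rw [Nat.div_div_eq_div_mul, Nat.div_div_eq_div_mul, ← pow_two] at e2
  -- digits
  have hn : n = n % p + (n / p % p) * p + (n / p ^ 2) * p ^ 2 := by
    have a1 := Nat.mod_add_div n p
    have a2 := Nat.mod_add_div (n / p) p
    rw [Nat.div_div_eq_div_mul, ← pow_two] at a2
    calc n = n % p + p * (n / p) := a1.symm
      _ = n % p + p * (n / p % p + p * (n / p ^ 2)) := by rw [a2]
      _ = _ := by ring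
  have hk : k = k % p + (k / p % p) * p + (k / p ^ 2) * p ^ 2 := by
    have a1 := Nat.mod_add_div k p
    have a2 := Nat.mod_add_div (k / p) p
    rw [Nat.div_div_eq_div_mul, ← pow_two] at a2
    calc k = k % p + p * (k / p) := a1.symm
      _ = k % p + p * (k / p % p + p * (k / p ^ 2)) := by rw [a2]
      _ = _ := by ring
  obtain ⟨q, rfl⟩ : ∃ q, p = q + 1 := ⟨p - 1, by omega⟩
  rw [Nat.add_sub_cancel] at hd hc hs
  generalize n % (q + 1) = n0 at *
  generalize n / (q + 1) % (q + 1) = n1 at *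
  generalize n / (q + 1) ^ 2 = n2 at *
  generalize k % (q + 1) = k0 at *
  generalize k / (q + 1) % (q + 1) = k1 at *
  generalize k / (q + 1) ^ 2 = k2 at *
  have hsk : q ∣ k0 + k1 + k2 := by
    have : k = k0 + k1 + k2 + q * (k1 + k2 * (q + 2)) := by rw [hk]; ring
    rw [this] at hd
    exact (Nat.dvd_add_left (dvd_mul_right _ _)).1 hd
  have hskpos : 0 < k0 + k1 + k2 := by
    rcases Nat.eq_zero_or_pos (k0 + k1 + k2) with h0 | h0
    · have : k0 = 0 ∧ k1 = 0 ∧ k2 = 0 := by omega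
      rw [this.1, this.2.1, this.2.2] at hk
      simp at hk
      omega
    · exact h0
  have hge := Nat.le_of_dvd hskpos hsk
  obtain ⟨r0, hr0⟩ := Nat.exists_eq_add_of_le e0
  obtain ⟨r1, hr1⟩ := Nat.exists_eq_add_of_le e1
  obtain ⟨r2, hr2⟩ := Nat.exists_eq_add_of_le e2
  have hr : r0 + r1 + r2 ≤ c := by omega
  have hnk : n = k + (r0 + r1 * (q + 1) + r2 * (q + 1) ^ 2) := by
    rw [hn]
    conv_rhs => rw [hk]
    rw [hr0, hr1, hr2]
    ring
  have hq1 : 1 ≤ (q + 1) ^ 2 := Nat.one_le_pow _ _ (by omega)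
  have hq2 : q + 1 ≤ (q + 1) ^ 2 := by nlinarith
  calc n - k = r0 + r1 * (q + 1) + r2 * (q + 1) ^ 2 := by omega
    _ ≤ r0 * (q + 1) ^ 2 + r1 * (q + 1) ^ 2 + r2 * (q + 1) ^ 2 := by
        gcongr
        exact Nat.le_mul_of_pos_right _ (by omega)
    _ = (r0 + r1 + r2) * (q + 1) ^ 2 := by ring
    _ ≤ c * (q + 1) ^ 2 := Nat.mul_le_mul_right _ hr

lemma exists_k {n p c : ℕ} (hp : p.Prime) (hp2 : p ≠ 2) (hlt : n < p ^ 3) 
    (hs : n % p + n / p % p + n / p ^ 2 = p - 1 + c) :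
    ∃ k, 0 < k ∧ k ≤ n ∧ (p - 1) ∣ k ∧ ¬ p ∣ n.choose k := by
  have := Fact.mk hp
  have htwo := hp.two_le
  set n0 := n % p with hn0
  set n1 := n / p % p with hn1
  set n2 := n / p ^ 2 with hn2
  have h0 : n0 < p := Nat.mod_lt _ (by omega)
  have h1 : n1 < p := Nat.mod_lt _ (by omega)
  have h2 : n2 < p := by
    rw [hn2]
    apply Nat.div_lt_of_lt_mul
    calc n < p ^ 3 := hlt
      _ = p ^ 2 * p := by ring
  have hn : n = n0 + n1 * p + n2 * p ^ 2 := by
    have a1 := Nat.mod_add_div n p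
    have a2 := Nat.mod_add_div (n / p) p
    rw [Nat.div_div_eq_div_mul, ← pow_two] at a2
    calc n = n % p + p * (n / p) := a1.symm
      _ = n % p + p * (n / p % p + p * (n / p ^ 2)) := by rw [a2]
      _ = _ := by rw [hn0, hn1, hn2]; ring
  obtain ⟨k0, k1, k2, hk0, hk1, hk2, hk⟩ : ∃ k0 k1 k2, k0 ≤ n0 ∧ k1 ≤ n1 ∧ k2 ≤ n2 ∧
      k0 + k1 + k2 = p - 1 := by
    clear_value n0 n1 n2
    by_cases h3 : c ≤ n0
    · exact ⟨n0 - c, n1, n2, by omega, le_rfl, le_rfl, by omega⟩
    · by_cases h4 : c - n0 ≤ n1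
      · exact ⟨0, n1 - (c - n0), n2, by omega, by omega, le_rfl, by omega⟩
      · exact ⟨0, 0, n2 - (c - n0 - n1), by omega, by omega, by omega, by omega⟩
  refine ⟨k0 + k1 * p + k2 * p ^ 2, ?_, ?_, ?_, ?_⟩
  · rcases Nat.eq_zero_or_pos k0 with h | h
    · rcases Nat.eq_zero_or_pos k1 with h' | h'
      · have : 0 < k2 := by omega
        positivity
      · positivity
    · positivity
  · rw [hn]
    gcongr
  · obtain ⟨q, rfl⟩ : ∃ q, p = q + 1 := ⟨p - 1, by omega⟩
    rw [Nat.add_sub_cancel] at hk ⊢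
    refine ⟨1 + k1 + k2 * (q + 2), ?_⟩
    calc k0 + k1 * (q + 1) + k2 * (q + 1) ^ 2 = (k0 + k1 + k2) + q * (k1 + k2 * (q + 2)) := by ring
      _ = q + q * (k1 + k2 * (q + 2)) := by rw [hk]
      _ = _ := by ring
  · set k := k0 + k1 * p + k2 * p ^ 2 with hkdef
    have hkm : k % p = k0 := by
      rw [hkdef, show k0 + k1 * p + k2 * p ^ 2 = k0 + p * (k1 + k2 * p) by ring,
        Nat.add_mul_mod_self_left, Nat.mod_eq_of_lt (by omega)]
    have hkd : k / p = k1 + k2 * p := by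
      rw [hkdef, show k0 + k1 * p + k2 * p ^ 2 = k0 + p * (k1 + k2 * p) by ring,
        Nat.add_mul_div_left _ _ (by omega), Nat.div_eq_of_lt (by omega), zero_add]
    have hkm1 : k / p % p = k1 := by
      rw [hkd, Nat.add_mul_mod_self_right, Nat.mod_eq_of_lt (by omega)]
    have hkd1 : k / p / p = k2 := by
      rw [hkd, show k1 + k2 * p = k1 + p * k2 by ring,
        Nat.add_mul_div_left _ _ (by omega), Nat.div_eq_of_lt (by omega), zero_add]
    have hl1 : n.choose k ≡ (n % p).choose (k % p) * (n / p).choose (k / p) [MOD p] :=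
      Choose.choose_modEq_choose_mod_mul_choose_div_nat
    have hl2 : (n / p).choose (k / p) ≡ (n / p % p).choose (k / p % p) *
        (n / p / p).choose (k / p / p) [MOD p] := Choose.choose_modEq_choose_mod_mul_choose_div_nat
    have hnd : ∀ a b : ℕ, a < p → b ≤ a → ¬ p ∣ a.choose b := by
      intro a b ha hb hd
      have h3 : p ∣ a.factorial := by
        rw [← Nat.choose_mul_factorial_mul_factorial hb]
        exact (hd.mul_right _).mul_right _
      have := (hp.dvd_factorial).1 h3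
      omega
    rw [hkm] at hl1
    rw [hkm1, hkd1] at hl2
    intro hd
    have h3 := (hl1.dvd_iff dvd_rfl).1 hd
    rcases hp.dvd_mul.1 h3 with h4 | h4
    · exact hnd _ _ h0 hk0 h4
    · have h5 := (hl2.dvd_iff dvd_rfl).1 h4
      rcases hp.dvd_mul.1 h5 with h6 | h6
      · exact hnd _ _ h1 hk1 h6
      · rw [Nat.div_div_eq_div_mul, ← pow_two] at h6
        exact hnd _ _ h2 hk2 h6

namespace Data

variable {n D κ : ℕ} {T U G H : ℤ[X]}

lemma two_le_deg (h : Data n D κ T U) (hT : T = G * H) (hs : sg G = G ∨ sg G = -G)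
    (hd : 1 ≤ G.natDegree) : 2 ≤ G.natDegree := by
  by_contra hlt
  have h1 : G.natDegree = 1 := by omega
  have hG : G = C (G.coeff 1) * X + C (G.coeff 0) := eq_X_add_C_of_natDegree_le_one (by omega)
  have hsg : sg G = C (G.coeff 1) * (1 - X) + C (G.coeff 0) := by
    conv_lhs => rw [hG]
    rw [sg_apply]
    simp
  have hlc : G.leadingCoeff = G.coeff 1 := by rw [leadingCoeff, h1]
  have hne : G.coeff 1 ≠ 0 := by
    rw [← hlc]
    exact leadingCoeff_ne_zero.2 (h.G_ne hT)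
  have hodd : Odd G.leadingCoeff.natAbs := by
    have h2 := h.lc_mul hT
    have h3 := h.Dodd
    rw [← h2] at h3
    exact (Nat.odd_mul.1 h3).1
  rw [hsg] at hs
  rcases hs with hs | hs
  · have := congrArg (fun f => coeff f 1) hs
    simp only [coeff_add, coeff_C_mul, coeff_sub, coeff_one, coeff_X_one, coeff_C_succ] at this
    norm_num at this
    apply hne
    omega
  · have := congrArg (fun f => coeff f 0) hs
    simp at this
    rw [hlc] at hodd
    obtain ⟨m, hm⟩ := hodd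
    omega

theorem good_prime_use (h : Data n D κ T U) {c₀ : ℝ} {p c : ℕ} (hg : GoodPrime c₀ n p c)
    (hirr : ¬ Irreducible T) :
    (∃ G H, T = G * H ∧ 2 ≤ G.natDegree ∧ G.natDegree ≤ c * p ^ 2 ∧ (sg G = G ∨ sg G = -G)) ∨
      n - 3 ≤ 2 * (c * p ^ 2) := by
  obtain ⟨hp, hp2, hsq, hcube, hc, hs, _⟩ := hg
  have hn := h.ge
  obtain ⟨k, hk0, hkn, hkd, hkc⟩ := exists_k hp hp2 hcube hs
  have hpD : p ∣ D := h.dvd_D hp hp2 hk0 hkn hkd hkc
  have hB : ∀ k, 0 < k → k ≤ n → (p - 1) ∣ k → ¬ p ∣ n.choose k → n - k ≤ c * p ^ 2 :=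
    fun k h1 h2 h3 h4 => digits_k hp hcube hc hs h1 h2 h3 h4
  have hsT : sg T = T := by rw [sg_apply, h.symm]
  have hdT : 1 ≤ T.natDegree := by rw [h.deg]; omega
  rcases symm_factor h.prim hsT hdT hirr with ⟨F, S, hFS, hF1, hS1, hsF, hsS⟩ | ⟨P, Q, hPQ, hdeg⟩
  · left
    rcases h.deg_le_or hFS hp hpD hB with h1 | h1
    · exact ⟨F, S, hFS, h.two_le_deg hFS hsF hF1, h1, hsF⟩
    · have hSF : T = S * F := by rw [hFS]; ring
      exact ⟨S, F, hSF, h.two_le_deg hSF hsS hS1, h1, hsS⟩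
  · right
    have h1 := h.deg_add hPQ
    rcases h.deg_le_or hPQ hp hpD hB with h2 | h2 <;> omega

/-- transfer of irreducibility -/
theorem irreducible_iff (h : Data n D κ T U) {R : ℚ[X]}
    (hR : Polynomial.bernoulli n = X * (X - C (1 / 2)) * (X - 1) * R) :
    Irreducible R ↔ Irreducible T := by
  rw [IsPrimitive.Int.irreducible_iff_irreducible_map_cast h.prim]
  have h1 := h.eq_rat
  have h2 : T.map (Int.castRingHom ℚ) = C (D : ℚ) * R := by
    have hq0 : (X * (X - C (1 / 2)) * (X - 1) : ℚ[X]) ≠ 0 := by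
      refine mul_ne_zero (mul_ne_zero X_ne_zero (X_sub_C_ne_zero _)) ?_
      exact X_sub_C_ne_zero 1
    have hq3 : q3.map (Int.castRingHom ℚ) = C 2 * (X * (X - C (1 / 2)) * (X - 1)) := by
      unfold q3
      simp only [Polynomial.map_mul, Polynomial.map_sub, Polynomial.map_X, Polynomial.map_one,
        Polynomial.map_ofNat]
      have e2 : (2 : ℚ[X]) = C 2 := rfl
      have e3 : (C 2 : ℚ[X]) * (X - C (1/2)) = C 2 * X - 1 := by
        rw [mul_sub, ← C_mul]; norm_num
      rw [e2, ← e3]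
      ring
    rw [hR, hq3] at h1
    have h20 : (C 2 : ℚ[X]) ≠ 0 := by simp
    apply mul_left_cancel₀ (mul_ne_zero h20 hq0)
    rw [← h1, C_mul]
    ring
  rw [h2]
  have hD : IsUnit (C (D : ℚ)) := isUnit_C.2 (by
    rw [isUnit_iff_ne_zero]
    exact_mod_cast h.Dpos.ne')
  exact (irreducible_isUnit_mul hD).symm

end Data

end Pool.Agent.BernIrr
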