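import Mathlib
import Pool.Agent.BernIrr.Core6

/-!
The deterministic part: a reducible `R_n` forces `Zf` to be large near `n`.
-/

namespace Pool.Agent.BernIrr

open Polynomial Finset

/-- the conclusion of the module ARCH, as a hypothesis -/
def ArchStmt (c₀ : ℝ) (n₀ : ℕ) : Prop := ∀ n : ℕ, n₀ ≤ n → Odd n →
    ∀ (D : ℕ) (T G H : ℤ[X]), Odd D →
    C (2 * (D : ℚ)) * Polynomial.bernoulli n =
      X * (X - 1) * (2 * X - 1) * T.map (Int.castRingHom ℚ) →
    T = G * H → 1 ≤ G.natDegree → |(G.leadingCoeff : ℝ)| ≤ 4 ^ (G.natDegree + 1) →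
    (G.natDegree : ℝ) * Real.log n ≤ c₀ * n →
    ((n : ℝ) / 200) ^ G.natDegree * |(G.leadingCoeff : ℝ)| ≤ |((G.eval 2 : ℤ) : ℝ)| ∧
    ((n : ℝ) / 200) ^ G.natDegree * |(G.leadingCoeff : ℝ)| ≤
      |(2 : ℝ) ^ G.natDegree * (G.map (Int.castRingHom ℝ)).eval (3 / 2 : ℝ)|

lemma Zf_nonneg (m : ℕ) : 0 ≤ Zf m :=
  Finset.sum_nonneg fun p _ => Real.log_natCast_nonneg p

/-- the basic inequality for a factor of small degree -/
lemma basic_ineq {n D κ : ℕ} {T U G H : ℤ[X]} (h : Data n D κ T U) {c₀ : ℝ} {n₀ : ℕ}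
    (hA : ArchStmt c₀ n₀) (hn : n₀ ≤ n) (hT : T = G * H) (hd : 2 ≤ G.natDegree)
    (hs : sg G = G ∨ sg G = -G) (hdeg : (G.natDegree : ℝ) * Real.log n ≤ c₀ * n) :
    2 * G.natDegree * (Real.log n - Real.log 200) ≤ 2 * Real.log n + Real.log 225 +
        ∑ j ∈ range ((G.natDegree / 2 + 1) / 2), Zf (n - 1 - 2 * j) +
        ∑ j ∈ range ((G.natDegree / 4 + 1) / 2), Zf (n - 1 - 2 * j) := by
  have hge := h.ge
  have hn0 : (0 : ℝ) < n := by
    have : 0 < n := by omega
    exact_mod_cast this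
  have hs' : G.comp (1 - X) = G ∨ G.comp (1 - X) = -G := by
    rwa [sg_apply] at hs
  have hq : q3.map (Int.castRingHom ℚ) = X * (X - 1) * (2 * X - 1) := by
    unfold q3; simp
  have heq := h.eq_rat
  rw [hq] at heq
  obtain ⟨h1, h2⟩ := hA n hn h.odd D T G H h.Dodd heq hT (by omega) (h.lc_le hT) hdeg
  have h3 := h.value_bound hT hs'
  have hcast : (ev32 G : ℝ) = (2 : ℝ) ^ G.natDegree *
      (G.map (Int.castRingHom ℝ)).eval (3 / 2 : ℝ) := ev32_cast (by norm_num) G
  rw [← hcast] at h2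
  have ha : 0 < |(G.leadingCoeff : ℝ)| := by
    rw [abs_pos]
    exact_mod_cast leadingCoeff_ne_zero.2 (h.G_ne hT)
  have hb : (0 : ℝ) < n / 200 := by positivity
  have hlog : Real.log (((n : ℝ) / 200) ^ G.natDegree * |(G.leadingCoeff : ℝ)|) =
      G.natDegree * (Real.log n - Real.log 200) + Real.log |(G.leadingCoeff : ℝ)| := by
    rw [Real.log_mul (by positivity) ha.ne', Real.log_pow, Real.log_div hn0.ne' (by norm_num)]
  have h4 := Real.log_le_log (by positivity) h1
  have h5 := Real.log_le_log (by positivity) h2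
  rw [hlog] at h4 h5
  linarith

/-- the deterministic statement -/
theorem det {c₀ : ℝ} (hc₀ : 0 < c₀) {n₀ : ℕ} (hA : ArchStmt c₀ n₀) {δ : ℝ} (hδ : 0 < δ)
    (hδ1 : δ ≤ 1) : ∃ (K : ℕ) (η : ℝ) (n₁ : ℕ), 0 < η ∧ 1 ≤ K ∧ ∀ n : ℕ, n₁ ≤ n → Odd n →
      (∃ p c : ℕ, GoodPrime c₀ n p c) →
      (∀ j < K, Zf (n - 1 - 2 * j) < η * Real.log n) →
      (∀ j : ℕ, 1 ≤ j → j ≤ (n - 1) / 2 →
        ∑ i ∈ range j, Zf (n - 1 - 2 * i) < (16 / 3 - δ) * Real.log n * j) →
      ∃ R : ℚ[X], Polynomial.bernoulli n = X * (X - C (1 / 2)) * (X - 1) * R ∧ Irreducible R := by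
  obtain ⟨K, hK⟩ := exists_nat_gt (17 / δ)
  have hKpos : (0 : ℝ) < K := lt_trans (by positivity) hK
  have hK1 : 1 ≤ K := by
    have : (0 : ℝ) < (K : ℕ) := hKpos
    exact_mod_cast this
  have hl200 : 0 < Real.log 200 := Real.log_pos (by norm_num)
  have hl225 : 0 < Real.log 225 := Real.log_pos (by norm_num)
  -- the threshold for log n
  set L0 : ℝ := 4 * K * Real.log 200 + Real.log 225 + 16 * Real.log 200 / δ + 4 * c₀ + 1 with hL0
  have hL0pos : 0 < L0 := by positivity
  obtain ⟨n₂, hn₂⟩ := exists_nat_gt (Real.exp L0)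
  refine ⟨K, 1 / (2 * K), max (max n₀ 7) n₂, by positivity, hK1, ?_⟩
  intro n hn hodd hgood hZ hS
  have hnn0 : n₀ ≤ n := (le_max_left _ _).trans ((le_max_left _ _).trans hn)
  have hn7 : 7 ≤ n := (le_max_right _ _).trans ((le_max_left _ _).trans hn)
  have hnn2 : n₂ ≤ n := (le_max_right _ _).trans hn
  have hn0 : (0 : ℝ) < n := by
    have : 0 < n := by omega
    exact_mod_cast this
  set L := Real.log n with hL
  have hLL : L0 < L := by
    rw [hL, Real.lt_log_iff_exp_lt hn0]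
    refine lt_of_lt_of_le hn₂ ?_
    exact_mod_cast hnn2
  obtain ⟨D, κ, T, U, h⟩ := exists_data hodd (by omega : 5 ≤ n)
  -- the polynomial R
  have hq3 : q3.map (Int.castRingHom ℚ) = C 2 * (X * (X - C (1 / 2)) * (X - 1)) := by
    unfold q3
    simp only [Polynomial.map_mul, Polynomial.map_sub, Polynomial.map_X, Polynomial.map_one,
      Polynomial.map_ofNat]
    have e2 : (2 : ℚ[X]) = C 2 := rfl
    have e3 : (C 2 : ℚ[X]) * (X - C (1/2)) = C 2 * X - 1 := by
      rw [mul_sub, ← C_mul]; norm_num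
    rw [e2, ← e3]
    ring
  obtain ⟨R, hR⟩ : ∃ R : ℚ[X], Polynomial.bernoulli n = X * (X - C (1 / 2)) * (X - 1) * R := by
    obtain ⟨W, hW⟩ := q3_dvd hodd (by omega : 3 ≤ n)
    refine ⟨C 2 * W, ?_⟩
    rw [hW, hq3]; ring
  refine ⟨R, hR, ?_⟩
  rw [h.irreducible_iff hR]
  by_contra hirr
  obtain ⟨p, c, hg⟩ := hgood
  have hgd : ((c * p ^ 2 : ℕ) : ℝ) * L ≤ c₀ * n := by
    have := hg.2.2.2.2.2.2
    push_cast
    exact this
  have hLpos : 0 < L := hL0pos.trans hLL
  rcases h.good_prime_use hg hirr with ⟨G, H, hT, hd2, hdB, hs⟩ | hcase2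
  · have hdeg : (G.natDegree : ℝ) * L ≤ c₀ * n := by
      refine le_trans ?_ hgd
      apply mul_le_mul_of_nonneg_right _ hLpos.le
      exact_mod_cast hdB
    have hb := basic_ineq h hA hnn0 hT hd2 hs hdeg
    set d := G.natDegree with hd
    have hdn : d ≤ n - 3 := by
      have := h.deg_add hT
      omega
    have hd2' : (2 : ℝ) ≤ d := by exact_mod_cast hd2
    have h16 : 16 * Real.log 200 ≤ δ * L := by
      have : 16 * Real.log 200 / δ ≤ L := by
        have h1 : 0 < 4 * (K:ℝ) * Real.log 200 := by positivity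
        linarith
      rw [div_le_iff₀ hδ] at this
      linarith
    have hJ1 : (((d / 2 + 1) / 2 : ℕ) : ℝ) ≤ d / 4 + 1 / 2 := by
      have : 4 * ((d / 2 + 1) / 2) ≤ d + 2 := by omega
      have : (4 : ℝ) * (((d / 2 + 1) / 2 : ℕ) : ℝ) ≤ d + 2 := by exact_mod_cast this
      linarith
    have hJ2 : (((d / 4 + 1) / 2 : ℕ) : ℝ) ≤ d / 8 + 1 / 2 := by
      have : 8 * ((d / 4 + 1) / 2) ≤ d + 4 := by omega
      have : (8 : ℝ) * (((d / 4 + 1) / 2 : ℕ) : ℝ) ≤ d + 4 := by exact_mod_cast this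
      linarith
    by_cases hdK : d ≤ 2 * K
    · -- small degree
      have hsm : ∀ J, J ≤ K → ∑ j ∈ range J, Zf (n - 1 - 2 * j) ≤ L / 2 := by
        intro J hJ
        calc ∑ j ∈ range J, Zf (n - 1 - 2 * j) ≤ ∑ j ∈ range J, 1 / (2 * K) * L := by
              apply sum_le_sum
              intro j hj
              exact (hZ j (by rw [mem_range] at hj; omega)).le
          _ = J * (1 / (2 * K) * L) := by rw [sum_const, card_range, nsmul_eq_mul]
          _ ≤ K * (1 / (2 * K) * L) := by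
              apply mul_le_mul_of_nonneg_right _ (by positivity)
              exact_mod_cast hJ
          _ = L / 2 := by field_simp
      have h1 := hsm ((d / 2 + 1) / 2) (by omega)
      have h2 := hsm ((d / 4 + 1) / 2) (by omega)
      have hdK' : (d : ℝ) ≤ 2 * K := by exact_mod_cast hdK
      have h3 : 2 * (d : ℝ) * Real.log 200 ≤ 4 * K * Real.log 200 := by nlinarith
      have h4 : 2 * 2 * L ≤ 2 * d * L := by nlinarith
      have h5 : 0 < 16 * Real.log 200 / δ := by positivity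
      linarith
    · -- large degree
      have hlg : ∀ J, J ≤ (n - 1) / 2 → ∑ j ∈ range J, Zf (n - 1 - 2 * j) ≤
          (16 / 3 - δ) * L * J := by
        intro J hJ
        rcases Nat.eq_zero_or_pos J with h0 | h0
        · rw [h0]; simp
        · exact (hS J h0 hJ).le
      have h1 := hlg ((d / 2 + 1) / 2) (by omega)
      have h2 := hlg ((d / 4 + 1) / 2) (by omega)
      have hdK' : 2 * (K : ℝ) < d := by
        have : 2 * K < d := by omega
        exact_mod_cast this
      have hdl : 34 / δ < d := by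
        have : 34 / δ = 2 * (17 / δ) := by ring
        linarith
      have hdl' : 34 < δ * d := by
        rw [div_lt_iff₀ hδ] at hdl
        linarith
      have hc : 0 ≤ (16 / 3 - δ) * L := mul_nonneg (by linarith) hLpos.le
      have h3 : (16 / 3 - δ) * L * ((((d / 2 + 1) / 2 : ℕ) : ℝ) + (((d / 4 + 1) / 2 : ℕ) : ℝ)) ≤
          (16 / 3 - δ) * L * (3 * d / 8 + 1) := by
        apply mul_le_mul_of_nonneg_left _ hc
        linarith
      have h4 : (16 / 3 - δ) * L * (3 * d / 8 + 1) ≤ 2 * d * L - 3 / 8 * (δ * d) * L + 16 / 3 * L := by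
        have : (16 / 3 - δ) * L * (3 * d / 8 + 1) =
          2 * d * L - 3 / 8 * (δ * d) * L + 16 / 3 * L - δ * L := by ring
        rw [this]
        have : 0 < δ * L := by positivity
        linarith
      have h5 : 2 * (d : ℝ) * Real.log 200 ≤ 1 / 8 * (δ * d) * L := by
        have : (d : ℝ) * (16 * Real.log 200) ≤ d * (δ * L) :=
          mul_le_mul_of_nonneg_left h16 (by positivity)
        linarith
      have h6 : Real.log 225 ≤ L := by
        have h1 : 0 < 4 * (K:ℝ) * Real.log 200 := by positivity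
        have h2 : 0 < 16 * Real.log 200 / δ := by positivity
        linarith
      have h7 : 34 * L < δ * d * L := by
        apply mul_lt_mul_of_pos_right hdl' hLpos
      linarith
  · -- the second case is impossible
    have h1 : ((n - 3 : ℕ) : ℝ) ≤ 2 * ((c * p ^ 2 : ℕ) : ℝ) := by exact_mod_cast hcase2
    have h2 : (n : ℝ) / 2 ≤ ((n - 3 : ℕ) : ℝ) := by
      rw [Nat.cast_sub (by omega)]
      have : (7 : ℝ) ≤ n := by exact_mod_cast hn7
      push_cast
      linarith
    have h3 : 4 * c₀ < L := by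
      have h1 : 0 < 4 * (K:ℝ) * Real.log 200 := by positivity
      have h2 : 0 < 16 * Real.log 200 / δ := by positivity
      linarith
    have h4 : (n : ℝ) / 4 * L ≤ c₀ * n := by
      refine le_trans ?_ hgd
      apply mul_le_mul_of_nonneg_right _ hLpos.le
      linarith
    have h5 : (n : ℝ) * (4 * c₀) < n * L := mul_lt_mul_of_pos_left h3 hn0
    linarith

end Pool.Agent.BernIrr
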