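import Mathlib
import Pool.Agent.BernIrr.Arch2
import Pool.Agent.BernIrr.Det

/-!
The module ARCH: factors of small degree have large values at `2` and `3/2`.
-/

namespace Pool.Agent.BernIrr

open Finset Polynomial

lemma norm_eval_eq {g : ℂ[X]} (x : ℂ) :
    ‖g.eval x‖ = ‖g.leadingCoeff‖ * (g.roots.map (fun a => ‖x - a‖)).prod := by
  have h1 := (IsAlgClosed.splits g).eval_eq_prod_roots x
  rw [h1, norm_mul]
  congr 1
  have h2 : ∀ s : Multiset ℂ, ‖(s.map (fun a => x - a)).prod‖ = (s.map (fun a => ‖x - a‖)).prod := by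
    intro s
    induction s using Multiset.induction_on with
    | empty => simp
    | cons a s ih => simp [ih]
  exact h2 _

lemma prod_ge {s : Multiset ℂ} {x : ℂ} {r : ℝ} (hr : 0 ≤ r) (h : ∀ a ∈ s, r ≤ ‖x - a‖) :
    r ^ (Multiset.card s) ≤ (s.map (fun a => ‖x - a‖)).prod := by
  induction s using Multiset.induction_on with
  | empty => simp
  | cons a s ih =>
    rw [Multiset.card_cons, Multiset.map_cons, Multiset.prod_cons, pow_succ, mul_comm]
    exact mul_le_mul (h a (Multiset.mem_cons_self a s))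
      (ih (fun b hb => h b (Multiset.mem_cons_of_mem hb))) (by positivity) (norm_nonneg _)

lemma prod_le {s : Multiset ℂ} {x : ℂ} {r : ℝ} (hr : 0 ≤ r) (h : ∀ a ∈ s, ‖x - a‖ ≤ r) :
    (s.map (fun a => ‖x - a‖)).prod ≤ r ^ (Multiset.card s) := by
  induction s using Multiset.induction_on with
  | empty => simp
  | cons a s ih =>
    rw [Multiset.card_cons, Multiset.map_cons, Multiset.prod_cons, pow_succ, mul_comm (r ^ _)]
    apply mul_le_mul (h a (Multiset.mem_cons_self a s))
      (ih (fun b hb => h b (Multiset.mem_cons_of_mem hb))) _ hr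
    apply Multiset.prod_nonneg
    intro y hy
    rw [Multiset.mem_map] at hy
    obtain ⟨b, _, rfl⟩ := hy
    exact norm_nonneg _

theorem arch : ∃ c₀ : ℝ, 0 < c₀ ∧ ∃ n₀ : ℕ, ArchStmt c₀ n₀ := by
  refine ⟨1 / 8, by norm_num, 400, ?_⟩
  intro n hn hodd D T G H hD heq hT hd1 hlc hdeg
  have hn0 : (0 : ℝ) < n := by
    have : 0 < n := by omega
    exact_mod_cast this
  have hn400 : (400 : ℝ) ≤ n := by exact_mod_cast hn
  set Gc := G.map (Int.castRingHom ℂ) with hGc
  have hinj : Function.Injective (Int.castRingHom ℂ) := RingHom.injective_int _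
  have hT0 : T ≠ 0 := by
    rintro rfl
    have := T_int_ne hodd (by omega) hD heq 2
    simp at this
  have hG0 : G ≠ 0 := by
    rintro rfl
    rw [zero_mul] at hT
    exact hT0 hT
  have hGc0 : Gc ≠ 0 := (Polynomial.map_ne_zero_iff hinj).2 hG0
  have hGcd : Gc.natDegree = G.natDegree := natDegree_map_eq_of_injective hinj G
  have hGclc : ‖Gc.leadingCoeff‖ = |(G.leadingCoeff : ℝ)| := by
    rw [hGc, leadingCoeff_map_of_injective hinj]
    simp
  have hcard : Multiset.card Gc.roots = G.natDegree := by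
    rw [← hGcd]
    exact (splits_iff_card_roots.1 (IsAlgClosed.splits Gc))
  have hlcpos : 0 < |(G.leadingCoeff : ℝ)| := by
    rw [abs_pos]
    exact_mod_cast leadingCoeff_ne_zero.2 hG0
  -- roots of G are roots of B_n
  have hroot : ∀ a ∈ Gc.roots, ((Polynomial.bernoulli n).map (algebraMap ℚ ℂ)).eval a = 0 := by
    intro a ha
    rw [mem_roots hGc0, IsRoot.def] at ha
    have h1 := congrArg (Polynomial.map (algebraMap ℚ ℂ)) heq
    rw [Polynomial.map_mul, Polynomial.map_mul, map_C, Polynomial.map_map] at h1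
    have h2 : (algebraMap ℚ ℂ).comp (Int.castRingHom ℚ) = Int.castRingHom ℂ := RingHom.ext_int _ _
    rw [h2, hT, Polynomial.map_mul] at h1
    have h3 := congrArg (Polynomial.eval a) h1
    rw [eval_mul, eval_C, eval_mul, eval_mul] at h3
    rw [Polynomial.map_mul (Int.castRingHom ℂ), eval_mul, ← hGc, ha, zero_mul, mul_zero] at h3
    rcases mul_eq_zero.1 h3 with h4 | h4
    · exfalso
      have hD0 : D ≠ 0 := by
        rintro rfl
        simp at hD
      have : (2 : ℂ) * D = 0 := by simpa using h4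
      exact (mul_ne_zero two_ne_zero (by exact_mod_cast hD0)) this
    · exact h4
  have hup : ∀ a ∈ Gc.roots, ‖a‖ ≤ 2 * n := fun a ha => root_le (by omega) a (hroot a ha)
  -- no small roots
  have hlow : ∀ a ∈ Gc.roots, (n : ℝ) / 100 < ‖a‖ := by
    intro a ha
    by_contra hle
    rw [not_lt] at hle
    obtain ⟨j, hj⟩ := near_half hodd a hle (hroot a ha)
    have hj1 : ‖((j : ℂ) / 2)‖ ≤ n := by
      have h1 : ‖((j : ℂ) / 2)‖ ≤ ‖a‖ + ‖a - j / 2‖ := by
        have : (j : ℂ) / 2 = a - (a - j / 2) := by ring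
        calc ‖((j : ℂ) / 2)‖ = ‖a - (a - j / 2)‖ := by rw [← this]
          _ ≤ _ := norm_sub_le _ _
      have h2 : Real.exp (-(n : ℝ) / 2) ≤ 1 := Real.exp_le_one_iff.2 (by linarith)
      linarith
    set N : ℤ := (G.scaleRoots 2).eval j with hN
    have hN0 : N ≠ 0 := by
      have h1 := T_half_ne hodd (by omega) hD heq j
      rw [hT, mul_scaleRoots_of_noZeroDivisors, eval_mul] at h1
      exact left_ne_zero_of_mul h1
    have hNabs : (1 : ℝ) ≤ ‖(N : ℂ)‖ := by
      rw [Complex.norm_intCast]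
      have : 1 ≤ |N| := Int.one_le_abs hN0
      exact_mod_cast this
    have hNeq : (N : ℂ) = 2 ^ G.natDegree * Gc.eval ((j : ℂ) / 2) := by
      have h := scaleRoots_eval₂_mul (p := G) (Int.castRingHom ℂ) ((j : ℂ) / 2) (2 : ℤ)
      have e0 : (Int.castRingHom ℂ) 2 = (2 : ℂ) := by simp
      rw [e0, show (2 : ℂ) * ((j : ℂ) / 2) = j by field_simp] at h
      rw [hGc, eval_map, ← h]
      have e3 : eval₂ (Int.castRingHom ℂ) ((Int.castRingHom ℂ) j) (G.scaleRoots 2) =
          (Int.castRingHom ℂ) ((G.scaleRoots 2).eval j) := Polynomial.eval₂_at_apply _ _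
      have e4 : (Int.castRingHom ℂ) j = (j : ℂ) := by simp
      rw [e4] at e3
      rw [e3, hN]
      simp
    rw [hNeq, norm_mul, norm_pow, norm_eval_eq, hGclc] at hNabs
    simp only [Complex.norm_ofNat] at hNabs
    -- split off the root a
    obtain ⟨s, hs⟩ := Multiset.exists_cons_of_mem ha
    rw [hs, Multiset.map_cons, Multiset.prod_cons] at hNabs
    have hscard : Multiset.card s + 1 = G.natDegree := by
      rw [← hcard, hs, Multiset.card_cons]
    have hprod : (s.map (fun b => ‖(j : ℂ) / 2 - b‖)).prod ≤ (3 * n) ^ (Multiset.card s) := by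
      apply prod_le (by positivity)
      intro b hb
      have hb' : b ∈ Gc.roots := by rw [hs]; exact Multiset.mem_cons_of_mem hb
      calc ‖(j : ℂ) / 2 - b‖ ≤ ‖(j : ℂ) / 2‖ + ‖b‖ := norm_sub_le _ _
        _ ≤ n + 2 * n := add_le_add hj1 (hup b hb')
        _ = 3 * n := by ring
    have hja : ‖(j : ℂ) / 2 - a‖ ≤ Real.exp (-(n : ℝ) / 2) := by
      rw [norm_sub_rev]; exact hj
    set d := G.natDegree with hd
    have hnn : 0 ≤ (s.map (fun b => ‖(j : ℂ) / 2 - b‖)).prod := by
      apply Multiset.prod_nonneg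
      intro y hy
      rw [Multiset.mem_map] at hy
      obtain ⟨b, _, rfl⟩ := hy
      exact norm_nonneg _
    have hbig : (1 : ℝ) ≤ 2 ^ d * (4 ^ (d + 1) * (Real.exp (-(n : ℝ) / 2) *
        (3 * n) ^ (Multiset.card s))) := by
      refine hNabs.trans ?_
      gcongr
    have hle2 : (2 : ℝ) ^ d * (4 ^ (d + 1) * (3 * (n : ℝ)) ^ (Multiset.card s)) ≤ (n : ℝ) ^ (2 * d) := by
      have h1 : (3 * (n : ℝ)) ^ (Multiset.card s) * 4 ≤ (3 * (n : ℝ)) ^ d := by
        rw [← hscard, pow_succ]
        apply mul_le_mul_of_nonneg_left _ (by positivity)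
        linarith
      calc (2 : ℝ) ^ d * (4 ^ (d + 1) * (3 * (n : ℝ)) ^ (Multiset.card s))
          = 2 ^ d * 4 ^ d * ((3 * (n : ℝ)) ^ (Multiset.card s) * 4) := by ring
        _ ≤ 2 ^ d * 4 ^ d * (3 * (n : ℝ)) ^ d := mul_le_mul_of_nonneg_left h1 (by positivity)
        _ = (24 * (n : ℝ)) ^ d := by rw [← mul_pow, ← mul_pow]; ring
        _ ≤ ((n : ℝ) ^ 2) ^ d := by
            apply pow_le_pow_left₀ (by positivity)
            nlinarith
        _ = (n : ℝ) ^ (2 * d) := by rw [pow_mul]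
    have hexp : (n : ℝ) ^ (2 * d) = Real.exp (2 * (d * Real.log n)) := by
      rw [← Real.exp_log (show (0 : ℝ) < (n : ℝ) ^ (2 * d) by positivity), Real.log_pow]
      push_cast
      ring_nf
    have h5 : (1 : ℝ) ≤ Real.exp (2 * (d * Real.log n)) * Real.exp (-(n : ℝ) / 2) := by
      rw [← hexp]
      refine hbig.trans ?_
      calc _ = (2 : ℝ) ^ d * (4 ^ (d + 1) * (3 * (n : ℝ)) ^ (Multiset.card s)) *
            Real.exp (-(n : ℝ) / 2) := by ring
        _ ≤ _ := mul_le_mul_of_nonneg_right hle2 (Real.exp_pos _).le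
    rw [← Real.exp_add] at h5
    have h6 : Real.exp (2 * (d * Real.log n) + -(n : ℝ) / 2) < 1 := by
      rw [Real.exp_lt_one_iff]
      linarith
    linarith
  -- conclusion
  have hpow : ∀ x : ℂ, ‖x‖ ≤ 2 → ((n : ℝ) / 200) ^ G.natDegree * |(G.leadingCoeff : ℝ)| ≤
      ‖Gc.eval x‖ := by
    intro x hx
    rw [norm_eval_eq, hGclc, mul_comm, ← hcard]
    apply mul_le_mul_of_nonneg_left _ hlcpos.le
    apply prod_ge (by positivity)
    intro a ha
    have h1 := hlow a ha
    have h2 : ‖a‖ ≤ ‖x - a‖ + ‖x‖ := by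
      have : a = x - (x - a) := by ring
      calc ‖a‖ = ‖x - (x - a)‖ := by rw [← this]
        _ ≤ ‖x‖ + ‖x - a‖ := norm_sub_le _ _
        _ = _ := by ring
    linarith
  constructor
  · have h1 := hpow 2 (by simp)
    have h2 : Gc.eval 2 = ((G.eval 2 : ℤ) : ℂ) := by
      have := Polynomial.eval_intCast_map (Int.castRingHom ℂ) G 2
      simpa using this
    rw [h2, Complex.norm_intCast] at h1
    exact h1
  · have h1 := hpow (3 / 2) (by norm_num)
    have h2 : Gc.eval (3 / 2) = (((G.map (Int.castRingHom ℝ)).eval (3 / 2) : ℝ) : ℂ) := by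
      have h3 : Gc = (G.map (Int.castRingHom ℝ)).map Complex.ofRealHom := by
        rw [Polynomial.map_map, hGc]
        congr 1
      rw [h3, show (3 / 2 : ℂ) = Complex.ofRealHom (3 / 2 : ℝ) by simp, Polynomial.eval_map_apply]
      rfl
    rw [h2, Complex.norm_real, Real.norm_eq_abs] at h1
    rw [abs_mul, abs_of_nonneg (by positivity : (0 : ℝ) ≤ 2 ^ G.natDegree)]
    refine h1.trans ?_
    apply le_mul_of_one_le_left (abs_nonneg _)
    exact one_le_pow₀ (by norm_num)

end Pool.Agent.BernIrr
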