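import Mathlib
import Pool.Agent.BernIrr.Defs

/-!
Module APRIME of MP_f85b9b_nt: almost all n have a good prime (second moment).
-/

namespace Pool.Agent.BernIrr

namespace AP

open Finset Filter Topology

/-- `p` is good for `n` (three digits, digit sum `p - 1 + c` with `c ≤ r`). -/
def gd (r p n : ℕ) : Prop :=
  p ^ 2 ≤ n ∧ ∃ c, c ≤ r ∧ n % p + n / p % p + n / p ^ 2 = p - 1 + c

noncomputable instance (r p n : ℕ) : Decidable (gd r p n) := Classical.dec _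

lemma digits {p a b c : ℕ} (hc : c < p) (hb : b < p) :
    (a * p ^ 2 + b * p + c) % p = c ∧ (a * p ^ 2 + b * p + c) / p % p = b ∧
      (a * p ^ 2 + b * p + c) / p ^ 2 = a := by
  have hp : 0 < p := by omega
  have e1 : a * p ^ 2 + b * p + c = c + p * (a * p + b) := by ring
  have e2 : (a * p ^ 2 + b * p + c) / p = b + p * a := by
    rw [e1, Nat.add_mul_div_left _ _ hp, Nat.div_eq_of_lt hc]; ring
  refine ⟨?_, ?_, ?_⟩
  · rw [e1, Nat.add_mul_mod_self_left, Nat.mod_eq_of_lt hc]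
  · rw [e2, Nat.add_mul_mod_self_left, Nat.mod_eq_of_lt hb]
  · rw [pow_two, ← Nat.div_div_eq_div_mul, ← pow_two, e2, Nat.add_mul_div_left _ _ hp,
      Nat.div_eq_of_lt hb]; simp

/-- Lower bound for the number of `n ≤ X` for which `p` is good. -/
lemma card_lower {r p X : ℕ} (hr : 1 ≤ r) (hp : 2 ≤ p) :
    (r + 1) * ((X / p ^ 2 - 1) * (p - X / p ^ 2 - r)) ≤
      ((Icc 1 X).filter (fun n => gd r p n)).card := by
  set M := X / p ^ 2 with hM
  have hcard : ((range (r + 1)) ×ˢ ((Ico 1 M) ×ˢ (Ico r (p - M)))).card =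
      (r + 1) * ((M - 1) * (p - M - r)) := by
    simp [card_product, Nat.card_Ico]
  rw [← hcard]
  have key : ∀ x ∈ ((range (r + 1)) ×ˢ ((Ico 1 M) ×ˢ (Ico r (p - M)))),
      ∃ n0, n0 + x.2.1 + x.2.2 = p - 1 + x.1 ∧ n0 < p ∧ x.2.2 < p ∧ 1 ≤ x.2.1 ∧ x.2.1 < M := by
    rintro ⟨c, a, b⟩ hx
    simp only [mem_product, mem_range, mem_Ico] at hx ⊢
    obtain ⟨h1, ⟨h2, h3⟩, h4, h5⟩ := hx
    refine ⟨p - 1 + c - (a + b), ?_, ?_, ?_, h2, h3⟩ <;> omega
  choose! n0 hn0 using key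
  refine card_le_card_of_injOn (fun x => x.2.1 * p ^ 2 + x.2.2 * p + n0 x) ?_ ?_
  · intro x hx
    obtain ⟨h1, h2, h3, h4, h5⟩ := hn0 x hx
    obtain ⟨d1, d2, d3⟩ := digits (a := x.2.1) h2 h3
    have hx' := hx
    simp only [coe_product, Set.mem_prod, coe_range, Set.mem_Iio, coe_Ico, Set.mem_Ico] at hx'
    have hp2 : 1 ≤ p ^ 2 := Nat.one_le_pow _ _ (by omega)
    have hlow : p ^ 2 ≤ x.2.1 * p ^ 2 + x.2.2 * p + n0 x := by nlinarith
    have hup : x.2.1 * p ^ 2 + x.2.2 * p + n0 x ≤ X := by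
      have a1 : M * p ^ 2 ≤ X := Nat.div_mul_le_self X (p ^ 2)
      have a2 : x.2.2 * p + n0 x ≤ p ^ 2 := by nlinarith
      have a3 : (x.2.1 + 1) * p ^ 2 ≤ M * p ^ 2 := Nat.mul_le_mul_right _ (by omega)
      nlinarith
    simp only [coe_filter, mem_Icc, Set.mem_ofPred_eq]
    refine ⟨⟨by omega, hup⟩, hlow, x.1, by omega, ?_⟩
    rw [d1, d2, d3]; omega
  · intro x hx y hy hxy
    obtain ⟨h1, h2, h3, h4, h5⟩ := hn0 x hx
    obtain ⟨g1, g2, g3, g4, g5⟩ := hn0 y hy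
    obtain ⟨d1, d2, d3⟩ := digits (a := x.2.1) h2 h3
    obtain ⟨f1, f2, f3⟩ := digits (a := y.2.1) g2 g3
    simp only at hxy
    rw [hxy] at d1 d2 d3
    have e1 : x.2.1 = y.2.1 := by rw [← d3, f3]
    have e2 : x.2.2 = y.2.2 := by rw [← d2, f2]
    have e3 : n0 x = n0 y := by rw [← d1, f1]
    have e4 : x.1 = y.1 := by omega
    exact Prod.ext e4 (Prod.ext e1 e2)

lemma mod_of_gd {r p n : ℕ} (hp : r + 1 < p) (h : gd r p n) : n % (p - 1) ≤ r := by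
  obtain ⟨-, c, hc, hs⟩ := h
  obtain ⟨m, rfl⟩ : ∃ m, p = m + 1 := ⟨p - 1, by omega⟩
  simp only [Nat.add_sub_cancel] at hs ⊢
  have h1 : n = n % (m + 1) + (m + 1) * (n / (m + 1)) := (Nat.mod_add_div n (m + 1)).symm
  have h2 : n / (m + 1) = n / (m + 1) % (m + 1) + (m + 1) * (n / (m + 1) / (m + 1)) :=
    (Nat.mod_add_div _ (m + 1)).symm
  have h3 : n / (m + 1) / (m + 1) = n / (m + 1) ^ 2 := by
    rw [Nat.div_div_eq_div_mul, pow_two]
  rw [h3] at h2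
  set a := n % (m + 1)
  set b := n / (m + 1) % (m + 1)
  set d := n / (m + 1) ^ 2
  have h4 : n = c + m * (1 + (b + m * d + d) + d) := by
    have : n = (a + b + d) + m * ((b + (m + 1) * d) + d) := by
      rw [h1, h2]; ring
    rw [this, hs]; ring
  rw [h4, Nat.add_mul_mod_self_left]
  rw [Nat.mod_eq_of_lt (by omega)]
  exact hc

/-- The number of `n ≤ X` which are at most `r` modulo `m` and modulo `m'`. -/
lemma card_pair {r m m' X : ℕ} (hm : 1 ≤ m) (hm' : 1 ≤ m') :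
    ((Icc 1 X).filter (fun n => n % m ≤ r ∧ n % m' ≤ r)).card ≤
      (r + 1) * ((r / Nat.gcd m m' + 1) * (X / Nat.lcm m m' + 1)) := by
  set g := Nat.gcd m m'
  set L := Nat.lcm m m'
  have hg : 0 < g := Nat.gcd_pos_of_pos_left _ hm
  have hL : 0 < L := Nat.lcm_pos hm hm'
  have hcard : ((range (r + 1)) ×ˢ ((range (r / g + 1)) ×ˢ (range (X / L + 1)))).card =
      (r + 1) * ((r / g + 1) * (X / L + 1)) := by
    simp [card_product]
  rw [← hcard]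
  refine card_le_card_of_injOn (fun n => (n % m, n % m' / g, n / L)) ?_ ?_
  · intro n hn
    simp only [coe_filter, mem_Icc, Set.mem_ofPred_eq] at hn
    obtain ⟨⟨h1, h2⟩, h3, h4⟩ := hn
    simp only [coe_product, Set.mem_prod, coe_range, Set.mem_Iio]
    refine ⟨by omega, ?_, ?_⟩
    · exact Nat.lt_succ_of_le (Nat.div_le_div_right h4)
    · exact Nat.lt_succ_of_le (Nat.div_le_div_right h2)
  · intro n hn k hk hnk
    simp only [Prod.mk.injEq] at hnk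
    obtain ⟨h1, h2, h3⟩ := hnk
    have a1 : n ≡ k [MOD m] := h1
    have a2 : n ≡ k [MOD g] := a1.of_dvd (Nat.gcd_dvd_left m m')
    have a3 : n % m' % g = k % m' % g := by
      rw [Nat.mod_mod_of_dvd _ (Nat.gcd_dvd_right m m'), Nat.mod_mod_of_dvd _ (Nat.gcd_dvd_right m m')]
      exact a2
    have a4 : n % m' = k % m' := by
      rw [← Nat.div_add_mod (n % m') g, ← Nat.div_add_mod (k % m') g, h2, a3]
    have a5 : n ≡ k [MOD L] := Nat.mod_lcm a1 a4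
    rw [← Nat.div_add_mod n L, ← Nat.div_add_mod k L, h3]
    congr 1

lemma sum_mult (Y d : ℕ) (hd : 1 ≤ d) :
    ∑ a ∈ (Icc 1 Y).filter (fun a => d ∣ a), (1 : ℝ) / a ≤
      (1 / d) * ∑ a ∈ Icc 1 Y, (1 : ℝ) / a := by
  have hd' : (0 : ℝ) < d := by exact_mod_cast hd
  have h1 : ∑ a ∈ (Icc 1 Y).filter (fun a => d ∣ a), (1 : ℝ) / a =
      ∑ k ∈ ((Icc 1 Y).filter (fun a => d ∣ a)).image (fun a => a / d), (1 : ℝ) / (d * k) := by
    rw [sum_image]
    · refine sum_congr rfl ?_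
      intro a ha
      obtain ⟨ha1, k, rfl⟩ := mem_filter.mp ha
      rw [Nat.mul_div_cancel_left _ hd]
      push_cast; rfl
    · intro a ha b hb hab
      obtain ⟨-, k, rfl⟩ := mem_filter.mp ha
      obtain ⟨-, l, rfl⟩ := mem_filter.mp hb
      simp only [Nat.mul_div_cancel_left _ hd] at hab
      rw [hab]
  rw [h1, mul_sum]
  refine (sum_le_sum_of_subset_of_nonneg (t := Icc 1 Y) ?_ ?_).trans (le_of_eq ?_)
  · intro k hk
    obtain ⟨a, ha, rfl⟩ := mem_image.mp hk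
    obtain ⟨ha1, k, rfl⟩ := mem_filter.mp ha
    rw [Nat.mul_div_cancel_left _ hd]
    rw [mem_Icc] at ha1 ⊢
    constructor
    · rcases Nat.eq_zero_or_pos k with h | h
      · subst h; simp at ha1
      · exact h
    · nlinarith [ha1.2]
  · intros; positivity
  · refine sum_congr rfl ?_
    intro k _
    rw [one_div_mul_one_div]

lemma gcd_sum (Y : ℕ) : ∑ a ∈ Icc 1 Y, ∑ b ∈ Icc 1 Y, (Nat.gcd a b : ℝ) / (a * b) ≤
    (∑ a ∈ Icc 1 Y, (1 : ℝ) / a) ^ 3 := by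
  set H := ∑ a ∈ Icc 1 Y, (1 : ℝ) / a with hH
  have hH0 : 0 ≤ H := sum_nonneg fun _ _ => by positivity
  have h1 : ∀ a ∈ Icc 1 Y, ∀ b ∈ Icc 1 Y, (Nat.gcd a b : ℝ) / (a * b) ≤
      ∑ d ∈ Icc 1 Y, (d : ℝ) * ((if d ∣ a then (1 : ℝ) / a else 0) *
        (if d ∣ b then (1 : ℝ) / b else 0)) := by
    intro a ha b hb
    rw [mem_Icc] at ha hb
    have hg : Nat.gcd a b ∈ Icc 1 Y := by
      rw [mem_Icc]
      exact ⟨Nat.gcd_pos_of_pos_left _ ha.1, (Nat.gcd_le_left b ha.1).trans ha.2⟩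
    refine le_trans (le_of_eq ?_) (single_le_sum (f := fun d : ℕ => (d : ℝ) *
      ((if d ∣ a then (1 : ℝ) / a else 0) * (if d ∣ b then (1 : ℝ) / b else 0))) ?_ hg)
    · simp only [Nat.gcd_dvd_left, Nat.gcd_dvd_right, if_true]
      rw [one_div_mul_one_div, mul_one_div]
    · intro d _
      split_ifs <;> positivity
  calc ∑ a ∈ Icc 1 Y, ∑ b ∈ Icc 1 Y, (Nat.gcd a b : ℝ) / (a * b)
      ≤ ∑ a ∈ Icc 1 Y, ∑ b ∈ Icc 1 Y, ∑ d ∈ Icc 1 Y, (d : ℝ) *
        ((if d ∣ a then (1 : ℝ) / a else 0) * (if d ∣ b then (1 : ℝ) / b else 0)) :=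
        sum_le_sum fun a ha => sum_le_sum fun b hb => h1 a ha b hb
    _ = ∑ d ∈ Icc 1 Y, (d : ℝ) * ((∑ a ∈ (Icc 1 Y).filter (fun a => d ∣ a), (1 : ℝ) / a) *
        (∑ a ∈ (Icc 1 Y).filter (fun a => d ∣ a), (1 : ℝ) / a)) := by
        have : ∀ a ∈ Icc 1 Y, ∑ b ∈ Icc 1 Y, ∑ d ∈ Icc 1 Y, (d : ℝ) *
          ((if d ∣ a then (1 : ℝ) / a else 0) * (if d ∣ b then (1 : ℝ) / b else 0)) =
          ∑ d ∈ Icc 1 Y, ∑ b ∈ Icc 1 Y, (d : ℝ) *
          ((if d ∣ a then (1 : ℝ) / a else 0) * (if d ∣ b then (1 : ℝ) / b else 0)) :=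
          fun a _ => sum_comm
        rw [sum_congr rfl this, sum_comm]
        refine sum_congr rfl fun d _ => ?_
        rw [sum_filter, sum_mul_sum, mul_sum]
        refine sum_congr rfl fun a _ => ?_
        rw [mul_sum]
    _ ≤ ∑ d ∈ Icc 1 Y, (d : ℝ) * ((1 / d * H) * (1 / d * H)) := by
        refine sum_le_sum fun d hd => ?_
        rw [mem_Icc] at hd
        have := sum_mult Y d hd.1
        have h0 : 0 ≤ ∑ a ∈ (Icc 1 Y).filter (fun a => d ∣ a), (1 : ℝ) / a :=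
          sum_nonneg fun _ _ => by positivity
        gcongr
    _ = H ^ 3 := by
        have : ∀ d ∈ Icc 1 Y, (d : ℝ) * ((1 / d * H) * (1 / d * H)) = H ^ 2 * (1 / d) := by
          intro d hd
          rw [mem_Icc] at hd
          have : (0 : ℝ) < d := by exact_mod_cast hd.1
          field_simp
        rw [sum_congr rfl this, ← mul_sum, ← hH]; ring

lemma harm_le (Y : ℕ) : ∑ a ∈ Icc 1 Y, (1 : ℝ) / a ≤ 1 + Real.log Y := by
  have h := harmonic_le_one_add_log Y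
  rw [harmonic_eq_sum_Icc] at h
  push_cast at h
  simpa [one_div] using h

/-- `m = p - 1` for the primes `p` in `(2 r ^ 8, r ^ 9]`. -/
noncomputable def T (r : ℕ) : Finset ℕ :=
  (Ico (2 * r ^ 8) (r ^ 9)).filter (fun m => (m + 1).Prime)

/-- The sum of `1 / (p - 1)`. -/
noncomputable def A (r : ℕ) : ℝ := ∑ m ∈ T r, (1 : ℝ) / m

lemma pi_le_T (r : ℕ) : Nat.primeCounting (r ^ 9) ≤ (T r).card + (2 * r ^ 8 + 1) := by
  rw [Nat.primeCounting, Nat.primeCounting', Nat.count_eq_card_filter_range]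
  have h : (range (r ^ 9 + 1)).filter Nat.Prime ⊆
      (T r).image (fun m => m + 1) ∪ range (2 * r ^ 8 + 1) := by
    intro p hp
    rw [mem_filter, mem_range] at hp
    rw [mem_union, mem_range]
    by_cases h : p < 2 * r ^ 8 + 1
    · exact Or.inr h
    · left
      rw [mem_image]
      refine ⟨p - 1, ?_, by omega⟩
      rw [T, mem_filter, mem_Ico]
      have e : p - 1 + 1 = p := by omega
      rw [e]
      exact ⟨⟨by omega, by omega⟩, hp.2⟩
  refine (card_le_card h).trans ((card_union_le _ _).trans ?_)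
  rw [card_range]
  have : ((T r).image (fun m => m + 1)).card ≤ (T r).card := card_image_le
  omega

lemma card_T_le (r : ℕ) : ((T r).card : ℝ) ≤ r ^ 9 * A r := by
  rw [A, mul_sum, card_eq_sum_ones]
  push_cast
  refine sum_le_sum fun m hm => ?_
  rw [T, mem_filter, mem_Ico] at hm
  obtain ⟨⟨h1, h2⟩, h3⟩ := hm
  have hm1 : 1 ≤ m := by
    rcases Nat.eq_zero_or_pos m with h | h
    · subst h; norm_num at h3
    · exact h
  have : (0 : ℝ) < m := by exact_mod_cast hm1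
  rw [mul_one_div, le_div_iff₀ this, one_mul]
  exact_mod_cast h2.le

lemma A_lower : ∀ᶠ r : ℕ in atTop, 1 / (20 * Real.log r) ≤ A r := by
  have h1 : ∀ᶠ r : ℕ in atTop, Real.log r ≤ (1 / 200 : ℝ) * r := by
    have := (Real.isLittleO_log_id_atTop.bound (show (0 : ℝ) < 1 / 200 by norm_num)).filter_mono
      tendsto_natCast_atTop_atTop
    rw [eventually_map] at this
    filter_upwards [this, eventually_ge_atTop 1] with r hr hr1
    have h0 : (0 : ℝ) ≤ Real.log r := Real.log_nonneg (by exact_mod_cast hr1)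
    rw [Real.norm_eq_abs, abs_of_nonneg h0, id, Real.norm_eq_abs, abs_of_nonneg (by positivity)] at hr
    exact hr
  filter_upwards [h1, eventually_ge_atTop 100] with r hr hr100
  have hrr : (100 : ℝ) ≤ r := by exact_mod_cast hr100
  have hr0 : (0 : ℝ) < r := by linarith
  have hlog : 0 < Real.log r := Real.log_pos (by linarith)
  have hlog1 : 1 ≤ Real.log r := by
    rw [Real.le_log_iff_exp_le hr0]
    exact (Real.exp_one_lt_d9.le.trans (by norm_num)).trans hrr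
  have h2 := Chebyshev.pi_ge (r ^ 9)
  have h3 : ((Nat.primeCounting (r ^ 9) : ℕ) : ℝ) ≤ (T r).card + (2 * r ^ 8 + 1) := by
    exact_mod_cast pi_le_T r
  push_cast at h2
  rw [Real.log_pow] at h2
  have h4 : Real.log ((r : ℝ) ^ 9 + 1) ≤ 10 * Real.log r := by
    have : (r : ℝ) ^ 9 + 1 ≤ r ^ 10 := by
      have : (1 : ℝ) ≤ r ^ 9 := one_le_pow₀ (by linarith)
      nlinarith
    calc Real.log ((r : ℝ) ^ 9 + 1) ≤ Real.log ((r : ℝ) ^ 10) :=
          Real.log_le_log (by positivity) this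
      _ = 10 * Real.log r := by rw [Real.log_pow]; norm_num
  have hlog2 := Real.log_two_gt_d9
  have h5 : ((r : ℝ) ^ 9 * 0.69 - 10 * Real.log r) / (9 * Real.log r) ≤
      (Nat.primeCounting (r ^ 9) : ℕ) := by
    refine le_trans ?_ h2
    push_cast
    gcongr
    linarith
  have hc := card_T_le r
  have h6 : (r : ℝ) ^ 9 / (20 * Real.log r) ≤ (T r).card := by
    have h7 := h5.trans h3
    rw [div_le_iff₀ (by positivity)] at h7 ⊢
    have h8 : (r : ℝ) ^ 8 * Real.log r ≤ (r : ℝ) ^ 9 / 200 := by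
      calc (r : ℝ) ^ 8 * Real.log r ≤ (r : ℝ) ^ 8 * ((1 / 200 : ℝ) * r) := by gcongr
        _ = (r : ℝ) ^ 9 / 200 := by ring
    have h9 : Real.log r ≤ (r : ℝ) ^ 9 / 200 := by
      have : (1 : ℝ) ≤ (r : ℝ) ^ 8 := one_le_pow₀ (by linarith)
      nlinarith
    nlinarith
  have h10 : (r : ℝ) ^ 9 * (1 / (20 * Real.log r)) ≤ r ^ 9 * A r := by
    rw [mul_one_div]; exact h6.trans hc
  exact le_of_mul_le_mul_left h10 (by positivity)

/-- The number of good primes of `n`. -/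
noncomputable def N (r n : ℕ) : ℕ := ((T r).filter (fun m => gd r (m + 1) n)).card

lemma sum_N (r X : ℕ) : ∑ n ∈ Icc 1 X, N r n =
    ∑ m ∈ T r, ((Icc 1 X).filter (fun n => gd r (m + 1) n)).card := by
  simp only [N, card_filter]
  rw [sum_comm]

lemma sum_N_sq (r X : ℕ) : ∑ n ∈ Icc 1 X, N r n ^ 2 =
    ∑ m ∈ T r, ∑ m' ∈ T r,
      ((Icc 1 X).filter (fun n => gd r (m + 1) n ∧ gd r (m' + 1) n)).card := by
  simp only [N, card_filter, pow_two, sum_mul_sum]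
  rw [sum_comm]
  refine sum_congr rfl fun m _ => ?_
  rw [sum_comm]
  refine sum_congr rfl fun m' _ => sum_congr rfl fun n _ => ?_
  by_cases h1 : gd r (m + 1) n <;> by_cases h2 : gd r (m' + 1) n <;> simp [h1, h2]

lemma mem_T {r m : ℕ} (hr : 1 ≤ r) (hm : m ∈ T r) :
    2 * r ^ 8 ≤ m ∧ m < r ^ 9 ∧ (m + 1).Prime ∧ 1 ≤ m := by
  rw [T, mem_filter, mem_Ico] at hm
  obtain ⟨⟨h1, h2⟩, h3⟩ := hm
  refine ⟨h1, h2, h3, ?_⟩
  have : 1 ≤ r ^ 8 := Nat.one_le_pow _ _ hr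
  omega

lemma pair_real {r m m' X : ℕ} (hm : 1 ≤ m) (hm' : 1 ≤ m') :
    (((r + 1) * ((r / Nat.gcd m m' + 1) * (X / Nat.lcm m m' + 1)) : ℕ) : ℝ) ≤
      (r + 1) ^ 2 * X * ((1 / m) * (1 / m')) + (r + 1) * X * (Nat.gcd m m' / (m * m')) +
        2 * (r + 1) ^ 2 := by
  set g := Nat.gcd m m' with hg
  set L := Nat.lcm m m' with hL
  have hg0 : 0 < g := Nat.gcd_pos_of_pos_left _ hm
  have hL0 : 0 < L := Nat.lcm_pos hm hm'
  have hgL : (g : ℝ) * L = m * m' := by exact_mod_cast Nat.gcd_mul_lcm m m'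
  have hg1 : (1 : ℝ) ≤ g := by exact_mod_cast hg0
  have hL1 : (1 : ℝ) ≤ L := by exact_mod_cast hL0
  have hm0 : (0 : ℝ) < m := by exact_mod_cast hm
  have hm0' : (0 : ℝ) < m' := by exact_mod_cast hm'
  have h1 : ((r / g : ℕ) : ℝ) ≤ (r + 1) / g := by
    refine Nat.cast_div_le.trans ?_
    gcongr; linarith
  have h2 : ((X / L : ℕ) : ℝ) ≤ X * (g / (m * m')) := by
    refine Nat.cast_div_le.trans (le_of_eq ?_)
    rw [← hgL]
    field_simp
  push_cast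
  have hr0 : (0 : ℝ) ≤ r := by positivity
  calc ((r : ℝ) + 1) * ((((r / g : ℕ) : ℝ) + 1) * (((X / L : ℕ) : ℝ) + 1))
      ≤ (r + 1) * (((r + 1) / g + 1) * (X * (g / (m * m')) + 1)) := by gcongr
    _ = (r + 1) ^ 2 * X * ((1 / m) * (1 / m')) + (r + 1) * X * (g / (m * m')) +
        ((r + 1) ^ 2 / g + (r + 1)) := by
        field_simp
    _ ≤ _ := by
        have : ((r : ℝ) + 1) ^ 2 / g ≤ (r + 1) ^ 2 := div_le_self (by positivity) hg1
        have : ((r : ℝ) + 1) ≤ (r + 1) ^ 2 := by nlinarith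
        linarith

lemma second_moment {r : ℕ} (hr : 2 ≤ r) (X : ℕ) :
    ((∑ n ∈ Icc 1 X, N r n ^ 2 : ℕ) : ℝ) ≤
      (r + 1) ^ 2 * X * A r ^ 2 + (r + 1) * X * (1 + 9 * Real.log r) ^ 3 +
        2 * (r + 1) ^ 2 * ((T r).card : ℝ) ^ 2 := by
  rw [sum_N_sq]
  push_cast
  have hbd : ∀ m ∈ T r, ∀ m' ∈ T r,
      (((Icc 1 X).filter (fun n => gd r (m + 1) n ∧ gd r (m' + 1) n)).card : ℝ) ≤
      (r + 1) ^ 2 * X * ((1 / m) * (1 / m')) + (r + 1) * X * (Nat.gcd m m' / (m * m')) +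
        2 * (r + 1) ^ 2 := by
    intro m hm m' hm'
    obtain ⟨a1, a2, a3, a4⟩ := mem_T (by omega) hm
    obtain ⟨b1, b2, b3, b4⟩ := mem_T (by omega) hm'
    refine le_trans ?_ (pair_real (r := r) (X := X) a4 b4)
    have h8 : r < 2 * r ^ 8 := by
      calc r = r ^ 1 := (pow_one r).symm
        _ ≤ r ^ 8 := Nat.pow_le_pow_right (by omega) (by norm_num)
        _ < 2 * r ^ 8 := by have : 0 < r ^ 8 := by positivity
                            omega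
    have := card_pair (r := r) (X := X) a4 b4
    refine le_trans ?_ (Nat.cast_le.mpr this)
    refine Nat.cast_le.mpr (card_le_card ?_)
    intro n hn
    rw [mem_filter] at hn ⊢
    refine ⟨hn.1, ?_, ?_⟩
    · simpa using mod_of_gd (by omega) hn.2.1
    · simpa using mod_of_gd (by omega) hn.2.2
  refine (sum_le_sum fun m hm => sum_le_sum fun m' hm' => hbd m hm m' hm').trans ?_
  have e1 : ∑ m ∈ T r, ∑ m' ∈ T r, ((r + 1 : ℝ) ^ 2 * X * ((1 / (m : ℝ)) * (1 / (m' : ℝ))) +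
      (r + 1) * X * (Nat.gcd m m' / ((m : ℝ) * m')) + 2 * (r + 1) ^ 2) =
      (r + 1) ^ 2 * X * A r ^ 2 + (r + 1) * X * (∑ m ∈ T r, ∑ m' ∈ T r,
        (Nat.gcd m m' : ℝ) / ((m : ℝ) * m')) + 2 * (r + 1) ^ 2 * ((T r).card : ℝ) ^ 2 := by
    simp only [sum_add_distrib, sum_const, nsmul_eq_mul, ← mul_sum, A, pow_two, sum_mul_sum]
    ring
  rw [e1]
  have hG : ∑ m ∈ T r, ∑ m' ∈ T r, (Nat.gcd m m' : ℝ) / ((m : ℝ) * m') ≤
      (1 + 9 * Real.log r) ^ 3 := by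
    have hsub : T r ⊆ Icc 1 (r ^ 9) := by
      intro m hm
      obtain ⟨a1, a2, a3, a4⟩ := mem_T (by omega) hm
      rw [mem_Icc]; exact ⟨a4, a2.le⟩
    calc ∑ m ∈ T r, ∑ m' ∈ T r, (Nat.gcd m m' : ℝ) / ((m : ℝ) * m')
        ≤ ∑ m ∈ Icc 1 (r ^ 9), ∑ m' ∈ Icc 1 (r ^ 9), (Nat.gcd m m' : ℝ) / ((m : ℝ) * m') := by
          refine (sum_le_sum fun m _ => sum_le_sum_of_subset_of_nonneg hsub
            fun _ _ _ => by positivity).trans ?_
          exact sum_le_sum_of_subset_of_nonneg hsub fun _ _ _ =>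
            sum_nonneg fun _ _ => by positivity
      _ ≤ (∑ a ∈ Icc 1 (r ^ 9), (1 : ℝ) / a) ^ 3 := gcd_sum _
      _ ≤ (1 + 9 * Real.log r) ^ 3 := by
          have := harm_le (r ^ 9)
          push_cast at this
          rw [Real.log_pow] at this
          push_cast at this
          have h0 : 0 ≤ ∑ a ∈ Icc 1 (r ^ 9), (1 : ℝ) / a := sum_nonneg fun _ _ => by positivity
          gcongr
  gcongr

lemma aux_first {r m p a X : ℝ} (hr : 64 ≤ r) (hm : 1 ≤ m) (hpm : p = m + 1) (hp1 : 2 * r ^ 8 ≤ p)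
    (hp2 : p ≤ r ^ 9) (ha : a = X / p ^ 2) (hX : r ^ 20 ≤ X) (hX' : X ≤ 2 ^ 20 * r ^ 20) :
    a + r ≤ p / r ∧ (r + 1) * X * (1 - 3 / r) * (1 / m) ≤ (r + 1) * ((a - 2) * (p * (1 - 1 / r))) ∧
      2 ≤ a := by
  have hr0 : 0 < r := by linarith
  have hr8 : 1 ≤ r ^ 8 := one_le_pow₀ (by linarith)
  have hp0 : 0 < p := by linarith
  have hX0 : 0 < X := lt_of_lt_of_le (by positivity) hX
  have ha2 : r ^ 2 ≤ a := by
    rw [ha, le_div_iff₀ (by positivity)]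
    calc r ^ 2 * p ^ 2 ≤ r ^ 2 * (r ^ 9) ^ 2 := by gcongr
      _ = r ^ 20 := by ring
      _ ≤ X := hX
  have ha0 : 0 < a := by rw [ha]; positivity
  have har : a + r ≤ p / r := by
    have h1 : r * a ≤ p / 2 := by
      rw [ha, mul_div_assoc', div_le_iff₀ (by positivity)]
      have h6 : (2 : ℝ) ^ 18 ≤ r ^ 3 := by
        calc (2 : ℝ) ^ 18 = 64 ^ 3 := by norm_num
          _ ≤ r ^ 3 := by gcongr
      calc r * X ≤ r * (2 ^ 20 * r ^ 20) := by gcongr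
        _ = 2 ^ 18 * (4 * r ^ 21) := by ring
        _ ≤ r ^ 3 * (4 * r ^ 21) := by gcongr
        _ = (2 * r ^ 8) ^ 3 / 2 := by ring
        _ ≤ p ^ 3 / 2 := by gcongr
        _ = p / 2 * p ^ 2 := by ring
    have h2 : r * r ≤ p / 2 := by
      have : r ^ 2 ≤ r ^ 8 := pow_le_pow_right₀ (by linarith) (by norm_num)
      have h3 : r * r = r ^ 2 := by ring
      linarith
    rw [le_div_iff₀ hr0]
    have h4 : (a + r) * r = r * a + r * r := by ring
    linarith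
  have hr2 : (2 : ℝ) ≤ r ^ 2 := by
    calc (2 : ℝ) ≤ 64 ^ 2 := by norm_num
      _ ≤ r ^ 2 := by gcongr
  refine ⟨har, ?_, by linarith⟩
  have hinv : 1 / r ≤ 1 / 64 := by
    apply one_div_le_one_div_of_le <;> linarith
  have hinv0 : 0 < 1 / r := by positivity
  have hinv2 : 2 / r ^ 2 = 2 * (1 / r) ^ 2 := by field_simp
  have e3 : a * (1 - 2 / r ^ 2) ≤ a - 2 := by
    have : 2 ≤ a * (2 / r ^ 2) := by
      rw [mul_div_assoc', le_div_iff₀ (by positivity)]; linarith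
    have h3 : a * (1 - 2 / r ^ 2) = a - a * (2 / r ^ 2) := by ring
    linarith
  have e4 : (1 / m) * (1 - 1 / r) ≤ 1 / p := by
    rw [hpm]
    have h1 : 1 / (m + 1) ≤ 1 / r := by
      apply one_div_le_one_div_of_le hr0
      have : r ≤ r ^ 8 := by
        calc r = r ^ 1 := (pow_one _).symm
          _ ≤ r ^ 8 := pow_le_pow_right₀ (by linarith) (by norm_num)
      linarith
    have h3 : 1 / (m + 1) = (1 / m) * (1 - 1 / (m + 1)) := by
      have : m ≠ 0 := by positivity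
      have : m + 1 ≠ 0 := by positivity
      field_simp; ring
    calc (1 / m) * (1 - 1 / r) ≤ (1 / m) * (1 - 1 / (m + 1)) := by gcongr
      _ = 1 / (m + 1) := h3.symm
  have hf : (1 - 3 / r) ≤ (1 - 2 / r ^ 2) * (1 - 1 / r) * (1 - 1 / r) := by
    rw [hinv2, show 3 / r = 3 * (1 / r) by ring]
    generalize 1 / r = t at *
    clear ha2 hr2 har ha0 ha hX hX' hp1 hp2
    have h1 : 0 < t * t := mul_pos hinv0 hinv0
    have h2 : 0 < t * t * t := mul_pos h1 hinv0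
    nlinarith
  have hf1 : 0 ≤ 1 - 2 / r ^ 2 := by
    rw [sub_nonneg, div_le_one (by positivity)]; exact hr2
  have hf2 : 0 ≤ 1 - 1 / r := by linarith
  calc (r + 1) * X * (1 - 3 / r) * (1 / m)
      ≤ (r + 1) * X * ((1 - 2 / r ^ 2) * (1 - 1 / r) * (1 - 1 / r)) * (1 / m) := by gcongr
    _ = (r + 1) * X * ((1 - 2 / r ^ 2) * (1 - 1 / r)) * ((1 / m) * (1 - 1 / r)) := by ring
    _ ≤ (r + 1) * X * ((1 - 2 / r ^ 2) * (1 - 1 / r)) * (1 / p) := by gcongr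
    _ = (r + 1) * ((a * (1 - 2 / r ^ 2)) * (p * (1 - 1 / r))) := by
        rw [ha]; field_simp
    _ ≤ (r + 1) * ((a - 2) * (p * (1 - 1 / r))) := by gcongr

lemma div_facts {X q : ℕ} (hq : 0 < q) :
    (X : ℝ) / q - 1 ≤ ((X / q : ℕ) : ℝ) ∧ ((X / q : ℕ) : ℝ) ≤ (X : ℝ) / q := by
  refine ⟨?_, Nat.cast_div_le⟩
  have h1 : X < (X / q + 1) * q := by
    calc X = q * (X / q) + X % q := (Nat.div_add_mod X q).symm
      _ < q * (X / q) + q := by
        have := Nat.mod_lt X hq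
        omega
      _ = (X / q + 1) * q := by ring
  have h2 : (X : ℝ) < ((X / q : ℕ) + 1) * q := by exact_mod_cast h1
  have hq' : (0 : ℝ) < q := by exact_mod_cast hq
  have h3 : (X : ℝ) / q < (X / q : ℕ) + 1 := by rw [div_lt_iff₀ hq']; exact h2
  linarith

lemma first_single {r m X : ℕ} (hr : 64 ≤ r) (hm : m ∈ T r) (hX : r ^ 20 ≤ X)
    (hX' : X ≤ 2 ^ 20 * r ^ 20) :
    ((r : ℝ) + 1) * X * (1 - 3 / r) * (1 / m) ≤
      (((Icc 1 X).filter (fun n => gd r (m + 1) n)).card : ℝ) := by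
  obtain ⟨a1, a2, a3, a4⟩ := mem_T (by omega) hm
  have hlow := card_lower (r := r) (p := m + 1) (X := X) (by omega) (by omega)
  obtain ⟨hM1, hM2⟩ := div_facts (X := X) (q := (m + 1) ^ 2) (by positivity)
  have hp1 : 2 * (r : ℝ) ^ 8 ≤ ((m + 1 : ℕ) : ℝ) := by
    have : 2 * r ^ 8 ≤ m + 1 := by omega
    exact_mod_cast this
  have hp2 : ((m + 1 : ℕ) : ℝ) ≤ (r : ℝ) ^ 9 := by
    have : m + 1 ≤ r ^ 9 := by omega
    exact_mod_cast this
  have hXr : (r : ℝ) ^ 20 ≤ X := by exact_mod_cast hX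
  have hXr' : (X : ℝ) ≤ 2 ^ 20 * r ^ 20 := by exact_mod_cast hX'
  have hrr : (64 : ℝ) ≤ r := by exact_mod_cast hr
  have hmr : (1 : ℝ) ≤ m := by exact_mod_cast a4
  clear hX hX' a1 a2
  obtain ⟨har, hmain, ha2⟩ := aux_first hrr hmr (by push_cast; rfl) hp1 hp2 rfl hXr hXr'
  refine le_trans hmain (le_trans ?_ (Nat.cast_le.mpr hlow))
  push_cast at hM1 hM2 ⊢
  push_cast at har ha2
  set a : ℝ := (X : ℝ) / ((m : ℝ) + 1) ^ 2 with ha
  set M := X / (m + 1) ^ 2 with hM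
  have e1 : a - 2 ≤ ((M - 1 : ℕ) : ℝ) := by
    have h1 : M ≤ M - 1 + 1 := by omega
    have : (M : ℝ) ≤ ((M - 1 : ℕ) : ℝ) + 1 := by exact_mod_cast h1
    linarith
  have e2 : ((m : ℝ) + 1) * (1 - 1 / r) ≤ ((m + 1 - M - r : ℕ) : ℝ) := by
    have h1 : m + 1 ≤ m + 1 - M - r + M + r := by omega
    have : ((m : ℝ) + 1) ≤ ((m + 1 - M - r : ℕ) : ℝ) + M + r := by exact_mod_cast h1
    have h3 : ((m : ℝ) + 1) * (1 - 1 / r) = ((m : ℝ) + 1) - ((m : ℝ) + 1) / r := by ring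
    linarith
  have hinv : 0 ≤ 1 - 1 / (r : ℝ) := by
    rw [sub_nonneg, div_le_one (by linarith)]; linarith
  have h0 : 0 ≤ a - 2 := by linarith
  gcongr

lemma first_moment {r X : ℕ} (hr : 64 ≤ r) (hX : r ^ 20 ≤ X) (hX' : X ≤ 2 ^ 20 * r ^ 20) :
    ((r : ℝ) + 1) * X * (1 - 3 / r) * A r ≤ ((∑ n ∈ Icc 1 X, N r n : ℕ) : ℝ) := by
  rw [sum_N, A, mul_sum]
  push_cast
  exact sum_le_sum fun m hm => first_single hr hm hX hX'

/-- The error term. -/
noncomputable def kap (r : ℝ) : ℝ :=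
  400 * Real.log r ^ 2 * (1 + 9 * Real.log r) ^ 3 / (r + 1) + 2 / r ^ 2

lemma aux_zero {r X Aa Z t S1 S2 L : ℝ} (hr : 64 ≤ r) (hX : r ^ 20 ≤ X) (hL : L = Real.log r)
    (hA : 1 / (20 * L) ≤ Aa) (ht0 : 0 ≤ t) (ht : t ≤ r ^ 9 * Aa) (hZ : 0 ≤ X - Z)
    (hCS : S1 ^ 2 ≤ (X - Z) * S2)
    (h1 : (r + 1) * X * (1 - 3 / r) * Aa ≤ S1)
    (h2 : S2 ≤ (r + 1) ^ 2 * X * Aa ^ 2 + (r + 1) * X * (1 + 9 * L) ^ 3 +
      2 * (r + 1) ^ 2 * t ^ 2) :
    Z ≤ X * (6 / r + kap r) := by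
  have hr0 : 0 < r := by linarith
  have hlog : 0 < L := by rw [hL]; exact Real.log_pos (by linarith)
  have hX0 : 0 < X := lt_of_lt_of_le (by positivity) hX
  have hA0 : 0 < Aa := lt_of_lt_of_le (by positivity) hA
  have hκ0 : 0 < kap r := by rw [kap, ← hL]; positivity
  have h3 : t ^ 2 ≤ X * Aa ^ 2 / r ^ 2 := by
    rw [le_div_iff₀ (by positivity)]
    calc t ^ 2 * r ^ 2 ≤ (r ^ 9 * Aa) ^ 2 * r ^ 2 := by gcongr
      _ = r ^ 20 * Aa ^ 2 := by ring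
      _ ≤ X * Aa ^ 2 := by gcongr
  have h4 : 1 ≤ 400 * L ^ 2 * Aa ^ 2 := by
    have h41 : 1 ≤ 20 * L * Aa := by
      rw [div_le_iff₀ (by positivity)] at hA
      linarith
    calc (1 : ℝ) = 1 ^ 2 := by norm_num
      _ ≤ (20 * L * Aa) ^ 2 := by gcongr
      _ = 400 * L ^ 2 * Aa ^ 2 := by ring
  have h5 : S2 ≤ (r + 1) ^ 2 * X * Aa ^ 2 * (1 + kap r) := by
    refine h2.trans ?_
    have e1 : (r + 1) * X * (1 + 9 * L) ^ 3 ≤
        (r + 1) * X * (1 + 9 * L) ^ 3 * (400 * L ^ 2 * Aa ^ 2) :=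
      le_mul_of_one_le_right (by positivity) h4
    have e2 : 2 * (r + 1) ^ 2 * t ^ 2 ≤
        2 * (r + 1) ^ 2 * (X * Aa ^ 2 / r ^ 2) := by gcongr
    have e3 : (r + 1) ^ 2 * X * Aa ^ 2 * (1 + kap r) = (r + 1) ^ 2 * X * Aa ^ 2 +
        (r + 1) * X * (1 + 9 * L) ^ 3 * (400 * L ^ 2 * Aa ^ 2) +
        2 * (r + 1) ^ 2 * (X * Aa ^ 2 / r ^ 2) := by
      rw [kap, ← hL]; field_simp; ring
    rw [e3]; linarith
  have h13 : 0 ≤ 1 - 3 / r := by
    rw [sub_nonneg, div_le_one hr0]; linarith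
  have h6 : ((r + 1) * X * (1 - 3 / r) * Aa) ^ 2 ≤
      (X - Z) * ((r + 1) ^ 2 * X * Aa ^ 2 * (1 + kap r)) := by
    calc ((r + 1) * X * (1 - 3 / r) * Aa) ^ 2 ≤ S1 ^ 2 := by gcongr
      _ ≤ _ := hCS
      _ ≤ _ := by gcongr
  have h7 : X * (1 - 3 / r) ^ 2 ≤ (X - Z) * (1 + kap r) := by
    have hpos : 0 < (r + 1) ^ 2 * X * Aa ^ 2 := by positivity
    refine le_of_mul_le_mul_left ?_ hpos
    calc (r + 1) ^ 2 * X * Aa ^ 2 * (X * (1 - 3 / r) ^ 2)
        = ((r + 1) * X * (1 - 3 / r) * Aa) ^ 2 := by ring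
      _ ≤ _ := h6
      _ = _ := by ring
  have h8 : X * (1 - 6 / r) ≤ X * (1 - 3 / r) ^ 2 := by
    gcongr
    have : (1 - 3 / r) ^ 2 = 1 - 6 / r + 9 / r ^ 2 := by field_simp; ring
    rw [this]
    have : (0 : ℝ) < 9 / r ^ 2 := by positivity
    linarith
  have h9 := h8.trans h7
  clear h8 h7 h6 h5 h3 h4 h2 h1 hCS ht hX hA
  generalize kap r = κ at *
  by_contra hcon
  push Not at hcon
  have h9' : (X - Z) * (1 + κ) < X * (1 - 6 / r - κ) * (1 + κ) := by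
    have : X - Z < X * (1 - 6 / r - κ) := by
      have e : X * (1 - 6 / r - κ) = X - X * (6 / r + κ) := by ring
      linarith
    exact mul_lt_mul_of_pos_right this (by linarith)
  have h10 : X * (1 - 6 / r - κ) * (1 + κ) ≤ X * (1 - 6 / r) := by
    have e : X * (1 - 6 / r - κ) * (1 + κ) =
        X * (1 - 6 / r) - X * (6 / r * κ + κ ^ 2) := by ring
    rw [e]
    have : 0 < X * (6 / r * κ + κ ^ 2) := by positivity
    linarith
  linarith

lemma zero_count {r X : ℕ} (hr : 64 ≤ r) (hX : r ^ 20 ≤ X) (hX' : X ≤ 2 ^ 20 * r ^ 20)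
    (hA : 1 / (20 * Real.log r) ≤ A r) :
    (((Icc 1 X).filter (fun n => N r n = 0)).card : ℝ) ≤ X * (6 / r + kap r) := by
  have h1 := first_moment hr hX hX'
  have h2 := second_moment (by omega : 2 ≤ r) X
  have hXr : (r : ℝ) ^ 20 ≤ X := by exact_mod_cast hX
  have hrr : (64 : ℝ) ≤ r := by exact_mod_cast hr
  clear hX hX'
  set Z : ℝ := (((Icc 1 X).filter (fun n => N r n = 0)).card : ℝ) with hZ
  set s := (Icc 1 X).filter (fun n => N r n ≠ 0) with hs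
  have hsZ : (s.card : ℝ) = X - Z := by
    have h := card_filter_add_card_filter_not (s := Icc 1 X) (fun n => N r n = 0)
    rw [Nat.card_Icc] at h
    have h2 : Z + s.card = X := by
      rw [hZ, hs]
      exact_mod_cast h
    linarith
  have hCS : ((∑ n ∈ Icc 1 X, N r n : ℕ) : ℝ) ^ 2 ≤
      s.card * ((∑ n ∈ Icc 1 X, N r n ^ 2 : ℕ) : ℝ) := by
    have e1 : ∑ n ∈ Icc 1 X, N r n = ∑ n ∈ s, N r n := by
      rw [hs, sum_filter_ne_zero]
    have e2 : ∑ n ∈ s, N r n ^ 2 ≤ ∑ n ∈ Icc 1 X, N r n ^ 2 :=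
      sum_le_sum_of_subset (filter_subset _ _)
    have e3 : (∑ n ∈ s, N r n) ^ 2 ≤ s.card * ∑ n ∈ s, N r n ^ 2 := sq_sum_le_card_mul_sum_sq
    rw [e1]
    calc (((∑ n ∈ s, N r n : ℕ) : ℝ)) ^ 2 ≤ ((s.card * ∑ n ∈ s, N r n ^ 2 : ℕ) : ℝ) := by
          exact_mod_cast e3
      _ = s.card * ((∑ n ∈ s, N r n ^ 2 : ℕ) : ℝ) := by push_cast; ring
      _ ≤ _ := by gcongr
  have hs0 : (0 : ℝ) ≤ s.card := by positivity
  rw [hsZ] at hCS hs0
  exact aux_zero hrr hXr rfl hA (by positivity) (card_T_le r) hs0 hCS h1 h2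

lemma small_err (δ : ℝ) (hδ : 0 < δ) : ∀ᶠ r : ℕ in atTop, 6 / (r : ℝ) + kap r ≤ δ := by
  have h1 : ∀ᶠ r : ℕ in atTop, Real.log r ^ 5 ≤ (δ / 1200000 : ℝ) * r := by
    have := ((Real.isLittleO_pow_log_id_atTop (n := 5)).bound
      (show (0 : ℝ) < δ / 1200000 by positivity)).filter_mono tendsto_natCast_atTop_atTop
    rw [eventually_map] at this
    filter_upwards [this, eventually_ge_atTop 1] with r hr hr1
    have h0 : (0 : ℝ) ≤ Real.log r := Real.log_nonneg (by exact_mod_cast hr1)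
    rw [Real.norm_eq_abs, abs_of_nonneg (by positivity), id, Real.norm_eq_abs,
      abs_of_nonneg (by positivity)] at hr
    exact hr
  have h2 : ∀ᶠ r : ℕ in atTop, 24 / δ ≤ (r : ℝ) :=
    tendsto_natCast_atTop_atTop.eventually_ge_atTop _
  filter_upwards [h1, h2, eventually_ge_atTop 3] with r h1 h2 h3
  have hr3 : (3 : ℝ) ≤ r := by exact_mod_cast h3
  have hr0 : (0 : ℝ) < r := by linarith
  have hlog1 : 1 ≤ Real.log r := by
    rw [Real.le_log_iff_exp_le hr0]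
    exact (Real.exp_one_lt_d9.le.trans (by norm_num)).trans hr3
  have hl : 1 + 9 * Real.log r ≤ 10 * Real.log r := by linarith
  have e1 : 400 * Real.log r ^ 2 * (1 + 9 * Real.log r) ^ 3 / (r + 1) ≤ δ / 3 := by
    rw [div_le_iff₀ (by positivity)]
    calc 400 * Real.log r ^ 2 * (1 + 9 * Real.log r) ^ 3
        ≤ 400 * Real.log r ^ 2 * (10 * Real.log r) ^ 3 := by gcongr
      _ = 400000 * Real.log r ^ 5 := by ring
      _ ≤ 400000 * (δ / 1200000 * r) := by gcongr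
      _ = δ / 3 * r := by ring
      _ ≤ δ / 3 * (r + 1) := by gcongr; linarith
  have e2 : 6 / (r : ℝ) ≤ δ / 4 := by
    rw [div_le_iff₀ hδ] at h2
    rw [div_le_div_iff₀ hr0 (by norm_num)]
    linarith
  have e3 : 2 / (r : ℝ) ^ 2 ≤ δ / 12 := by
    have : 2 / (r : ℝ) ^ 2 ≤ 2 / r := by
      apply div_le_div_of_nonneg_left (by norm_num) hr0
      nlinarith
    refine this.trans ?_
    have h4 : 2 / (r : ℝ) = (6 / r) / 3 := by ring
    rw [h4]; linarith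
  rw [kap]
  linarith

lemma exists_root (r₀ X : ℕ) (hX : (r₀ + 1) ^ 20 ≤ X) :
    ∃ r : ℕ, r₀ ≤ r ∧ r ^ 20 ≤ X ∧ X ≤ 2 ^ 20 * r ^ 20 := by
  have h : ∃ r : ℕ, X < (r + 1) ^ 20 := ⟨X, by
    calc X < X + 1 := by omega
      _ = (X + 1) ^ 1 := by ring
      _ ≤ (X + 1) ^ 20 := Nat.pow_le_pow_right (by omega) (by norm_num)⟩
  classical
  obtain ⟨r, hr, hmin⟩ : ∃ r, X < (r + 1) ^ 20 ∧ ∀ k < r, ¬ X < (k + 1) ^ 20 :=
    ⟨Nat.find h, Nat.find_spec h, fun k hk => Nat.find_min h hk⟩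
  have hrr : r₀ ≤ r := by
    by_contra hc
    push Not at hc
    exact absurd (lt_of_lt_of_le hr (Nat.pow_le_pow_left (show r + 1 ≤ r₀ + 1 by omega) 20))
      (not_lt.mpr hX)
  have hr1 : 1 ≤ r := by
    by_contra hc
    have h0 : r = 0 := by omega
    rw [h0] at hr
    have : 1 ≤ (r₀ + 1) ^ 20 := Nat.one_le_pow _ _ (by omega)
    have h2 : (0 + 1) ^ 20 = 1 := by norm_num
    rw [h2] at hr
    exact absurd (lt_of_lt_of_le hr this) (not_lt.mpr hX)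
  refine ⟨r, hrr, ?_, ?_⟩
  · have := hmin (r - 1) (by omega)
    rw [not_lt, Nat.sub_add_cancel hr1] at this
    exact this
  · calc X ≤ (r + 1) ^ 20 := hr.le
      _ ≤ (2 * r) ^ 20 := Nat.pow_le_pow_left (by omega) _
      _ = 2 ^ 20 * r ^ 20 := by rw [mul_pow]

lemma final_ineq {c₀ ε c p n L r X : ℝ} (hc₀ : 0 < c₀) (hε : 0 < ε) (hc : c ≤ r) (hc0 : 0 ≤ c)
    (hp : p ≤ r ^ 9) (hp0 : 0 ≤ p) (hr : 0 ≤ r) (hL : L ≤ c₀ * (ε / 2) * r) (hL0 : 0 ≤ L)
    (hX : r ^ 20 ≤ X) (hn : ε / 2 * X ≤ n) : c * p ^ 2 * L ≤ c₀ * n := by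
  calc c * p ^ 2 * L ≤ r * (r ^ 9) ^ 2 * (c₀ * (ε / 2) * r) := by gcongr
    _ = c₀ * (ε / 2 * r ^ 20) := by ring
    _ ≤ c₀ * (ε / 2 * X) := by gcongr
    _ ≤ c₀ * n := by gcongr

lemma log_le {n r : ℕ} (hn : 1 ≤ n) (hr : 2 ≤ r) (h : n ≤ 2 ^ 20 * r ^ 20) :
    Real.log n ≤ 40 * Real.log r := by
  have h2 : n ≤ r ^ 40 := by
    calc n ≤ 2 ^ 20 * r ^ 20 := h
      _ ≤ r ^ 20 * r ^ 20 := Nat.mul_le_mul_right _ (Nat.pow_le_pow_left hr _)
      _ = r ^ 40 := by rw [← pow_add]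
  have h3 : (n : ℝ) ≤ (r : ℝ) ^ 40 := by exact_mod_cast h2
  have h4 : (0 : ℝ) < n := by exact_mod_cast hn
  clear h h2
  calc Real.log n ≤ Real.log ((r : ℝ) ^ 40) := Real.log_le_log h4 h3
    _ = 40 * Real.log r := by rw [Real.log_pow]; norm_num

lemma cube {n r m : ℕ} (hr : 64 ≤ r) (hm : 2 * r ^ 8 ≤ m) (h : n ≤ 2 ^ 20 * r ^ 20) :
    n < (m + 1) ^ 3 := by
  have h3 : 2 ^ 17 ≤ r ^ 4 := by
    calc 2 ^ 17 ≤ 64 ^ 4 := by norm_num
      _ ≤ r ^ 4 := Nat.pow_le_pow_left hr _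
  calc n ≤ 2 ^ 20 * r ^ 20 := h
    _ = 2 ^ 17 * (8 * r ^ 20) := by ring
    _ ≤ r ^ 4 * (8 * r ^ 20) := Nat.mul_le_mul_right _ h3
    _ = (2 * r ^ 8) ^ 3 := by ring
    _ ≤ m ^ 3 := Nat.pow_le_pow_left hm _
    _ < (m + 1) ^ 3 := Nat.pow_lt_pow_left (by omega) (by norm_num)

end AP

open Finset Filter in
open scoped Classical in
/-- MODULE APRIME. -/
theorem aprime (c₀ ε : ℝ) (hc : 0 < c₀) (hε : 0 < ε) : ∃ X₀ : ℕ, ∀ X : ℕ, X₀ ≤ X →
    (((Icc 1 X).filter (fun n => Odd n ∧ ¬ ∃ p c : ℕ, GoodPrime c₀ n p c)).card : ℝ) ≤ ε * X := by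
  have hlog : ∀ᶠ r : ℕ in atTop, 40 * Real.log r ≤ c₀ * (ε / 2) * r := by
    have := (Real.isLittleO_log_id_atTop.bound
      (show (0 : ℝ) < c₀ * (ε / 2) / 40 by positivity)).filter_mono tendsto_natCast_atTop_atTop
    rw [eventually_map] at this
    filter_upwards [this, eventually_ge_atTop 1] with r hr hr1
    have h0 : (0 : ℝ) ≤ Real.log r := Real.log_nonneg (by exact_mod_cast hr1)
    rw [Real.norm_eq_abs, abs_of_nonneg h0, id, Real.norm_eq_abs, abs_of_nonneg (by positivity)] at hr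
    linarith
  obtain ⟨r₀, hr₀⟩ := eventually_atTop.mp
    (((AP.A_lower.and (AP.small_err (ε / 2) (by positivity))).and hlog).and
      (eventually_ge_atTop 64))
  refine ⟨(r₀ + 1) ^ 20, ?_⟩
  intro X hX
  obtain ⟨r, hrr, hr1, hr2⟩ := AP.exists_root r₀ X hX
  obtain ⟨⟨⟨hA, herr⟩, hlg⟩, h64⟩ := hr₀ r hrr
  have hrR : (64 : ℝ) ≤ r := by exact_mod_cast h64
  have hr0 : (0 : ℝ) < r := by linarith
  have hXr : (r : ℝ) ^ 20 ≤ X := by exact_mod_cast hr1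
  have hX0 : (0 : ℝ) < X := lt_of_lt_of_le (by positivity) hXr
  have hZ := AP.zero_count h64 hr1 hr2 hA
  have hsub : (Icc 1 X).filter (fun n => Odd n ∧ ¬ ∃ p c : ℕ, GoodPrime c₀ n p c) ⊆
      Icc 1 ⌊ε / 2 * X⌋₊ ∪ (Icc 1 X).filter (fun n => AP.N r n = 0) := by
    intro n hn
    rw [mem_filter, mem_Icc] at hn
    obtain ⟨⟨hn1, hn2⟩, -, hn3⟩ := hn
    rw [mem_union, mem_Icc, mem_filter, mem_Icc]
    by_contra hcon
    push Not at hcon
    obtain ⟨hc1, hc2⟩ := hcon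
    have hnbig : ε / 2 * X < n := by
      have := hc1 hn1
      exact (Nat.floor_lt (by positivity)).mp this
    have hN := hc2 ⟨hn1, hn2⟩
    rw [AP.N, Ne, card_eq_zero, filter_eq_empty_iff] at hN
    push Not at hN
    obtain ⟨m, hm, hg⟩ := hN
    obtain ⟨a1, a2, a3, a4⟩ := AP.mem_T (by omega) hm
    obtain ⟨hsq, c, hcr, hsum⟩ := hg
    apply hn3
    have hr8 : r ≤ r ^ 8 := by
      calc r = r ^ 1 := (pow_one r).symm
        _ ≤ r ^ 8 := Nat.pow_le_pow_right (by omega) (by norm_num)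
    have hnX := hn2.trans hr2
    refine ⟨m + 1, c, a3, by omega, hsq, AP.cube h64 a1 hnX, by omega, hsum, ?_⟩
    have b1 : (c : ℝ) ≤ r := by exact_mod_cast hcr
    have b2 : (((m + 1 : ℕ)) : ℝ) ≤ (r : ℝ) ^ 9 := by
      have : m + 1 ≤ r ^ 9 := by omega
      exact_mod_cast this
    exact AP.final_ineq hc hε b1 (by positivity) b2 (by positivity) hr0.le
      ((AP.log_le hn1 (by omega) hnX).trans hlg)
      (Real.log_nonneg (by exact_mod_cast hn1)) hXr hnbig.le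
  calc (((Icc 1 X).filter (fun n => Odd n ∧ ¬ ∃ p c : ℕ, GoodPrime c₀ n p c)).card : ℝ)
      ≤ ((Icc 1 ⌊ε / 2 * X⌋₊ ∪ (Icc 1 X).filter (fun n => AP.N r n = 0)).card : ℝ) := by
        exact_mod_cast card_le_card hsub
    _ ≤ ((Icc 1 ⌊ε / 2 * X⌋₊).card : ℝ) + (((Icc 1 X).filter (fun n => AP.N r n = 0)).card : ℝ) := by
        exact_mod_cast card_union_le _ _
    _ ≤ ε / 2 * X + X * (ε / 2) := by
        refine add_le_add ?_ (hZ.trans ?_)
        · rw [Nat.card_Icc, Nat.add_sub_cancel]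
          exact Nat.floor_le (by positivity)
        · exact mul_le_mul_of_nonneg_left herr hX0.le
    _ = ε * X := by ring

end Pool.Agent.BernIrr
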