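import Mathlib
import Pool.Agent.BernIrr.Defs
import Pool.Agent.CoprimeSieve.Mertens

/-!
A discrete maximal inequality and the mean value of `Zf`.
-/

namespace Pool.Agent.BernIrr

open Finset

open scoped Classical in
/-- one-sided discrete maximal inequality with constant one -/
theorem maximal (z : ℕ → ℝ) (hz : ∀ i, 0 ≤ z i) {lam : ℝ} (hlam : 0 < lam) (K : ℕ) :
    lam * (((Icc 1 K).filter (fun k => ∃ j, 1 ≤ j ∧ j ≤ k ∧
      lam * j ≤ ∑ i ∈ range j, z (k - i))).card : ℝ) ≤ ∑ k ∈ Icc 1 K, z k := by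
  induction K using Nat.strong_induction_on with
  | _ K ih =>
    rcases Nat.eq_zero_or_pos K with rfl | hK
    · simp
    by_cases hP : ∃ j, 1 ≤ j ∧ j ≤ K ∧ lam * j ≤ ∑ i ∈ range j, z (K - i)
    · obtain ⟨j, hj1, hjK, hj⟩ := hP
      have h1 := ih (K - j) (by omega)
      have hsum : ∑ k ∈ Icc 1 K, z k = ∑ k ∈ Icc 1 (K - j), z k + ∑ i ∈ range j, z (K - i) := by
        have e1 : ∑ i ∈ range j, z (K - i) = ∑ k ∈ Ioc (K - j) K, z k := by
          refine Finset.sum_nbij' (fun i => K - i) (fun k => K - k) ?_ ?_ ?_ ?_ ?_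
          · intro i hi
            simp only [mem_range, mem_Ioc] at hi ⊢
            omega
          · intro k hk
            simp only [mem_range, mem_Ioc] at hk ⊢
            omega
          · intro i hi
            simp only [mem_range] at hi ⊢
            omega
          · intro k hk
            simp only [mem_Ioc] at hk ⊢
            omega
          · intro i hi
            rfl
        rw [e1]
        have e2 : Icc 1 K = Icc 1 (K - j) ∪ Ioc (K - j) K := by
          ext k
          simp only [mem_Icc, mem_union, mem_Ioc]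
          omega
        rw [e2, sum_union]
        rw [Finset.disjoint_left]
        intro k hk hk'
        simp only [mem_Icc, mem_Ioc] at hk hk'
        omega
      have hcard : (((Icc 1 K).filter (fun k => ∃ j, 1 ≤ j ∧ j ≤ k ∧
          lam * j ≤ ∑ i ∈ range j, z (k - i))).card : ℝ) ≤
          (((Icc 1 (K - j)).filter (fun k => ∃ j, 1 ≤ j ∧ j ≤ k ∧
          lam * j ≤ ∑ i ∈ range j, z (k - i))).card : ℝ) + j := by
        have h2 : ((Icc 1 K).filter (fun k => ∃ j, 1 ≤ j ∧ j ≤ k ∧
          lam * j ≤ ∑ i ∈ range j, z (k - i))) ⊆ ((Icc 1 (K - j)).filter (fun k => ∃ j, 1 ≤ j ∧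
            j ≤ k ∧ lam * j ≤ ∑ i ∈ range j, z (k - i))) ∪ Ioc (K - j) K := by
          intro k hk
          rw [mem_filter] at hk
          rw [mem_union, mem_filter]
          by_cases hkj : k ≤ K - j
          · left
            exact ⟨by rw [mem_Icc] at hk ⊢; omega, hk.2⟩
          · right
            rw [mem_Ioc]
            have := mem_Icc.1 hk.1
            omega
        have h3 := (card_le_card h2).trans (card_union_le _ _)
        rw [Nat.card_Ioc] at h3
        have h4 : K - (K - j) = j := by omega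
        rw [h4] at h3
        exact_mod_cast h3
      rw [hsum]
      calc _ ≤ lam * ((((Icc 1 (K - j)).filter (fun k => ∃ j, 1 ≤ j ∧ j ≤ k ∧
          lam * j ≤ ∑ i ∈ range j, z (k - i))).card : ℝ) + j) := by
            exact mul_le_mul_of_nonneg_left hcard hlam.le
        _ ≤ _ := by
            rw [mul_add]
            exact add_le_add h1 hj
    · have h1 := ih (K - 1) (by omega)
      have e2 : Icc 1 K = insert K (Icc 1 (K - 1)) := by
        ext k
        simp only [mem_Icc, mem_insert]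
        omega
      rw [e2, filter_insert, if_neg hP, sum_insert (by simp; omega)]
      have := hz K
      linarith

/-- the mean value of `Zf` over the even numbers -/
theorem sum_Zf : ∃ C : ℝ, 0 ≤ C ∧ ∀ K : ℕ, 1 ≤ K →
    ∑ k ∈ Icc 1 K, Zf (2 * k) ≤ 2 * K * (Real.log (2 * K) + C) := by
  obtain ⟨C0, hC0, hM⟩ := Pool.Agent.CoprimeSieve.mertens_first
  set C1 : ℝ := ∑' n : ℕ, 4 * (1 / (n:ℝ) ^ (3/2 : ℝ)) with hC1
  have hC1n : 0 ≤ C1 := tsum_nonneg (fun n => by positivity)
  have hl2 := Real.log_nonneg (show (1:ℝ) ≤ 2 by norm_num)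
  refine ⟨C0 + C1 + Real.log 2, by positivity, ?_⟩
  intro K hK
  have hK0 : (0:ℝ) < K := by exact_mod_cast hK
  have hnn : ∀ p : ℕ, 0 ≤ Real.log p := fun p => Real.log_natCast_nonneg p
  set P := (Pool.Agent.CoprimeSieve.pr ((2 * K + 1 : ℕ) : ℝ)).filter (fun p => p ≠ 2) with hP
  have hmemP : ∀ p, p ∈ P ↔ p.Prime ∧ p ≤ 2 * K + 1 ∧ p ≠ 2 := by
    intro p
    rw [hP, mem_filter, Pool.Agent.CoprimeSieve.mem_pr]
    constructor
    · rintro ⟨⟨h1, h2⟩, h3⟩
      exact ⟨h1, by exact_mod_cast h2, h3⟩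
    · rintro ⟨h1, h2, h3⟩
      exact ⟨⟨h1, by exact_mod_cast h2⟩, h3⟩
  have h1 : ∀ k ∈ Icc 1 K, Zf (2 * k) ≤ ∑ p ∈ P, if (p - 1) ∣ 2 * k then Real.log p else 0 := by
    intro k hk
    rw [mem_Icc] at hk
    rw [← sum_filter]
    unfold Zf
    refine Finset.sum_le_sum_of_subset_of_nonneg ?_ (fun p _ _ => hnn p)
    intro p hp
    simp only [mem_filter, mem_range] at hp
    rw [mem_filter, hmemP]
    exact ⟨⟨hp.2.1, by omega, hp.2.2.1⟩, hp.2.2.2⟩
  refine (sum_le_sum h1).trans ?_
  rw [sum_comm]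
  have h2 : ∀ p ∈ P, ∑ k ∈ Icc 1 K, (if (p - 1) ∣ 2 * k then Real.log p else 0) ≤
      2 * K * (Real.log p / p + Real.log p / ((p : ℝ) * (p - 1))) := by
    intro p hp
    rw [hmemP] at hp
    obtain ⟨hpp, hple, hp2⟩ := hp
    obtain ⟨a, ha⟩ := hpp.odd_of_ne_two hp2
    have htwo := hpp.two_le
    have ha0 : 0 < a := by omega
    rw [← sum_filter, sum_const, nsmul_eq_mul]
    have hcard : ((Icc 1 K).filter (fun k => (p - 1) ∣ 2 * k)).card = K / a := by
      rw [← Nat.Ioc_filter_dvd_card_eq_div]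
      congr 1
      ext k
      simp only [mem_filter, mem_Icc, mem_Ioc]
      have : p - 1 = 2 * a := by omega
      rw [this]
      constructor
      · rintro ⟨h3, h4⟩
        exact ⟨by omega, Nat.dvd_of_mul_dvd_mul_left (by norm_num) h4⟩
      · rintro ⟨h3, h4⟩
        exact ⟨by omega, Nat.mul_dvd_mul_left 2 h4⟩
    rw [hcard]
    have h3 : ((K / a : ℕ) : ℝ) ≤ 2 * K / ((p : ℝ) - 1) := by
      have h4 : (p : ℝ) - 1 = 2 * a := by rw [ha]; push_cast; ring
      rw [h4]
      have h5 : ((K / a : ℕ) : ℝ) ≤ (K : ℝ) / a := Nat.cast_div_le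
      refine h5.trans (le_of_eq ?_)
      have : (a : ℝ) ≠ 0 := by exact_mod_cast ha0.ne'
      field_simp
    refine (mul_le_mul_of_nonneg_right h3 (hnn p)).trans (le_of_eq ?_)
    have h8 : (p:ℝ) ≠ 0 := by
      have := hpp.ne_zero
      exact_mod_cast this
    have h9 : (p:ℝ) - 1 ≠ 0 := by
      have : (2:ℝ) ≤ p := by exact_mod_cast htwo
      linarith
    field_simp
    ring
  refine (sum_le_sum h2).trans ?_
  rw [← mul_sum, sum_add_distrib]
  have h3 : ∑ p ∈ P, Real.log p / p ≤ Real.log (2 * K) + Real.log 2 + C0 := by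
    have h4 : ∑ p ∈ P, Real.log p / p ≤ Pool.Agent.CoprimeSieve.mE ((2 * K + 1 : ℕ) : ℝ) := by
      unfold Pool.Agent.CoprimeSieve.mE
      refine Finset.sum_le_sum_of_subset_of_nonneg (filter_subset _ _)
        (fun p _ _ => div_nonneg (hnn p) (Nat.cast_nonneg p))
    have h5 := hM ((2 * K + 1 : ℕ) : ℝ) (by push_cast; linarith)
    rw [abs_le] at h5
    have h6 : Real.log ((2 * K + 1 : ℕ) : ℝ) ≤ Real.log (2 * K) + Real.log 2 := by
      rw [← Real.log_mul (by positivity) (by norm_num)]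
      apply Real.log_le_log (by positivity)
      push_cast
      have : (1 : ℝ) ≤ K := by exact_mod_cast hK
      linarith
    linarith [h5.2]
  have h4 : ∑ p ∈ P, Real.log p / ((p : ℝ) * (p - 1)) ≤ C1 := by
    calc ∑ p ∈ P, Real.log p / ((p:ℝ) * (p - 1)) ≤ ∑ p ∈ P, 4 * (1 / (p:ℝ) ^ (3/2 : ℝ)) := by
          apply Finset.sum_le_sum
          intro p hp
          exact Pool.Agent.CoprimeSieve.log_div_le p ((hmemP p).1 hp).1.two_le
      _ ≤ _ := Summable.sum_le_tsum _ (fun n _ => by positivity) Pool.Agent.CoprimeSieve.summable_aux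
  have h5 : (0:ℝ) ≤ 2 * K := by positivity
  apply mul_le_mul_of_nonneg_left _ h5
  linarith

end Pool.Agent.BernIrr
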