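import Mathlib
import Pool.Agent.BernIrr.Det
import Pool.Agent.BernIrr.Max

/-!
The counting argument.
-/

namespace Pool.Agent.BernIrr

open Polynomial Finset

/-- the set counted -/
def IrrR (n : ℕ) : Prop :=
  ∃ R : ℚ[X], Polynomial.bernoulli n = X * (X - C (1 / 2)) * (X - 1) * R ∧ Irreducible R

/-- conclusion of EW -/
def EWStmt : Prop := ∀ (ε η : ℝ), 0 < ε → 0 < η → ∃ X₀ : ℕ, ∀ X : ℕ, X₀ ≤ X →
    (((Icc 1 X).filter (fun m => Even m ∧ η * Real.log X ≤ Zf m)).card : ℝ) ≤ ε * X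

open scoped Classical in
/-- conclusion of APRIME -/
def APrimeStmt (c₀ : ℝ) : Prop := ∀ (ε : ℝ), 0 < ε → ∃ X₀ : ℕ, ∀ X : ℕ, X₀ ≤ X →
    (((Icc 1 X).filter (fun n => Odd n ∧ ¬ ∃ p c : ℕ, GoodPrime c₀ n p c)).card : ℝ) ≤ ε * X

lemma card_odd (X : ℕ) : (X : ℝ) / 2 ≤ (((Icc 1 X).filter (fun n => Odd n)).card : ℝ) := by
  have h1 : (range ((X + 1) / 2)).card ≤ ((Icc 1 X).filter (fun n => Odd n)).card := by
    apply Finset.card_le_card_of_injOn (fun k => 2 * k + 1)
    · intro k hk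
      simp only [coe_range, Set.mem_Iio] at hk
      simp only [coe_filter, mem_Icc, Set.mem_ofPred_eq]
      exact ⟨by omega, ⟨k, rfl⟩⟩
    · intro a _ b _ hab
      simp only at hab
      omega
  rw [card_range] at h1
  have h2 : X ≤ 2 * ((Icc 1 X).filter (fun n => Odd n)).card := by omega
  have : (X : ℝ) ≤ 2 * (((Icc 1 X).filter (fun n => Odd n)).card : ℝ) := by exact_mod_cast h2
  linarith

lemma arith1 {δ C L t : ℝ} (hδ0 : 0 < δ) (hδ1 : δ ≤ 1) (hC0 : 0 ≤ C) (ht : t < 0)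
    (h : 100 * (C + 1 - t) < δ * L) (hLt : 0 < L + t) :
    L + C ≤ (16 / 3 - δ) * (L + t) * (3 / 16 + δ / 10) := by
  have h1 : 1 + δ / 5 ≤ (16 / 3 - δ) * (3 / 16 + δ / 10) := by nlinarith
  have h2 : (1 + δ / 5) * (L + t) ≤ (16 / 3 - δ) * (3 / 16 + δ / 10) * (L + t) :=
    mul_le_mul_of_nonneg_right h1 hLt.le
  have h3 : 2 * t ≤ (1 + δ / 5) * t := by nlinarith
  have h4 : (1 + δ / 5) * (L + t) = L + (δ * L) / 5 + (1 + δ / 5) * t := by ring
  have h5 : (16 / 3 - δ) * (L + t) * (3 / 16 + δ / 10) =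
    (16 / 3 - δ) * (3 / 16 + δ / 10) * (L + t) := by ring
  rw [h5]
  refine le_trans ?_ h2
  rw [h4]
  linarith

open scoped Classical in
theorem count {c₀ : ℝ} (hc₀ : 0 < c₀) {n₀ : ℕ} (hA : ArchStmt c₀ n₀) (hEW : EWStmt)
    (hAP : APrimeStmt c₀) (ε : ℝ) (hε : 0 < ε) : ∃ X₀ : ℕ, ∀ X : ℕ, X₀ ≤ X →
    (5 / 8 - ε) * ((X : ℝ) / 2) ≤ (((Icc 1 X).filter (fun n => Odd n ∧ IrrR n)).card : ℝ) := by
  obtain ⟨δ, hδ0, hδ1, hδε⟩ : ∃ δ : ℝ, 0 < δ ∧ δ ≤ 1 ∧ δ ≤ ε :=
    ⟨min 1 ε, lt_min one_pos hε, min_le_left _ _, min_le_right _ _⟩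
  obtain ⟨K, η, n₁, hη, hK1, hdet⟩ := det hc₀ hA hδ0 hδ1
  have hK0 : (0 : ℝ) < K := by exact_mod_cast hK1
  obtain ⟨XE, hXE⟩ := hEW (δ / 10 / K) (η / 2) (by positivity) (by positivity)
  obtain ⟨XA, hXA⟩ := hAP (δ / 10) (by positivity)
  obtain ⟨C, hC0, hC⟩ := sum_Zf
  -- threshold for X
  obtain ⟨X₂, hX₂⟩ := exists_nat_gt (Real.exp (100 * (C + 1 - Real.log (δ / 10)) / δ))
  obtain ⟨X₃, hX₃⟩ := exists_nat_gt ((n₁ + 2 * K + 7 : ℝ) * 10 / δ)
  refine ⟨max (max XE XA) (max X₂ X₃), ?_⟩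
  intro X hX
  have hX1 : XE ≤ X := (le_max_left _ _).trans ((le_max_left _ _).trans hX)
  have hX2 : XA ≤ X := (le_max_right _ _).trans ((le_max_left _ _).trans hX)
  have hX3 : X₂ ≤ X := (le_max_left _ _).trans ((le_max_right _ _).trans hX)
  have hX4 : X₃ ≤ X := (le_max_right _ _).trans ((le_max_right _ _).trans hX)
  have hθ : Real.log (δ / 10) < 0 := Real.log_neg (by positivity) (by linarith)
  set M : ℝ := C + 1 - Real.log (δ / 10) with hM
  have hM0 : 0 < M := by rw [hM]; linarith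
  have hX0 : (0 : ℝ) < X := by
    have : (0 : ℝ) < X₂ := (Real.exp_pos _).trans hX₂
    refine this.trans_le ?_
    exact_mod_cast hX3
  set L := Real.log X with hL
  have hLM : 100 * M / δ < L := by
    rw [hL, Real.lt_log_iff_exp_lt hX0]
    refine lt_of_lt_of_le hX₂ ?_
    exact_mod_cast hX3
  have hLM' : 100 * M < δ * L := by
    rw [div_lt_iff₀ hδ0] at hLM
    linarith
  have hL0 : 0 < L := lt_trans (by positivity) hLM
  have hXbig : (n₁ + 2 * K + 7 : ℝ) < δ / 10 * X := by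
    have h1 : (n₁ + 2 * K + 7 : ℝ) * 10 / δ < X := lt_of_lt_of_le hX₃ (by exact_mod_cast hX4)
    rw [div_lt_iff₀ hδ0] at h1
    linarith
  -- bad sets
  set A := (Icc 1 X).filter (fun n => Odd n) with hAdef
  set I := (Icc 1 X).filter (fun n => Odd n ∧ IrrR n) with hI
  set B0 := (Icc 1 X).filter (fun n : ℕ => (n : ℝ) ≤ δ / 10 * X) with hB0
  set B1 := (Icc 1 X).filter (fun n => Odd n ∧ ¬ ∃ p c : ℕ, GoodPrime c₀ n p c) with hB1
  set E := (Icc 1 X).filter (fun m => Even m ∧ η / 2 * L ≤ Zf m) with hE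
  set B2 := (range K).biUnion (fun j => E.image (fun m => m + 1 + 2 * j)) with hB2
  set lam : ℝ := (16 / 3 - δ) * (L + Real.log (δ / 10)) with hlam
  have hLθ : 0 < L + Real.log (δ / 10) := by
    have : 100 * M < L := lt_of_lt_of_le hLM' (by nlinarith)
    rw [hM] at this
    linarith
  have hlam0 : 0 < lam := mul_pos (by linarith) hLθ
  set MM := (Icc 1 (X / 2)).filter (fun k => ∃ j, 1 ≤ j ∧ j ≤ k ∧
      lam * j ≤ ∑ i ∈ range j, Zf (2 * (k - i))) with hMM
  set B3 := MM.image (fun k => 2 * k + 1) with hB3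
  have hsub : A ⊆ I ∪ (B0 ∪ (B1 ∪ (B2 ∪ B3))) := by
    intro n hn
    rw [hAdef, mem_filter] at hn
    obtain ⟨hnX, hodd⟩ := hn
    simp only [mem_union]
    by_contra hcon
    push Not at hcon
    obtain ⟨c1, c2, c3, c4, c5⟩ := hcon
    apply c1
    rw [hI, mem_filter]
    refine ⟨hnX, hodd, ?_⟩
    have hnbig : δ / 10 * X < n := by
      by_contra h0
      exact c2 (by rw [hB0, mem_filter]; exact ⟨hnX, not_lt.1 h0⟩)
    have hnn : n₁ + 2 * K + 7 < n := by
      have : ((n₁ + 2 * K + 7 : ℕ) : ℝ) < n := by push_cast; linarith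
      exact_mod_cast this
    have hn0 : (0 : ℝ) < n := by
      have : 0 < n := by omega
      exact_mod_cast this
    rw [mem_Icc] at hnX
    have hlogn : L + Real.log (δ / 10) ≤ Real.log n := by
      rw [hL, ← Real.log_mul hX0.ne' (by positivity)]
      apply Real.log_le_log (by positivity)
      linarith
    have hlogn' : L / 2 ≤ Real.log n := by
      have : 100 * M < L := lt_of_lt_of_le hLM' (by nlinarith)
      rw [hM] at this
      linarith
    apply hdet n (by omega) hodd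
    · by_contra hg
      exact c3 (by rw [hB1, mem_filter]; exact ⟨mem_Icc.2 hnX, hodd, hg⟩)
    · intro j hj
      by_contra hZ
      rw [not_lt] at hZ
      apply c4
      rw [hB2, mem_biUnion]
      refine ⟨j, mem_range.2 hj, ?_⟩
      rw [mem_image]
      refine ⟨n - 1 - 2 * j, ?_, by omega⟩
      rw [hE, mem_filter, mem_Icc]
      refine ⟨⟨by omega, by omega⟩, ?_, ?_⟩
      · obtain ⟨b, hb⟩ := hodd
        exact ⟨b - j, by omega⟩
      · refine le_trans ?_ hZ
        have : η * (L / 2) ≤ η * Real.log n := mul_le_mul_of_nonneg_left hlogn' hη.le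
        linarith
    · intro j hj1 hj2
      by_contra hZ
      rw [not_lt] at hZ
      apply c5
      obtain ⟨b, hb⟩ := hodd
      rw [hB3, mem_image]
      refine ⟨b, ?_, by omega⟩
      rw [hMM, mem_filter, mem_Icc]
      refine ⟨by omega, j, hj1, by omega, ?_⟩
      have e1 : ∑ i ∈ range j, Zf (2 * (b - i)) = ∑ i ∈ range j, Zf (n - 1 - 2 * i) := by
        apply sum_congr rfl
        intro i hi
        congr 1
        omega
      rw [e1]
      refine le_trans ?_ hZ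
      apply mul_le_mul_of_nonneg_right _ (Nat.cast_nonneg j)
      rw [hlam]
      apply mul_le_mul_of_nonneg_left hlogn
      linarith
  have hcard : (A.card : ℝ) ≤ I.card + (B0.card + (B1.card + (B2.card + B3.card))) := by
    have h1 := (card_le_card hsub).trans (card_union_le _ _)
    have h2 := card_union_le B0 (B1 ∪ (B2 ∪ B3))
    have h3 := card_union_le B1 (B2 ∪ B3)
    have h4 := card_union_le B2 B3
    have : A.card ≤ I.card + (B0.card + (B1.card + (B2.card + B3.card))) := by omega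
    exact_mod_cast this
  have hA2 := card_odd X
  rw [← hAdef] at hA2
  have b0 : (B0.card : ℝ) ≤ δ / 10 * X := by
    have h1 : B0 ⊆ Icc 1 ⌊δ / 10 * X⌋₊ := by
      intro n hn
      rw [hB0, mem_filter, mem_Icc] at hn
      rw [mem_Icc]
      exact ⟨hn.1.1, Nat.le_floor hn.2⟩
    have h2 := card_le_card h1
    rw [Nat.card_Icc, Nat.add_sub_cancel] at h2
    have h3 : ((⌊δ / 10 * X⌋₊ : ℕ) : ℝ) ≤ δ / 10 * X := Nat.floor_le (by positivity)
    exact le_trans (by exact_mod_cast h2) h3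
  have b1 : (B1.card : ℝ) ≤ δ / 10 * X := hXA X hX2
  have b2 : (B2.card : ℝ) ≤ δ / 10 * X := by
    have h1 : B2.card ≤ K * E.card := by
      calc B2.card ≤ ∑ j ∈ range K, (E.image (fun m => m + 1 + 2 * j)).card := card_biUnion_le
        _ ≤ ∑ j ∈ range K, E.card := sum_le_sum fun j _ => card_image_le
        _ = K * E.card := by rw [sum_const, card_range, smul_eq_mul]
    have h2 : (E.card : ℝ) ≤ δ / 10 / K * X := hXE X hX1
    calc (B2.card : ℝ) ≤ K * E.card := by exact_mod_cast h1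
      _ ≤ K * (δ / 10 / K * X) := mul_le_mul_of_nonneg_left h2 hK0.le
      _ = δ / 10 * X := by field_simp
  have b3 : (B3.card : ℝ) ≤ (3 / 16 + δ / 10) * X := by
    have h1 : (B3.card : ℝ) ≤ MM.card := by exact_mod_cast card_image_le
    have hXX : 2 ≤ X := by
      have : ((7 : ℕ) : ℝ) < X := by
        push_cast
        have h1 : δ / 10 * X ≤ X := by nlinarith
        have h2 : (0 : ℝ) ≤ n₁ := Nat.cast_nonneg _
        linarith
      have : 7 < X := by exact_mod_cast this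
      omega
    have h2 : lam * (MM.card : ℝ) ≤ ∑ k ∈ Icc 1 (X / 2), Zf (2 * k) :=
      maximal (fun k => Zf (2 * k)) (fun k => Zf_nonneg _) hlam0 (X / 2)
    have h3 := hC (X / 2) (by omega)
    have h4 : (2 : ℝ) * ((X / 2 : ℕ) : ℝ) ≤ X := by
      have : 2 * (X / 2) ≤ X := by omega
      exact_mod_cast this
    have h40 : (0 : ℝ) < 2 * ((X / 2 : ℕ) : ℝ) := by
      have : 0 < X / 2 := by omega
      have : (0 : ℝ) < ((X / 2 : ℕ) : ℝ) := by exact_mod_cast this
      linarith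
    have h5 : 2 * ((X / 2 : ℕ) : ℝ) * (Real.log (2 * ((X / 2 : ℕ) : ℝ)) + C) ≤ X * (L + C) := by
      have h6 : Real.log (2 * ((X / 2 : ℕ) : ℝ)) ≤ L := Real.log_le_log h40 h4
      calc 2 * ((X / 2 : ℕ) : ℝ) * (Real.log (2 * ((X / 2 : ℕ) : ℝ)) + C)
          ≤ 2 * ((X / 2 : ℕ) : ℝ) * (L + C) := by
            apply mul_le_mul_of_nonneg_left _ h40.le
            linarith
        _ ≤ X * (L + C) := by
            apply mul_le_mul_of_nonneg_right h4
            linarith
    have h7 : lam * (MM.card : ℝ) ≤ X * (L + C) := h2.trans (h3.trans h5)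
    have h8 : X * (L + C) ≤ lam * ((3 / 16 + δ / 10) * X) := by
      have h9 : L + C ≤ lam * (3 / 16 + δ / 10) := by
        rw [hlam]
        exact arith1 hδ0 hδ1 hC0 hθ hLM' hLθ
      calc X * (L + C) ≤ X * (lam * (3 / 16 + δ / 10)) := mul_le_mul_of_nonneg_left h9 hX0.le
        _ = _ := by ring
    have h9 := le_of_mul_le_mul_left (h7.trans h8) hlam0
    exact h1.trans h9
  have hfin : (5 / 8 - ε) * ((X : ℝ) / 2) ≤ (5 / 8 - δ) * ((X : ℝ) / 2) := by
    apply mul_le_mul_of_nonneg_right _ (by positivity)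
    linarith
  refine hfin.trans ?_
  have hδX : 0 < δ * X := by positivity
  nlinarith

end Pool.Agent.BernIrr
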