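import Mathlib
import Pool.Agent.BernIrr.Defs
import Pool.Agent.MertensAP.Main

/-!
Module EW: almost all even `m` have small `Zf m`.
-/

namespace Pool.Agent.BernIrr

open Finset

/-- The multiplicative weight attached to a finite set of primes. -/
noncomputable def Fw (L : Finset ℕ) (t : ℕ → ℝ) (k : ℕ) : ℝ :=
  ∏ l ∈ L, (if l ∣ k then t l else 1)

lemma prod_dvd_iff (S : Finset ℕ) (hS : ∀ l ∈ S, l.Prime) (k : ℕ) :
    (∏ l ∈ S, l) ∣ k ↔ ∀ l ∈ S, l ∣ k := by
  constructor
  · intro h l hl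
    exact (Finset.dvd_prod_of_mem _ hl).trans h
  · intro h
    exact Finset.prod_primes_dvd k (fun l hl => (hS l hl).prime) h

lemma prod_ite_zero (S : Finset ℕ) (hS : ∀ l ∈ S, l.Prime) (c : ℕ → ℝ) (k : ℕ) :
    ∏ l ∈ S, (if l ∣ k then c l else 0) = if (∏ l ∈ S, l) ∣ k then ∏ l ∈ S, c l else 0 := by
  split_ifs with h
  · rw [prod_dvd_iff S hS] at h
    exact Finset.prod_congr rfl fun l hl => if_pos (h l hl)
  · rw [prod_dvd_iff S hS] at h
    push Not at h
    obtain ⟨l, hl, hlk⟩ := h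
    exact Finset.prod_eq_zero hl (if_neg hlk)

lemma card_dvd (N d : ℕ) : ((Icc 1 N).filter (fun k => d ∣ k)).card = N / d := by
  have := Nat.Ioc_filter_dvd_card_eq_div N d
  rw [← this]
  congr 1

lemma Fw_sum (L : Finset ℕ) (hL : ∀ l ∈ L, l.Prime) (t : ℕ → ℝ)
    (ht : ∀ l ∈ L, |t l - 1| ≤ 1) (N : ℕ) :
    ∑ k ∈ Icc 1 N, Fw L t k ≤ N * ∏ l ∈ L, (1 + (t l - 1) / l) + 2 ^ L.card := by
  have h1 : ∀ k, Fw L t k = ∑ S ∈ L.powerset,
      (if (∏ l ∈ S, l) ∣ k then ∏ l ∈ S, (t l - 1) else 0) := by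
    intro k
    have : Fw L t k = ∏ l ∈ L, (1 + (if l ∣ k then t l - 1 else 0)) := by
      unfold Fw
      refine Finset.prod_congr rfl fun l _ => ?_
      split_ifs <;> ring
    rw [this, Finset.prod_one_add]
    refine Finset.sum_congr rfl fun S hS => ?_
    exact prod_ite_zero S (fun l hl => hL l (Finset.mem_powerset.mp hS hl)) _ k
  simp_rw [h1]
  rw [Finset.sum_comm, Finset.prod_one_add, Finset.mul_sum]
  have h2 : ∀ S ∈ L.powerset, ∑ k ∈ Icc 1 N,
      (if (∏ l ∈ S, l) ∣ k then ∏ l ∈ S, (t l - 1) else 0)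
      ≤ N * ∏ l ∈ S, ((t l - 1) / l) + 1 := by
    intro S hS
    rw [← Finset.sum_filter, Finset.sum_const, card_dvd, nsmul_eq_mul]
    have hSL := Finset.mem_powerset.mp hS
    rw [Finset.prod_div_distrib]
    set A := ∏ l ∈ S, (t l - 1) with hA
    have hA1 : |A| ≤ 1 := by
      rw [hA, Finset.abs_prod]
      exact Finset.prod_le_one (fun _ _ => abs_nonneg _) fun l hl => ht l (hSL hl)
    have hd : (∏ l ∈ S, (l : ℝ)) = ((∏ l ∈ S, l : ℕ) : ℝ) := by push_cast; rfl
    rw [hd]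
    set d := ∏ l ∈ S, l with hdd
    have hdpos : 0 < d := Finset.prod_pos fun l hl => (hL l (hSL hl)).pos
    have hdr : (0 : ℝ) < d := by exact_mod_cast hdpos
    have e1 : ((N / d : ℕ) : ℝ) ≤ (N : ℝ) / d := Nat.cast_div_le
    have e2 : (N : ℝ) / d ≤ ((N / d : ℕ) : ℝ) + 1 := by
      rw [div_le_iff₀ hdr]
      have := Nat.lt_div_mul_add (a := N) hdpos
      have h3 : N < (N / d + 1) * d := by
        calc N < N / d * d + d := this
          _ = (N / d + 1) * d := by ring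
      exact_mod_cast h3.le
    have e3 : (N : ℝ) * (A / d) = (N : ℝ) / d * A := by ring
    rw [e3]
    have e4 : (((N / d : ℕ) : ℝ) - (N : ℝ) / d) * A ≤ 1 := by
      calc (((N / d : ℕ) : ℝ) - (N : ℝ) / d) * A ≤ |(((N / d : ℕ) : ℝ) - (N : ℝ) / d) * A| :=
            le_abs_self _
        _ = |(((N / d : ℕ) : ℝ) - (N : ℝ) / d)| * |A| := abs_mul _ _
        _ ≤ 1 * 1 := by
            apply mul_le_mul _ hA1 (abs_nonneg _) zero_le_one
            rw [abs_le]; constructor <;> linarith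
        _ = 1 := by ring
    linarith
  calc _ ≤ ∑ S ∈ L.powerset, ((N : ℝ) * ∏ l ∈ S, ((t l - 1) / l) + 1) := Finset.sum_le_sum h2
    _ = _ := by
      rw [Finset.sum_add_distrib]
      simp [Finset.card_powerset]

lemma totient_prod (S : Finset ℕ) (hS : ∀ l ∈ S, l.Prime) :
    ((Nat.totient (∏ l ∈ S, l) : ℕ) : ℝ) = ∏ l ∈ S, ((l : ℝ) - 1) := by
  induction S using Finset.induction_on with
  | empty => simp
  | insert a s ha ih =>
    rw [Finset.prod_insert ha, Finset.prod_insert ha]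
    have hap : a.Prime := hS a (Finset.mem_insert_self _ _)
    have hcop : a.Coprime (∏ l ∈ s, l) := by
      refine Nat.Coprime.prod_right fun l hl => ?_
      have hlp : l.Prime := hS l (Finset.mem_insert_of_mem hl)
      rw [Nat.coprime_primes hap hlp]
      rintro rfl
      exact ha hl
    rw [Nat.totient_mul hcop, Nat.totient_prime hap, Nat.cast_mul,
      ih fun l hl => hS l (Finset.mem_insert_of_mem hl), Nat.cast_sub hap.one_le, Nat.cast_one]

lemma mertens_W (L : Finset ℕ) (hL : ∀ l ∈ L, l.Prime) (a b : ℕ → ℝ) :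
    ∃ C : ℝ, 0 ≤ C ∧ ∀ x : ℝ, 1 ≤ x →
      ∑ p ∈ (Icc 1 ⌊x⌋₊).filter Nat.Prime,
        Real.log p / p * ∏ l ∈ L, ((if l ∣ p - 1 then b l else 0) + a l)
        ≤ Real.log x * ∏ l ∈ L, (b l / ((l : ℝ) - 1) + a l) + C := by
  have key : ∀ q : ℕ, ∃ C : ℝ, 0 ≤ C ∧ (1 ≤ q → ∀ x : ℝ, 1 ≤ x →
    |∑ p ∈ (Icc 1 ⌊x⌋₊).filter (fun p : ℕ => p.Prime ∧ p ≡ 1 [MOD q]), Real.log p / p
      - Real.log x / q.totient| ≤ C) := by
    intro q
    by_cases hq : 1 ≤ q
    · obtain ⟨C, hC, h⟩ := Pool.Agent.MertensAP.mertens_ap_mod q hq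
      exact ⟨C, hC, fun _ x hx => h 1 (Nat.coprime_one_left q) x hx⟩
    · exact ⟨0, le_rfl, fun h => absurd h hq⟩
  choose C hC hCm using key
  refine ⟨∑ S ∈ L.powerset, |(∏ l ∈ S, b l) * ∏ l ∈ L \ S, a l| * C (∏ l ∈ S, l),
    Finset.sum_nonneg fun S _ => mul_nonneg (abs_nonneg _) (hC _), fun x hx => ?_⟩
  have e1 : ∀ p ∈ (Icc 1 ⌊x⌋₊).filter Nat.Prime,
      Real.log p / p * ∏ l ∈ L, ((if l ∣ p - 1 then b l else 0) + a l)
      = ∑ S ∈ L.powerset, ((∏ l ∈ S, b l) * ∏ l ∈ L \ S, a l) *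
        (if p ≡ 1 [MOD (∏ l ∈ S, l)] then Real.log p / p else 0) := by
    intro p hp
    have hp' := (Finset.mem_filter.mp hp).2
    rw [Finset.prod_add, Finset.mul_sum]
    refine Finset.sum_congr rfl fun S hS => ?_
    have hSL := Finset.mem_powerset.mp hS
    rw [prod_ite_zero S (fun l hl => hL l (hSL hl))]
    have : p ≡ 1 [MOD (∏ l ∈ S, l)] ↔ (∏ l ∈ S, l) ∣ p - 1 := by
      rw [Nat.ModEq.comm, Nat.modEq_iff_dvd' hp'.one_le]
    simp only [this]
    split_ifs <;> ring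
  rw [Finset.sum_congr rfl e1, Finset.sum_comm, Finset.prod_add, Finset.mul_sum,
    ← Finset.sum_add_distrib]
  refine Finset.sum_le_sum fun S hS => ?_
  have hSL := Finset.mem_powerset.mp hS
  rw [← Finset.mul_sum]
  set A := (∏ l ∈ S, b l) * ∏ l ∈ L \ S, a l with hA
  have hdpos : 0 < ∏ l ∈ S, l := Finset.prod_pos fun l hl => (hL l (hSL hl)).pos
  have h3 := hCm (∏ l ∈ S, l) hdpos x hx
  have e2 : ∑ p ∈ (Icc 1 ⌊x⌋₊).filter Nat.Prime,
      (if p ≡ 1 [MOD (∏ l ∈ S, l)] then Real.log p / p else 0)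
      = ∑ p ∈ (Icc 1 ⌊x⌋₊).filter (fun p : ℕ => p.Prime ∧ p ≡ 1 [MOD (∏ l ∈ S, l)]),
        Real.log p / p := by
    rw [← Finset.sum_filter, Finset.filter_filter]
  rw [e2]
  rw [totient_prod S fun l hl => hL l (hSL hl)] at h3
  set T := ∑ p ∈ (Icc 1 ⌊x⌋₊).filter (fun p : ℕ => p.Prime ∧ p ≡ 1 [MOD (∏ l ∈ S, l)]),
        Real.log p / p with hT
  have e3 : Real.log x * ((∏ l ∈ S, b l / ((l : ℝ) - 1)) * ∏ l ∈ L \ S, a l)
      = A * (Real.log x / ∏ l ∈ S, ((l : ℝ) - 1)) := by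
    rw [Finset.prod_div_distrib, hA]
    ring
  rw [e3]
  have e4 : A * (T - Real.log x / ∏ l ∈ S, ((l : ℝ) - 1)) ≤ |A| * C (∏ l ∈ S, l) := by
    calc _ ≤ |A * (T - Real.log x / ∏ l ∈ S, ((l : ℝ) - 1))| := le_abs_self _
      _ = |A| * |T - Real.log x / ∏ l ∈ S, ((l : ℝ) - 1)| := abs_mul _ _
      _ ≤ _ := mul_le_mul_of_nonneg_left h3 (abs_nonneg _)
  linarith [e4, mul_sub A T (Real.log x / ∏ l ∈ S, ((l : ℝ) - 1))]

lemma Fw_mul (L : Finset ℕ) (hL : ∀ l ∈ L, l.Prime) (v : ℝ) (q k : ℕ) :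
    Fw L (fun _ => v) (q * k) = (∏ l ∈ L, (if l ∣ q then v else 1)) *
      Fw L (fun l => if l ∣ q then 1 else v) k := by
  unfold Fw
  rw [← Finset.prod_mul_distrib]
  refine Finset.prod_congr rfl fun l hl => ?_
  have hp := hL l hl
  simp only [hp.dvd_mul]
  by_cases h1 : l ∣ q <;> by_cases h2 : l ∣ k <;> simp [h1, h2]

lemma sum_mult (X q : ℕ) (hq : 0 < q) (G : ℕ → ℝ) :
    ∑ m ∈ (Icc 1 X).filter (fun m => q ∣ m), G m = ∑ k ∈ Icc 1 (X / q), G (q * k) := by
  symm
  refine Finset.sum_bij (fun k _ => q * k) ?_ ?_ ?_ ?_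
  · intro k hk
    rw [Finset.mem_Icc] at hk
    rw [Finset.mem_filter, Finset.mem_Icc]
    refine ⟨⟨Nat.mul_pos hq hk.1, ?_⟩, dvd_mul_right _ _⟩
    calc q * k ≤ q * (X / q) := Nat.mul_le_mul_left _ hk.2
      _ ≤ X := Nat.mul_div_le _ _
  · intro a _ b _ h
    exact Nat.eq_of_mul_eq_mul_left hq h
  · intro m hm
    rw [Finset.mem_filter, Finset.mem_Icc] at hm
    obtain ⟨⟨h1, h2⟩, k, rfl⟩ := hm
    refine ⟨k, ?_, rfl⟩
    rw [Finset.mem_Icc]
    refine ⟨Nat.pos_of_ne_zero (by rintro rfl; simp at h1), ?_⟩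
    rw [Nat.le_div_iff_mul_le hq]
    linarith [mul_comm q k]
  · intro k _
    rfl

lemma part_b (L : Finset ℕ) (hL : ∀ l ∈ L, l.Prime) (v : ℝ) (hv0 : 0 ≤ v) (hv1 : v ≤ 1) :
    ∃ C : ℝ, 0 ≤ C ∧ ∀ X : ℕ, 1 ≤ X →
      ∑ m ∈ Icc 1 X, Zf m * Fw L (fun _ => v) m ≤
        X * (3 / 2 * (Real.log (X + 1) * ∏ l ∈ L, (1 - 2 * (1 - v) / l) + C))
          + 2 ^ L.card * (Real.log 4 * (X + 1)) := by
  obtain ⟨C, hC, hm⟩ := mertens_W L hL (fun l => 1 - (1 - v) / l) (fun l => v - (1 - (1 - v) / l))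
  refine ⟨C, hC, fun X hX => ?_⟩
  -- unfold Zf and swap
  have e1 : ∀ m ∈ Icc 1 X, Zf m * Fw L (fun _ => v) m =
      ∑ p ∈ (Icc 1 (X + 1)).filter (fun p => p.Prime ∧ p ≠ 2),
        (if (p - 1) ∣ m then Real.log p * Fw L (fun _ => v) m else 0) := by
    intro m hm'
    rw [Finset.mem_Icc] at hm'
    unfold Zf
    rw [Finset.sum_mul, ← Finset.sum_filter, Finset.filter_filter]
    refine Finset.sum_congr ?_ fun _ _ => rfl
    ext p
    simp only [Finset.mem_filter, Finset.mem_range, Finset.mem_Icc]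
    constructor
    · rintro ⟨h1, h2, h3, h4⟩
      exact ⟨⟨h2.one_le, by omega⟩, ⟨h2, h3⟩, h4⟩
    · rintro ⟨⟨h1, h2⟩, ⟨h3, h4⟩, h5⟩
      have := Nat.le_of_dvd hm'.1 h5
      exact ⟨by omega, h3, h4, h5⟩
  rw [Finset.sum_congr rfl e1, Finset.sum_comm]
  have e2 : ∀ p ∈ (Icc 1 (X + 1)).filter (fun p => p.Prime ∧ p ≠ 2),
      ∑ m ∈ Icc 1 X, (if (p - 1) ∣ m then Real.log p * Fw L (fun _ => v) m else 0)
      ≤ X * (3 / 2 * (Real.log p / p * ∏ l ∈ L,
          ((if l ∣ p - 1 then v - (1 - (1 - v) / l) else 0) + (1 - (1 - v) / l))))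
        + 2 ^ L.card * Real.log p := by
    intro p hp
    rw [Finset.mem_filter] at hp
    obtain ⟨_, hpp, hp2⟩ := hp
    have hp3 : 3 ≤ p := by
      have := hpp.two_le
      omega
    have hlog : 0 ≤ Real.log p := Real.log_natCast_nonneg p
    rw [← Finset.sum_filter, ← Finset.mul_sum, sum_mult X (p - 1) (by omega)]
    simp_rw [Fw_mul L hL v]
    rw [← Finset.mul_sum]
    have h1 := Fw_sum L hL (fun l => if l ∣ p - 1 then 1 else v) (by
      intro l _
      split_ifs
      · simp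
      · rw [abs_le]; constructor <;> linarith) (X / (p - 1))
    set P1 := ∏ l ∈ L, (if l ∣ p - 1 then v else 1) with hP1
    set P2 := ∏ l ∈ L, (1 + ((if l ∣ p - 1 then 1 else v) - 1) / (l : ℝ)) with hP2
    have hP1n : 0 ≤ P1 := Finset.prod_nonneg fun l _ => by split_ifs <;> linarith
    have hP11 : P1 ≤ 1 := Finset.prod_le_one (fun l _ => by split_ifs <;> linarith)
      (fun l _ => by split_ifs <;> linarith)
    have hl2 : ∀ l ∈ L, (0 : ℝ) ≤ 1 - (1 - v) / l := by
      intro l hl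
      have : (1 : ℝ) ≤ l := by exact_mod_cast (hL l hl).one_le
      have : (1 - v) / l ≤ 1 := by
        rw [div_le_one (by linarith)]; linarith
      linarith
    have hP2n : 0 ≤ P2 := Finset.prod_nonneg fun l hl => by
      split_ifs
      · simp
      · have := hl2 l hl
        have e : 1 + (v - 1) / (l : ℝ) = 1 - (1 - v) / l := by ring
        rw [e]; exact this
    have hP12 : P1 * P2 = ∏ l ∈ L,
          ((if l ∣ p - 1 then v - (1 - (1 - v) / l) else 0) + (1 - (1 - v) / l)) := by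
      rw [hP1, hP2, ← Finset.prod_mul_distrib]
      refine Finset.prod_congr rfl fun l _ => ?_
      split_ifs
      · ring
      · ring
    rw [← hP12]
    have hp1 : (0 : ℝ) < ((p - 1 : ℕ) : ℝ) := by
      have : 0 < p - 1 := by omega
      exact_mod_cast this
    have hcast : ((p - 1 : ℕ) : ℝ) = (p : ℝ) - 1 := by
      rw [Nat.cast_sub (by omega)]; simp
    have hpr : (3 : ℝ) ≤ p := by exact_mod_cast hp3
    have h2 : ((X / (p - 1) : ℕ) : ℝ) ≤ X * (3 / 2 / p) := by
      calc ((X / (p - 1) : ℕ) : ℝ) ≤ (X : ℝ) / ((p - 1 : ℕ) : ℝ) := Nat.cast_div_le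
        _ = X * (1 / ((p : ℝ) - 1)) := by rw [hcast]; ring
        _ ≤ X * (3 / 2 / p) := by
          apply mul_le_mul_of_nonneg_left _ (Nat.cast_nonneg X)
          rw [div_le_div_iff₀ (by linarith) (by linarith)]
          linarith
    calc Real.log p * (P1 * ∑ k ∈ Icc 1 (X / (p - 1)), Fw L (fun l => if l ∣ p - 1 then 1 else v) k)
        ≤ Real.log p * (P1 * (((X / (p - 1) : ℕ) : ℝ) * P2 + 2 ^ L.card)) := by
          apply mul_le_mul_of_nonneg_left _ hlog
          exact mul_le_mul_of_nonneg_left h1 hP1n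
      _ ≤ Real.log p * (P1 * ((X * (3 / 2 / p)) * P2) + 2 ^ L.card) := by
          apply mul_le_mul_of_nonneg_left _ hlog
          rw [mul_add]
          apply add_le_add
          · apply mul_le_mul_of_nonneg_left _ hP1n
            exact mul_le_mul_of_nonneg_right h2 hP2n
          · calc P1 * 2 ^ L.card ≤ 1 * 2 ^ L.card :=
                mul_le_mul_of_nonneg_right hP11 (by positivity)
              _ = _ := one_mul _
      _ = X * (3 / 2 * (Real.log p / p * (P1 * P2))) + 2 ^ L.card * Real.log p := by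
          ring
  refine (Finset.sum_le_sum e2).trans ?_
  rw [Finset.sum_add_distrib, ← Finset.mul_sum, ← Finset.mul_sum, ← Finset.mul_sum]
  have hl2 : ∀ l ∈ L, (0 : ℝ) ≤ 1 - (1 - v) / l := by
    intro l hl
    have : (1 : ℝ) ≤ l := by exact_mod_cast (hL l hl).one_le
    have : (1 - v) / l ≤ 1 := by
      rw [div_le_one (by linarith)]; linarith
    linarith
  have h3 := hm ((X : ℝ) + 1) (by linarith [(Nat.cast_nonneg X : (0 : ℝ) ≤ X)])
  have hfl : ⌊((X : ℝ) + 1)⌋₊ = X + 1 := by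
    have : ((X : ℝ) + 1) = ((X + 1 : ℕ) : ℝ) := by push_cast; ring
    rw [this, Nat.floor_natCast]
  rw [hfl] at h3
  have e5 : ∏ l ∈ L, ((v - (1 - (1 - v) / (l : ℝ))) / ((l : ℝ) - 1) + (1 - (1 - v) / l))
      = ∏ l ∈ L, (1 - 2 * (1 - v) / (l : ℝ)) := by
    refine Finset.prod_congr rfl fun l hl => ?_
    have h2 : (2 : ℝ) ≤ l := by exact_mod_cast (hL l hl).two_le
    have h2' : (l : ℝ) - 1 ≠ 0 := by
      intro h; linarith
    have h2'' : (l : ℝ) ≠ 0 := by
      intro h; linarith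
    field_simp
    ring
  rw [e5] at h3
  have e6 : ∑ p ∈ (Icc 1 (X + 1)).filter (fun p => p.Prime ∧ p ≠ 2),
      (Real.log p / p * ∏ l ∈ L,
          ((if l ∣ p - 1 then v - (1 - (1 - v) / (l : ℝ)) else 0) + (1 - (1 - v) / l)))
      ≤ ∑ p ∈ (Icc 1 (X + 1)).filter Nat.Prime,
      (Real.log p / p * ∏ l ∈ L,
          ((if l ∣ p - 1 then v - (1 - (1 - v) / (l : ℝ)) else 0) + (1 - (1 - v) / l))) := by
    apply Finset.sum_le_sum_of_subset_of_nonneg
    · intro p hp
      rw [Finset.mem_filter] at hp ⊢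
      exact ⟨hp.1, hp.2.1⟩
    · intro p _ _
      apply mul_nonneg (div_nonneg (Real.log_natCast_nonneg p) (Nat.cast_nonneg p))
      refine Finset.prod_nonneg fun l hl => ?_
      split_ifs
      · linarith
      · linarith [hl2 l hl]
  have e7 : ∑ p ∈ (Icc 1 (X + 1)).filter (fun p => p.Prime ∧ p ≠ 2), Real.log p
      ≤ Real.log 4 * (X + 1) := by
    have h4 := Chebyshev.theta_le_log4_mul_x (x := (X : ℝ) + 1) (by positivity)
    refine le_trans ?_ h4
    rw [Chebyshev.theta, hfl]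
    apply Finset.sum_le_sum_of_subset_of_nonneg
    · intro p hp
      rw [Finset.mem_filter, Finset.mem_Icc] at hp
      rw [Finset.mem_filter, Finset.mem_Ioc]
      exact ⟨⟨by omega, hp.1.2⟩, hp.2.1⟩
    · intro p _ _
      exact Real.log_natCast_nonneg p
  apply add_le_add
  · apply mul_le_mul_of_nonneg_left _ (Nat.cast_nonneg X)
    apply mul_le_mul_of_nonneg_left _ (by norm_num)
    exact e6.trans h3
  · exact mul_le_mul_of_nonneg_left e7 (by positivity)

lemma exists_L (V : ℝ) : ∃ L : Finset ℕ, (∀ l ∈ L, l.Prime) ∧ V ≤ ∑ l ∈ L, (1 : ℝ) / l := by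
  have h' := not_summable_one_div_on_primes
  have h2 : Filter.Tendsto (fun n => ∑ i ∈ range n,
      Set.indicator {p : ℕ | p.Prime} (fun n : ℕ => (1 : ℝ) / n) i) Filter.atTop Filter.atTop := by
    rw [← not_summable_iff_tendsto_nat_atTop_of_nonneg]
    · exact h'
    · intro n
      apply Set.indicator_nonneg
      intro x _
      positivity
  obtain ⟨n, hn⟩ := (h2.eventually (Filter.eventually_ge_atTop V)).exists
  refine ⟨(range n).filter Nat.Prime, fun l hl => (Finset.mem_filter.mp hl).2, ?_⟩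
  rw [Finset.sum_filter]
  refine hn.trans (le_of_eq ?_)
  refine Finset.sum_congr rfl fun i _ => ?_
  simp [Set.indicator]

lemma Fw_exp (L : Finset ℕ) (s : ℝ) (m : ℕ) :
    Fw L (fun _ => Real.exp s) m = Real.exp (s * (L.filter (fun l => l ∣ m)).card) := by
  unfold Fw
  rw [Finset.prod_ite, Finset.prod_const, Finset.prod_const_one, mul_one, ← Real.exp_nat_mul,
    mul_comm]

theorem EW (ε η : ℝ) (hε : 0 < ε) (hη : 0 < η) : ∃ X₀ : ℕ, ∀ X : ℕ, X₀ ≤ X →
    (((Icc 1 X).filter (fun m => Even m ∧ η * Real.log X ≤ Zf m)).card : ℝ) ≤ ε * X := by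
  -- choose the set of primes
  set δ : ℝ := min (ε / 4) (ε * η / 12) with hδ
  have hδ0 : 0 < δ := lt_min (by positivity) (by positivity)
  obtain ⟨L, hL, hV⟩ := exists_L (max 0 (40 * Real.log (1 / δ)))
  set V := ∑ l ∈ L, (1 : ℝ) / l with hVdef
  have hV0 : 0 ≤ V := (le_max_left _ _).trans hV
  have hV1 : 40 * Real.log (1 / δ) ≤ V := (le_max_right _ _).trans hV
  have hexp : Real.exp (-(V / 40)) ≤ δ := by
    rw [Real.exp_neg, inv_le_comm₀ (Real.exp_pos _) hδ0, ← one_div]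
    rw [← Real.exp_log (show (0 : ℝ) < 1 / δ by positivity)]
    apply Real.exp_le_exp.mpr
    linarith
  have hu : Real.exp (1 / 2) ≤ 17 / 10 := by
    have h1 : Real.exp (1 / 2) ^ 2 = Real.exp 1 := by
      rw [← Real.exp_nat_mul]; norm_num
    have h2 := Real.exp_one_lt_d9
    by_contra h
    push Not at h
    nlinarith [Real.exp_pos (1 / 2)]
  have hu1 : 1 ≤ Real.exp (1 / 2) := Real.one_le_exp (by norm_num)
  have hv : Real.exp (-(1 / 4)) ≤ 4 / 5 := by
    have h1 := Real.add_one_le_exp (1 / 4 : ℝ)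
    rw [Real.exp_neg, inv_le_comm₀ (Real.exp_pos _) (by norm_num)]
    linarith
  have hv0 : 0 < Real.exp (-(1 / 4)) := Real.exp_pos _
  obtain ⟨C, hC, hb⟩ := part_b L hL (Real.exp (-(1 / 4))) hv0.le (by linarith)
  -- products
  have hprod1 : ∏ l ∈ L, (1 + (Real.exp (1 / 2) - 1) / (l : ℝ)) ≤ Real.exp (7 / 10 * V) := by
    calc ∏ l ∈ L, (1 + (Real.exp (1 / 2) - 1) / (l : ℝ))
        ≤ ∏ l ∈ L, Real.exp (7 / 10 * (1 / (l : ℝ))) := by
          apply Finset.prod_le_prod
          · intro l _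
            have : 0 ≤ (Real.exp (1 / 2) - 1) / (l : ℝ) := div_nonneg (by linarith) (by positivity)
            linarith
          · intro l _
            have h1 := Real.add_one_le_exp (7 / 10 * (1 / (l : ℝ)))
            have h2 : (Real.exp (1 / 2) - 1) / (l : ℝ) ≤ 7 / 10 * (1 / (l : ℝ)) := by
              rw [div_eq_mul_one_div]
              exact mul_le_mul_of_nonneg_right (by linarith) (by positivity)
            linarith
      _ = Real.exp (7 / 10 * V) := by
          rw [← Real.exp_sum, hVdef, Finset.mul_sum]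
  have hprod2 : ∏ l ∈ L, (1 - 2 * (1 - Real.exp (-(1 / 4))) / (l : ℝ)) ≤
      Real.exp (-(2 / 5 * V)) := by
    calc ∏ l ∈ L, (1 - 2 * (1 - Real.exp (-(1 / 4))) / (l : ℝ))
        ≤ ∏ l ∈ L, Real.exp (-(2 / 5 * (1 / (l : ℝ)))) := by
          apply Finset.prod_le_prod
          · intro l hl
            have h2 : (2 : ℝ) ≤ l := by exact_mod_cast (hL l hl).two_le
            have : 2 * (1 - Real.exp (-(1 / 4))) / (l : ℝ) ≤ 1 := by
              rw [div_le_one (by linarith)]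
              linarith
            linarith
          · intro l _
            have h1 := Real.add_one_le_exp (-(2 / 5 * (1 / (l : ℝ))))
            have h2 : 2 / 5 * (1 / (l : ℝ)) ≤ 2 * (1 - Real.exp (-(1 / 4))) / (l : ℝ) := by
              rw [div_eq_mul_one_div (2 * (1 - Real.exp (-(1 / 4))))]
              exact mul_le_mul_of_nonneg_right (by linarith) (by positivity)
            linarith
      _ = Real.exp (-(2 / 5 * V)) := by
          rw [← Real.exp_sum, hVdef, Finset.mul_sum, Finset.sum_neg_distrib]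
  have hprod2n : 0 ≤ ∏ l ∈ L, (1 - 2 * (1 - Real.exp (-(1 / 4))) / (l : ℝ)) := by
    apply Finset.prod_nonneg
    intro l hl
    have h2 : (2 : ℝ) ≤ l := by exact_mod_cast (hL l hl).two_le
    have : 2 * (1 - Real.exp (-(1 / 4))) / (l : ℝ) ≤ 1 := by
      rw [div_le_one (by linarith)]
      linarith
    linarith
  set K : ℝ := 2 ^ L.card with hK
  have hK0 : 0 < K := by positivity
  set R : ℝ := 4 * Real.exp (3 / 8 * V) * (3 / 2 * C + K * (Real.log 4 * 2)) / (η * ε) with hR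
  have hl4 : 0 < Real.log 4 := Real.log_pos (by norm_num)
  have hR0 : 0 ≤ R := by positivity
  refine ⟨max 2 (max ⌈K * 4 / ε⌉₊ ⌈Real.exp R⌉₊), fun X hX => ?_⟩
  have hX2 : 2 ≤ X := (le_max_left _ _).trans hX
  have hX3 : K * 4 / ε ≤ X := (Nat.le_ceil _).trans
    (by exact_mod_cast (le_max_left _ _).trans ((le_max_right _ _).trans hX))
  have hX4 : Real.exp R ≤ X := (Nat.le_ceil _).trans
    (by exact_mod_cast (le_max_right _ _).trans ((le_max_right _ _).trans hX))
  have hXr : (2 : ℝ) ≤ X := by exact_mod_cast hX2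
  have hlogR : R ≤ Real.log X := by
    rw [Real.le_log_iff_exp_le (by linarith)]; exact hX4
  have hlog0 : 0 < Real.log X := Real.log_pos (by linarith)
  have hlog1 : Real.log (X + 1) ≤ 2 * Real.log X := by
    have : Real.log (X + 1) ≤ Real.log ((X : ℝ) ^ 2) := by
      apply Real.log_le_log (by linarith)
      nlinarith
    rwa [Real.log_pow] at this
  -- the two bad sets
  set B1 := (Icc 1 X).filter (fun m => Real.exp (3 / 4 * V) ≤ Fw L (fun _ => Real.exp (1 / 2)) m)
    with hB1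
  set B2 := (Icc 1 X).filter (fun m =>
    η * Real.log X * Real.exp (-(3 / 8 * V)) ≤ Zf m * Fw L (fun _ => Real.exp (-(1 / 4))) m)
    with hB2
  have hsub : (Icc 1 X).filter (fun m => Even m ∧ η * Real.log X ≤ Zf m) ⊆ B1 ∪ B2 := by
    intro m hm
    rw [Finset.mem_filter] at hm
    obtain ⟨hm1, _, hm2⟩ := hm
    rw [Finset.mem_union, hB1, hB2, Finset.mem_filter, Finset.mem_filter]
    by_cases h : Real.exp (3 / 4 * V) ≤ Fw L (fun _ => Real.exp (1 / 2)) m
    · exact Or.inl ⟨hm1, h⟩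
    · refine Or.inr ⟨hm1, ?_⟩
      push Not at h
      rw [Fw_exp, Real.exp_lt_exp] at h
      rw [Fw_exp]
      apply mul_le_mul hm2 _ (Real.exp_pos _).le
      · exact le_trans (by positivity) hm2
      · apply Real.exp_le_exp.mpr
        linarith
  have hc1 : (B1.card : ℝ) * Real.exp (3 / 4 * V) ≤ X * Real.exp (7 / 10 * V) + K := by
    have h1 := Fw_sum L hL (fun _ => Real.exp (1 / 2)) (fun l _ => by
      rw [abs_le]; constructor <;> linarith) X
    have h2 : (B1.card : ℝ) * Real.exp (3 / 4 * V) ≤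
        ∑ m ∈ B1, Fw L (fun _ => Real.exp (1 / 2)) m := by
      rw [← nsmul_eq_mul]
      apply Finset.card_nsmul_le_sum
      intro m hm
      exact (Finset.mem_filter.mp hm).2
    have h3 : ∑ m ∈ B1, Fw L (fun _ => Real.exp (1 / 2)) m ≤
        ∑ m ∈ Icc 1 X, Fw L (fun _ => Real.exp (1 / 2)) m := by
      apply Finset.sum_le_sum_of_subset_of_nonneg (Finset.filter_subset _ _)
      intro m _ _
      rw [Fw_exp]
      exact (Real.exp_pos _).le
    calc _ ≤ _ := h2.trans (h3.trans h1)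
      _ ≤ _ := by
        apply add_le_add _ le_rfl
        exact mul_le_mul_of_nonneg_left hprod1 (Nat.cast_nonneg X)
  have hZ0 : ∀ m, 0 ≤ Zf m := fun m =>
    Finset.sum_nonneg fun p _ => Real.log_natCast_nonneg p
  have hc2 : (B2.card : ℝ) * (η * Real.log X * Real.exp (-(3 / 8 * V))) ≤
      X * (3 / 2 * (2 * Real.log X * Real.exp (-(2 / 5 * V)) + C))
          + K * (Real.log 4 * (2 * X)) := by
    have h1 := hb X (by omega)
    have h2 : (B2.card : ℝ) * (η * Real.log X * Real.exp (-(3 / 8 * V))) ≤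
        ∑ m ∈ B2, Zf m * Fw L (fun _ => Real.exp (-(1 / 4))) m := by
      rw [← nsmul_eq_mul]
      apply Finset.card_nsmul_le_sum
      intro m hm
      exact (Finset.mem_filter.mp hm).2
    have h3 : ∑ m ∈ B2, Zf m * Fw L (fun _ => Real.exp (-(1 / 4))) m ≤
        ∑ m ∈ Icc 1 X, Zf m * Fw L (fun _ => Real.exp (-(1 / 4))) m := by
      apply Finset.sum_le_sum_of_subset_of_nonneg (Finset.filter_subset _ _)
      intro m _ _
      rw [Fw_exp]
      exact mul_nonneg (hZ0 m) (Real.exp_pos _).le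
    refine h2.trans (h3.trans (h1.trans ?_))
    apply add_le_add
    · apply mul_le_mul_of_nonneg_left _ (Nat.cast_nonneg X)
      apply mul_le_mul_of_nonneg_left _ (by norm_num)
      apply add_le_add _ le_rfl
      exact mul_le_mul hlog1 hprod2 hprod2n (by positivity)
    · apply mul_le_mul_of_nonneg_left _ hK0.le
      apply mul_le_mul_of_nonneg_left _ hl4.le
      linarith
  -- clean bounds
  have hd1 : (B1.card : ℝ) ≤ ε / 2 * X := by
    have h1 : (B1.card : ℝ) ≤ X * Real.exp (-(V / 20)) + K := by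
      have e1 : Real.exp (-(3 / 4 * V)) * Real.exp (3 / 4 * V) = 1 := by
        rw [← Real.exp_add]; simp
      have e2 : Real.exp (7 / 10 * V) * Real.exp (-(3 / 4 * V)) = Real.exp (-(V / 20)) := by
        rw [← Real.exp_add]; congr 1; ring
      have e3 : Real.exp (-(3 / 4 * V)) ≤ 1 := Real.exp_le_one_iff.mpr (by linarith)
      calc (B1.card : ℝ) = (B1.card : ℝ) * Real.exp (3 / 4 * V) * Real.exp (-(3 / 4 * V)) := by
            rw [mul_assoc, mul_comm (Real.exp (3 / 4 * V)), e1, mul_one]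
        _ ≤ (X * Real.exp (7 / 10 * V) + K) * Real.exp (-(3 / 4 * V)) :=
            mul_le_mul_of_nonneg_right hc1 (Real.exp_pos _).le
        _ = X * (Real.exp (7 / 10 * V) * Real.exp (-(3 / 4 * V)))
            + K * Real.exp (-(3 / 4 * V)) := by ring
        _ ≤ _ := by
            rw [e2]
            apply add_le_add le_rfl
            calc _ ≤ K * 1 := mul_le_mul_of_nonneg_left e3 hK0.le
              _ = K := mul_one _
    have h2 : Real.exp (-(V / 20)) ≤ ε / 4 := by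
      calc Real.exp (-(V / 20)) ≤ Real.exp (-(V / 40)) := Real.exp_le_exp.mpr (by linarith)
        _ ≤ δ := hexp
        _ ≤ ε / 4 := min_le_left _ _
    have h3 : K ≤ ε / 4 * X := by
      rw [div_le_iff₀ hε] at hX3
      linarith
    have h4 : (X : ℝ) * Real.exp (-(V / 20)) ≤ X * (ε / 4) :=
      mul_le_mul_of_nonneg_left h2 (Nat.cast_nonneg X)
    linarith
  have hd2 : (B2.card : ℝ) ≤ ε / 2 * X := by
    have e1 : Real.exp (3 / 8 * V) * Real.exp (-(3 / 8 * V)) = 1 := by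
      rw [← Real.exp_add]; simp
    have e2 : Real.exp (-(2 / 5 * V)) * Real.exp (3 / 8 * V) = Real.exp (-(V / 40)) := by
      rw [← Real.exp_add]; congr 1; ring
    have h1 : (B2.card : ℝ) * (η * Real.log X) ≤
        X * (3 * Real.log X * Real.exp (-(V / 40)))
          + X * (Real.exp (3 / 8 * V) * (3 / 2 * C + K * (Real.log 4 * 2))) := by
      calc (B2.card : ℝ) * (η * Real.log X)
          = (B2.card : ℝ) * (η * Real.log X * Real.exp (-(3 / 8 * V))) * Real.exp (3 / 8 * V) := by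
            rw [mul_assoc (B2.card : ℝ), mul_assoc (η * Real.log X),
              mul_comm (Real.exp (-(3 / 8 * V))), e1, mul_one]
        _ ≤ (X * (3 / 2 * (2 * Real.log X * Real.exp (-(2 / 5 * V)) + C))
          + K * (Real.log 4 * (2 * X))) * Real.exp (3 / 8 * V) :=
            mul_le_mul_of_nonneg_right hc2 (Real.exp_pos _).le
        _ = X * (3 * Real.log X * (Real.exp (-(2 / 5 * V)) * Real.exp (3 / 8 * V)))
          + X * (Real.exp (3 / 8 * V) * (3 / 2 * C + K * (Real.log 4 * 2))) := by ring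
        _ = _ := by rw [e2]
    have h2 : Real.exp (3 / 8 * V) * (3 / 2 * C + K * (Real.log 4 * 2)) ≤
        ε / 4 * (η * Real.log X) := by
      have h3 : R * (η * ε) = 4 * Real.exp (3 / 8 * V) * (3 / 2 * C + K * (Real.log 4 * 2)) := by
        rw [hR, div_mul_cancel₀]
        positivity
      have h4 : R * (η * ε) ≤ Real.log X * (η * ε) :=
        mul_le_mul_of_nonneg_right hlogR (by positivity)
      linarith
    have h5 : 3 * Real.log X * Real.exp (-(V / 40)) ≤ ε / 4 * (η * Real.log X) := by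
      have h6 : Real.exp (-(V / 40)) ≤ ε * η / 12 := hexp.trans (min_le_right _ _)
      have h7 : 3 * Real.log X * Real.exp (-(V / 40)) ≤ 3 * Real.log X * (ε * η / 12) :=
        mul_le_mul_of_nonneg_left h6 (by positivity)
      linarith
    have h8 : (B2.card : ℝ) * (η * Real.log X) ≤ (ε / 2 * X) * (η * Real.log X) := by
      have h9 : (X : ℝ) * (3 * Real.log X * Real.exp (-(V / 40))) ≤
          X * (ε / 4 * (η * Real.log X)) := mul_le_mul_of_nonneg_left h5 (Nat.cast_nonneg X)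
      have h10 : (X : ℝ) * (Real.exp (3 / 8 * V) * (3 / 2 * C + K * (Real.log 4 * 2))) ≤
          X * (ε / 4 * (η * Real.log X)) := mul_le_mul_of_nonneg_left h2 (Nat.cast_nonneg X)
      linarith
    exact le_of_mul_le_mul_right h8 (by positivity)
  calc (((Icc 1 X).filter (fun m => Even m ∧ η * Real.log X ≤ Zf m)).card : ℝ)
      ≤ ((B1 ∪ B2).card : ℝ) := by exact_mod_cast Finset.card_le_card hsub
    _ ≤ (B1.card : ℝ) + B2.card := by exact_mod_cast Finset.card_union_le _ _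
    _ ≤ ε * X := by linarith

end Pool.Agent.BernIrr
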