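import Mathlib
import Pool.Agent.BernIrr.Arch
import Pool.Agent.BernIrr.EW
import Pool.Agent.BernIrr.APrime
import Pool.Agent.BernIrr.Count

/-!
For every `ε > 0` and all large `X`, at least `(5/8 - ε) X/2` of the odd `n ≤ X` have the reduced
Bernoulli polynomial `B_n / (x (x - 1/2) (x - 1))` irreducible over the rationals.
-/

namespace Pool.Agent.BernIrr

open Polynomial Finset Pool.Agent.BernIrr

open scoped Classical in
theorem five_eighths (ε : ℝ) (hε : 0 < ε) : ∃ X₀ : ℕ, ∀ X : ℕ, X₀ ≤ X →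
    (5 / 8 - ε) * ((X : ℝ) / 2) ≤
      (((Icc 1 X).filter (fun n : ℕ => Odd n ∧ ∃ R : ℚ[X],
        Polynomial.bernoulli n = Polynomial.X * (Polynomial.X - C (1 / 2)) * (Polynomial.X - 1) * R ∧
          Irreducible R)).card : ℝ) := by
  obtain ⟨c₀, hc₀, n₀, hA⟩ := arch
  obtain ⟨X₀, h⟩ := count hc₀ hA (fun ε η hε hη => EW ε η hε hη) (fun ε hε => aprime c₀ ε hc₀ hε) ε hε
  exact ⟨X₀, fun X hX => h X hX⟩

end Pool.Agent.BernIrr
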